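import Pool.Agent.Helper1.CK.Defs

/-!
# Project CK (helper1), module Algebra
The pointwise divergence identity, pure algebra and calculus (no convex set).
-/

set_option autoImplicit false

open MeasureTheory Set Filter Topology Metric
open scoped RealInnerProductSpace ENNReal NNReal

namespace Pool.Agent.Helper1.CK

namespace Alg

/-- derivative of the distance to a point -/
lemma fderiv_norm {z x : E3} (ht : 0 < ‖x - z‖) :
    ∃ t' : E3 →L[ℝ] ℝ, HasFDerivAt (fun w : E3 => ‖w - z‖) t' x ∧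
      ∀ v, t' v = ⟪x - z, v⟫ / ‖x - z‖ := by
  have h1 : HasFDerivAt (fun w : E3 => w - z) (ContinuousLinearMap.id ℝ E3) x :=
    (hasFDerivAt_id x).sub_const z
  have h2 := h1.norm_sq
  have h3 := h2.sqrt (by positivity)
  have h4 : (fun w : E3 => Real.sqrt (‖w - z‖ ^ 2)) = fun w : E3 => ‖w - z‖ := by
    funext w
    exact Real.sqrt_sq (norm_nonneg _)
  rw [h4] at h3
  refine ⟨_, h3, fun v => ?_⟩
  rw [Real.sqrt_sq (norm_nonneg _)]
  simp only [smul_apply, ContinuousLinearMap.comp_apply, innerSL_apply_apply,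
    ContinuousLinearMap.id_apply, smul_eq_mul]
  have : ‖x - z‖ ≠ 0 := ht.ne'
  field_simp
  try simp
  try ring

lemma fderiv_s {n : E3 → E3} {z x : E3} {H : E3 →L[ℝ] E3} (hn : HasFDerivAt n H x) :
    ∃ s' : E3 →L[ℝ] ℝ, HasFDerivAt (fun w : E3 => ⟪w - z, n w⟫) s' x ∧
      ∀ v, s' v = ⟪v, n x⟫ + ⟪x - z, H v⟫ := by
  have h1 : HasFDerivAt (fun w : E3 => w - z) (ContinuousLinearMap.id ℝ E3) x :=
    (hasFDerivAt_id x).sub_const z
  refine ⟨_, h1.inner ℝ hn, fun v => ?_⟩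
  simp [fderivInnerCLM_apply]
  try ring

lemma deriv_psi {τ t : ℝ} (ht : 0 < t) : HasDerivAt (psi τ) (1 - τ ^ 2 / t ^ 2) t := by
  have h1 : HasDerivAt (fun r : ℝ => r - τ) 1 t := (hasDerivAt_id t).sub_const τ
  have h2 := (h1.pow 2).div (hasDerivAt_id t) ht.ne'
  refine (h2.congr_deriv ?_)
  have : t ≠ 0 := ht.ne'
  simp
  field_simp
  ring

lemma sum_coord (L : E3 →L[ℝ] ℝ) (v : E3) :
    ∑ i : Fin 3, L (EuclideanSpace.single i (1 : ℝ)) * v i = L v := by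
  have h1 : v = ∑ i : Fin 3, v i • EuclideanSpace.single i (1 : ℝ) := by
    ext j
    simp [Fin.sum_univ_three]
    fin_cases j <;> simp
  conv_rhs => rw [h1, map_sum]
  refine Finset.sum_congr rfl fun i _ => ?_
  rw [map_smul, smul_eq_mul, mul_comm]

/-- derivative of the scalar factor -/
lemma fderiv_f {n : E3 → E3} {ζ : ℝ → ℝ} {d : E3 → ℝ} {z x : E3} {τ : ℝ} {H : E3 →L[ℝ] E3}
    {ζ' : ℝ}
    (hn : HasFDerivAt n H x)
    (hd : HasFDerivAt d (innerSL ℝ (n x)) x) (hζ : HasDerivAt ζ ζ' (d x))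
    (ht : 0 < ‖x - z‖) (hs : 0 ≤ ⟪x - z, n x⟫) :
    ∃ f' : E3 →L[ℝ] ℝ, HasFDerivAt (fun w : E3 =>
        ζ (d w) * psi τ ‖w - z‖ / (‖w - z‖ + ⟪w - z, n w⟫)) f' x ∧
      ∀ v, f' v = ζ' * ⟪n x, v⟫ * psi τ ‖x - z‖ / (‖x - z‖ + ⟪x - z, n x⟫)
        + ζ (d x) * ((1 - τ ^ 2 / ‖x - z‖ ^ 2) * (⟪x - z, v⟫ / ‖x - z‖))
            / (‖x - z‖ + ⟪x - z, n x⟫)
        - ζ (d x) * psi τ ‖x - z‖ * (⟪x - z, v⟫ / ‖x - z‖ + (⟪v, n x⟫ + ⟪x - z, H v⟫))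
            / (‖x - z‖ + ⟪x - z, n x⟫) ^ 2 := by
  obtain ⟨t', ht1, ht2⟩ := fderiv_norm ht
  obtain ⟨s', hs1, hs2⟩ := fderiv_s (z := z) hn
  have h1 : HasFDerivAt (fun w : E3 => ζ (d w)) (ζ' • innerSL ℝ (n x)) x :=
    hζ.comp_hasFDerivAt x hd
  have h2 : HasFDerivAt (fun w : E3 => psi τ ‖w - z‖) ((1 - τ ^ 2 / ‖x - z‖ ^ 2) • t') x :=
    HasDerivAt.comp_hasFDerivAt (h₂ := psi τ) (f := fun w : E3 => ‖w - z‖) x
      (deriv_psi (τ := τ) ht) ht1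
  have h3 : HasFDerivAt (fun w : E3 => ‖w - z‖ + ⟪w - z, n w⟫) (t' + s') x := ht1.add hs1
  have hpos : 0 < ‖x - z‖ + ⟪x - z, n x⟫ := by linarith
  have h4 : HasFDerivAt (fun w : E3 => (‖w - z‖ + ⟪w - z, n w⟫)⁻¹)
      ((-((‖x - z‖ + ⟪x - z, n x⟫) ^ 2)⁻¹) • (t' + s')) x :=
    (hasDerivAt_inv hpos.ne').comp_hasFDerivAt x h3
  have h5 := (h1.mul h2).mul h4
  have h6 : (fun w : E3 => ζ (d w) * psi τ ‖w - z‖ / (‖w - z‖ + ⟪w - z, n w⟫)) =
      fun w : E3 => ζ (d w) * psi τ ‖w - z‖ * (‖w - z‖ + ⟪w - z, n w⟫)⁻¹ := by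
    funext w
    rw [div_eq_mul_inv]
  rw [h6]
  refine ⟨_, h5, fun v => ?_⟩
  simp only [add_apply, smul_apply, innerSL_apply_apply,
    smul_eq_mul, ht2, hs2, Pi.mul_apply]
  have h7 := hpos.ne'
  have h8 := ht.ne'
  field_simp
  ring

end Alg

/-- The divergence of `ζ ψ(t) (y - s n)/(t + s)` at a point where `n` has derivative `H` with
`|n| = 1`, `H n = 0`, and `ζ` has gradient parallel to `n`:
it is `ζ (2 - 2τ/t - s/t + τ² s/t³) - ζ ψ [s tr H/(t+s) + ⟨y, H y⟩/(t+s)²]`. -/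
theorem div_formula {n : E3 → E3} {ζ : ℝ → ℝ} {d : E3 → ℝ} {z x : E3} {τ : ℝ} {H : E3 →L[ℝ] E3}
    {ζ' : ℝ}
    (hn : HasFDerivAt n H x) (hHn : H (n x) = 0) (hnorm : ‖n x‖ = 1)
    (hd : HasFDerivAt d (innerSL ℝ (n x)) x) (hζ : HasDerivAt ζ ζ' (d x))
    (ht : 0 < ‖x - z‖) (hs : 0 ≤ ⟪x - z, n x⟫) :
    ∑ i : Fin 3, lineDeriv ℝ (fun w =>
        ((ζ (d w) * psi τ ‖w - z‖ / (‖w - z‖ + ⟪w - z, n w⟫)) •
          ((w - z) - ⟪w - z, n w⟫ • n w)) i) x (EuclideanSpace.single i (1 : ℝ)) =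
      ζ (d x) * (2 - 2 * τ / ‖x - z‖ - ⟪x - z, n x⟫ / ‖x - z‖
          + τ ^ 2 * ⟪x - z, n x⟫ / ‖x - z‖ ^ 3)
      - ζ (d x) * psi τ ‖x - z‖ *
        (⟪x - z, n x⟫ * (∑ i : Fin 3, (H (EuclideanSpace.single i (1 : ℝ))) i)
            / (‖x - z‖ + ⟪x - z, n x⟫)
          + ⟪x - z, H (x - z)⟫ / (‖x - z‖ + ⟪x - z, n x⟫) ^ 2) := by
  obtain ⟨f', hf1, hf2⟩ := Alg.fderiv_f (τ := τ) hn hd hζ ht hs
  obtain ⟨s', hs1, hs2⟩ := Alg.fderiv_s (z := z) hn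
  set f : E3 → ℝ := fun w => ζ (d w) * psi τ ‖w - z‖ / (‖w - z‖ + ⟪w - z, n w⟫) with hf
  set sx := ⟪x - z, n x⟫ with hsx
  set t := ‖x - z‖ with htt
  -- the terms
  have hterm : ∀ i : Fin 3, lineDeriv ℝ (fun w : E3 =>
        ((ζ (d w) * psi τ ‖w - z‖ / (‖w - z‖ + ⟪w - z, n w⟫)) •
          ((w - z) - ⟪w - z, n w⟫ • n w)) i) x (EuclideanSpace.single i (1 : ℝ)) =
      f' (EuclideanSpace.single i (1 : ℝ)) * ((x - z) - sx • n x) i +
        f x * (1 - s' (EuclideanSpace.single i (1 : ℝ)) * (n x) i -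
          sx * (H (EuclideanSpace.single i (1 : ℝ))) i) := by
    intro i
    have h1 : HasFDerivAt (fun w : E3 => w - z) (ContinuousLinearMap.id ℝ E3) x :=
      (hasFDerivAt_id x).sub_const z
    have h2 := h1.sub (hs1.smul hn)
    have h3 := hf1.smul h2
    have h4 := (((EuclideanSpace.proj i : E3 →L[ℝ] ℝ).hasFDerivAt.comp x h3).hasLineDerivAt
      (EuclideanSpace.single i (1 : ℝ))).lineDeriv
    refine h4.trans ?_
    simp
    ring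
  rw [Finset.sum_congr rfl fun i _ => hterm i, Finset.sum_add_distrib, Alg.sum_coord,
    ← Finset.mul_sum, Finset.sum_sub_distrib, Finset.sum_sub_distrib, Alg.sum_coord,
    ← Finset.mul_sum, hf2, hs2, hHn]
  have hnn : ⟪n x, n x⟫ = 1 := by
    rw [real_inner_self_eq_norm_sq, hnorm, one_pow]
  have hyy : ⟪x - z, x - z⟫ = t ^ 2 := by
    rw [real_inner_self_eq_norm_sq]
  have hny : ⟪n x, x - z⟫ = sx := by rw [real_inner_comm]
  have hH : H ((x - z) - sx • n x) = H (x - z) := by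
    rw [map_sub, map_smul, hHn, smul_zero, sub_zero]
  rw [hH]
  have hw1 : ⟪n x, (x - z) - sx • n x⟫ = 0 := by
    rw [inner_sub_right, inner_smul_right, hny, hnn]
    ring
  have hw2 : ⟪x - z, (x - z) - sx • n x⟫ = t ^ 2 - sx ^ 2 := by
    rw [inner_sub_right, inner_smul_right, hyy, ← hsx]
    ring
  have hw3 : ⟪(x - z) - sx • n x, n x⟫ = 0 := by
    rw [real_inner_comm, hw1]
  rw [hw1, hw2, hw3, hnn, inner_zero_right]
  have hfx : f x = ζ (d x) * psi τ t / (t + sx) := rfl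
  rw [hfx]
  have hpos : 0 < t + sx := by linarith
  have h1 : (∑ _i : Fin 3, (1 : ℝ)) = 3 := by simp
  rw [h1]
  have hpsi : psi τ t = (t - τ) ^ 2 / t := rfl
  rw [hpsi]
  have h2 := hpos.ne'
  have h3 := ht.ne'
  field_simp
  ring

end Pool.Agent.Helper1.CK
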