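import Pool.Agent.Helper1.CK.Defs

/-!
# Project CK (helper1), module Basic
Nearest points, the outer normal field.
-/

set_option autoImplicit false

open MeasureTheory Set Filter Topology Metric
open scoped RealInnerProductSpace ENNReal NNReal

namespace Pool.Agent.Helper1.CK

private theorem P_spec {K : Set E3} (hK : Good K) (x : E3) : P K x ∈ K ∧ infDist x K = dist x (P K x) := by
  obtain ⟨y, hy, hd⟩ := hK.cpt.exists_infDist_eq_dist hK.ne x
  exact Classical.epsilon_spec (p := fun p : E3 => p ∈ K ∧ infDist x K = dist x p) ⟨y, hy, hd⟩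

theorem P_mem {K : Set E3} (hK : Good K) (x : E3) : P K x ∈ K := (P_spec hK x).1

theorem infDist_eq {K : Set E3} (hK : Good K) (x : E3) : infDist x K = ‖x - P K x‖ := by
  rw [(P_spec hK x).2, dist_eq_norm]

/-- variational inequality for the nearest point -/
theorem inner_P_le {K : Set E3} (hK : Good K) (x : E3) {w : E3} (hw : w ∈ K) :
    ⟪x - P K x, w - P K x⟫ ≤ 0 := by
  refine (norm_eq_iInf_iff_real_inner_le_zero hK.cvx (P_mem hK x)).1 ?_ w hw
  rw [← infDist_eq hK x, Metric.infDist_eq_iInf]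
  simp only [dist_eq_norm]

/-- the nearest point is unique -/
theorem P_unique {K : Set E3} (hK : Good K) (x : E3) {p : E3} (hp : p ∈ K)
    (h : ∀ w ∈ K, ⟪x - p, w - p⟫ ≤ 0) : P K x = p := by
  have h1 := inner_P_le hK x hp
  have h2 := h _ (P_mem hK x)
  have h3 : ⟪x - P K x, p - P K x⟫ + ⟪x - p, P K x - p⟫ = ⟪P K x - p, P K x - p⟫ := by
    simp only [inner_sub_left, inner_sub_right, real_inner_comm]
    ring
  have h4 : ⟪P K x - p, P K x - p⟫ ≤ 0 := by linarith
  have h5 : P K x - p = 0 := real_inner_self_nonpos.1 h4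
  exact sub_eq_zero.1 h5

theorem P_lip {K : Set E3} (hK : Good K) : LipschitzWith 1 (P K) := by
  refine LipschitzWith.mk_one fun x x' => ?_
  rw [dist_eq_norm, dist_eq_norm]
  have h1 := inner_P_le hK x (P_mem hK x')
  have h2 := inner_P_le hK x' (P_mem hK x)
  have h3 : ⟪x - P K x, P K x' - P K x⟫ + ⟪x' - P K x', P K x - P K x'⟫ =
      ⟪P K x - P K x', P K x - P K x'⟫ - ⟪x - x', P K x - P K x'⟫ := by
    simp only [inner_sub_left, inner_sub_right, real_inner_comm]
    ring
  have h4 : ‖P K x - P K x'‖ ^ 2 ≤ ‖x - x'‖ * ‖P K x - P K x'‖ := by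
    rw [← real_inner_self_eq_norm_sq]
    have := real_inner_le_norm (x - x') (P K x - P K x')
    linarith
  by_contra hcon
  push Not at hcon
  have h5 : 0 ≤ ‖x - x'‖ := norm_nonneg _
  nlinarith

theorem norm_nn {K : Set E3} (hK : Good K) {x : E3} (hx : 0 < infDist x K) : ‖nn K x‖ = 1 := by
  rw [nn, norm_smul, norm_inv, Real.norm_of_nonneg hx.le, ← infDist_eq hK x,
    inv_mul_cancel₀ hx.ne']

theorem smul_nn {K : Set E3} (hK : Good K) {x : E3} (hx : 0 < infDist x K) :
    infDist x K • nn K x = x - P K x := by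
  have _ := hK
  rw [nn, smul_inv_smul₀ hx.ne']

/-- (F1) the supporting half space at the nearest point -/
theorem nn_supp {K : Set E3} (hK : Good K) {x : E3} (hx : 0 < infDist x K) (w : E3) :
    infDist x K - infDist w K ≤ ⟪nn K x, x - w⟫ := by
  have h0 : x - w = (x - P K x) - (P K w - P K x) + (P K w - w) := by abel
  have h1 : ⟪nn K x, x - P K x⟫ = infDist x K := by
    rw [← smul_nn hK hx, inner_smul_right, real_inner_self_eq_norm_sq, norm_nn hK hx]
    ring
  have h2 : ⟪nn K x, P K w - P K x⟫ ≤ 0 := by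
    rw [nn, real_inner_smul_left]
    exact mul_nonpos_of_nonneg_of_nonpos (inv_nonneg.2 hx.le) (inner_P_le hK x (P_mem hK w))
  have h3 : -infDist w K ≤ ⟪nn K x, P K w - w⟫ := by
    have := neg_le_of_abs_le (abs_real_inner_le_norm (nn K x) (P K w - w))
    rw [norm_nn hK hx, one_mul, norm_sub_rev, ← infDist_eq hK w] at this
    exact this
  rw [h0, inner_add_right, inner_sub_right, h1]
  linarith

/-- `s ≥ d(x) - d(z)` -/
theorem ss_ge {K : Set E3} (hK : Good K) {x : E3} (hx : 0 < infDist x K) (z : E3) :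
    infDist x K - infDist z K ≤ ss K z x := by
  rw [ss, real_inner_comm]
  exact nn_supp hK hx z

theorem ss_le {K : Set E3} (hK : Good K) {x : E3} (hx : 0 < infDist x K) (z : E3) :
    ss K z x ≤ ‖x - z‖ := by
  have := real_inner_le_norm (x - z) (nn K x)
  rw [norm_nn hK hx, mul_one] at this
  exact this

/-- (F2) monotonicity of the normal field -/
theorem nn_mono {K : Set E3} (hK : Good K) {x x' : E3} (hx : 0 < infDist x K)
    (hx' : 0 < infDist x' K) : 0 ≤ ⟪nn K x - nn K x', x - x'⟫ := by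
  have h1 := nn_supp hK hx x'
  have h2 := nn_supp hK hx' x
  have h3 : ⟪nn K x', x' - x⟫ = -⟪nn K x', x - x'⟫ := by
    rw [← inner_neg_right, neg_sub]
  rw [inner_sub_left]
  linarith

/-- (F3) the normal field is Lipschitz away from `K` -/
theorem nn_lip {K : Set E3} (hK : Good K) {δ : ℝ} (hδ : 0 < δ) {x x' : E3}
    (hx : δ ≤ infDist x K) (hx' : δ ≤ infDist x' K) :
    ‖nn K x - nn K x'‖ ≤ (3 / δ) * ‖x - x'‖ := by
  set d := infDist x K with hd
  set d' := infDist x' K with hd'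
  have hd0 : 0 < d := lt_of_lt_of_le hδ hx
  have hd0' : 0 < d' := lt_of_lt_of_le hδ hx'
  have e : nn K x - nn K x' =
      d⁻¹ • ((x - x') - (P K x - P K x')) + (d⁻¹ - d'⁻¹) • (x' - P K x') := by
    rw [nn, nn, ← hd, ← hd']
    module
  have n1 : ‖P K x - P K x'‖ ≤ ‖x - x'‖ := by
    have := (P_lip hK).dist_le_mul x x'
    simpa [dist_eq_norm] using this
  have n2 : |d - d'| ≤ ‖x - x'‖ := by
    have := (lipschitz_infDist_pt K).dist_le_mul x x'
    rw [Real.dist_eq, dist_eq_norm] at this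
    simpa using this
  have n3 : ‖x' - P K x'‖ = d' := (infDist_eq hK x').symm
  have n4 : ‖(d⁻¹ - d'⁻¹) • (x' - P K x')‖ ≤ d⁻¹ * ‖x - x'‖ := by
    rw [norm_smul, n3, Real.norm_eq_abs]
    have : d⁻¹ - d'⁻¹ = (d' - d) * (d⁻¹ * d'⁻¹) := by
      field_simp
    rw [this, abs_mul, abs_of_pos (mul_pos (inv_pos.2 hd0) (inv_pos.2 hd0')), abs_sub_comm]
    have : |d - d'| * (d⁻¹ * d'⁻¹) * d' = d⁻¹ * |d - d'| := by
      field_simp
    rw [this]
    exact mul_le_mul_of_nonneg_left n2 (inv_nonneg.2 hd0.le)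
  have n5 : ‖d⁻¹ • ((x - x') - (P K x - P K x'))‖ ≤ d⁻¹ * (2 * ‖x - x'‖) := by
    rw [norm_smul, Real.norm_of_nonneg (inv_nonneg.2 hd0.le)]
    refine mul_le_mul_of_nonneg_left ?_ (inv_nonneg.2 hd0.le)
    have := norm_sub_le (x - x') (P K x - P K x')
    linarith
  have n6 : d⁻¹ ≤ δ⁻¹ := inv_anti₀ hδ hx
  have n7 := norm_nonneg (x - x')
  rw [e]
  calc _ ≤ d⁻¹ * (2 * ‖x - x'‖) + d⁻¹ * ‖x - x'‖ := (norm_add_le _ _).trans (add_le_add n5 n4)
    _ = d⁻¹ * (3 * ‖x - x'‖) := by ring
    _ ≤ δ⁻¹ * (3 * ‖x - x'‖) := mul_le_mul_of_nonneg_right n6 (by positivity)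
    _ = (3 / δ) * ‖x - x'‖ := by ring

private theorem ray_eq {K : Set E3} (x : E3) (hx : 0 < infDist x K) (r : ℝ) :
    x + r • nn K x - P K x = (1 + r * (infDist x K)⁻¹) • (x - P K x) := by
  have _ := hx
  rw [nn]
  module

private theorem ray_coeff {K : Set E3} {x : E3} (hx : 0 < infDist x K) {r : ℝ}
    (hr : -infDist x K ≤ r) : 0 ≤ 1 + r * (infDist x K)⁻¹ := by
  have : 1 + r * (infDist x K)⁻¹ = (infDist x K + r) * (infDist x K)⁻¹ := by
    field_simp
  rw [this]
  exact mul_nonneg (by linarith) (inv_nonneg.2 hx.le)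

/-- (F4) the normal field is constant along normal rays -/
theorem P_ray {K : Set E3} (hK : Good K) {x : E3} (hx : 0 < infDist x K) {r : ℝ}
    (hr : -infDist x K ≤ r) : P K (x + r • nn K x) = P K x := by
  refine P_unique hK _ (P_mem hK x) fun w hw => ?_
  rw [ray_eq x hx r, real_inner_smul_left]
  exact mul_nonpos_of_nonneg_of_nonpos (ray_coeff hx hr) (inner_P_le hK x hw)

theorem infDist_ray {K : Set E3} (hK : Good K) {x : E3} (hx : 0 < infDist x K) {r : ℝ}
    (hr : -infDist x K ≤ r) : infDist (x + r • nn K x) K = infDist x K + r := by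
  rw [infDist_eq hK (x + r • nn K x), P_ray hK hx hr, ray_eq x hx r, norm_smul,
    Real.norm_of_nonneg (ray_coeff hx hr), ← infDist_eq hK x]
  field_simp

theorem nn_ray {K : Set E3} (hK : Good K) {x : E3} (hx : 0 < infDist x K) {r : ℝ}
    (hr : -infDist x K < r) : nn K (x + r • nn K x) = nn K x := by
  have h1 : (0 : ℝ) < infDist x K + r := by linarith
  rw [nn, infDist_ray hK hx hr.le, P_ray hK hx hr.le, ray_eq x hx r, smul_smul, nn]
  congr 1
  have := hx.ne'
  have := h1.ne'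
  field_simp

end Pool.Agent.Helper1.CK
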