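import Pool.Agent.Helper1.CK.Basic

/-!
# Project CK (helper1), module Cont
Continuity and integrability of the weights.
-/

set_option autoImplicit false

open MeasureTheory Set Filter Topology Metric
open scoped RealInnerProductSpace ENNReal NNReal

namespace Pool.Agent.Helper1.CK

/-- every function `φ(d(x)) g(x)` with `g` continuous on the open set `δ < d(x)` is continuous with
compact support -/
theorem cont_cutoff {K : Set E3} (hK : Good K) {φ : ℝ → ℝ} {δ ε : ℝ} (hφ : Adm φ δ ε)
    {g : E3 → ℝ} (hg : ContinuousOn g {x | δ < infDist x K}) :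
    Continuous (fun x => φ (infDist x K) * g x) ∧
      HasCompactSupport (fun x => φ (infDist x K) * g x) := by
  have hd : Continuous fun x : E3 => infDist x K := continuous_infDist_pt K
  have hφc : Continuous φ := hφ.smooth.continuous
  constructor
  · rw [continuous_iff_continuousAt]
    intro x
    by_cases hx : δ < infDist x K
    · have hU : IsOpen {x : E3 | δ < infDist x K} := isOpen_lt continuous_const hd
      exact ((hφc.comp hd).continuousAt).mul (hg.continuousAt (hU.mem_nhds hx))
    · have h1 : infDist x K ∉ tsupport φ := fun h => hx (hφ.supp h).1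
      have h2 : ∀ᶠ t in 𝓝 (infDist x K), φ t = 0 := notMem_tsupport_iff_eventuallyEq.1 h1
      have h3 : ∀ᶠ y in 𝓝 x, φ (infDist y K) = 0 := hd.continuousAt.eventually h2
      have h4 : (fun y : E3 => φ (infDist y K) * g y) =ᶠ[𝓝 x] fun _ => 0 := by
        filter_upwards [h3] with y hy
        rw [hy, zero_mul]
      exact continuousAt_const.congr h4.symm
  · refine HasCompactSupport.intro (K := cthickening ε K) hK.cpt.cthickening fun x hx => ?_
    have h1 : φ (infDist x K) = 0 := by
      by_contra hne
      have h2 : infDist x K ∈ tsupport φ := subset_tsupport φ hne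
      have h3 := (hφ.supp h2).2
      apply hx
      rw [mem_cthickening_iff]
      rw [infDist] at h3
      have h4 : infEDist x K ≠ ⊤ := infEDist_ne_top hK.ne
      exact (ENNReal.le_ofReal_iff_toReal_le h4 (ENNReal.toReal_nonneg.trans h3.le)).2 h3.le
    rw [h1, zero_mul]

theorem continuousOn_nn {K : Set E3} (hK : Good K) {δ : ℝ} (hδ : 0 ≤ δ) :
    ContinuousOn (nn K) {x | δ < infDist x K} := by
  have hd : Continuous fun x : E3 => infDist x K := continuous_infDist_pt K
  have hP : Continuous (P K) := (P_lip hK).continuous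
  have h1 : ContinuousOn (fun x : E3 => (infDist x K)⁻¹ • (x - P K x)) {x | δ < infDist x K} := by
    refine ContinuousOn.smul (ContinuousOn.inv₀ hd.continuousOn fun x hx => ?_)
      (continuous_id.sub hP).continuousOn
    have : (0 : ℝ) < infDist x K := lt_of_le_of_lt hδ hx
    exact this.ne'
  exact h1

theorem continuousOn_ss {K : Set E3} (hK : Good K) {δ : ℝ} (hδ : 0 ≤ δ) (z : E3) :
    ContinuousOn (ss K z) {x | δ < infDist x K} := by
  have h1 : ContinuousOn (fun x : E3 => ⟪x - z, nn K x⟫) {x | δ < infDist x K} :=
    ContinuousOn.inner (continuous_id.sub continuous_const).continuousOn (continuousOn_nn hK hδ)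
  exact h1

/-- `φ(d) s^a / t^b` is integrable -/
theorem integrable_weight {K : Set E3} (hK : Good K) {φ : ℝ → ℝ} {δ ε : ℝ} (hφ : Adm φ δ ε)
    (hδ : 0 ≤ δ) {z : E3} (hz : infDist z K ≤ δ) (a b : ℕ) :
    Integrable (fun x => φ (infDist x K) * (ss K z x ^ a / ‖x - z‖ ^ b)) := by
  have h1 : ContinuousOn (fun x : E3 => ss K z x ^ a / ‖x - z‖ ^ b) {x | δ < infDist x K} := by
    refine ContinuousOn.div ((continuousOn_ss hK hδ z).pow a)
      ((continuous_id.sub continuous_const).norm.pow b).continuousOn fun x hx => ?_
    have h2 : x ≠ z := by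
      rintro rfl
      exact absurd hx (not_lt.2 hz)
    exact pow_ne_zero _ (norm_ne_zero_iff.2 (sub_ne_zero.2 h2))
  obtain ⟨h2, h3⟩ := cont_cutoff hK hφ h1
  exact h2.integrable_of_hasCompactSupport h3

end Pool.Agent.Helper1.CK
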