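import Mathlib

/-!
# Project CK (helper1): Newtonian capacity of a convex set versus surface area (MP_68da2e_an)
Definitions.
-/

set_option autoImplicit false

open MeasureTheory Set Filter Topology Metric
open scoped RealInnerProductSpace ENNReal NNReal

namespace Pool.Agent.Helper1.CK

/-- Euclidean 3-space. -/
abbrev E3 := EuclideanSpace ℝ (Fin 3)

/-- Newtonian energy of a measure: the double integral of `1/|x-y|` (value `⊤` on the diagonal). -/
noncomputable def nEnergy (μ : Measure E3) : ℝ≥0∞ := ∫⁻ x, ∫⁻ y, (edist x y)⁻¹ ∂μ ∂μ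

/-- The minimal Newtonian energy `V_1(K)` over Borel probability measures supported on `K`. -/
noncomputable def V1 (K : Set E3) : ℝ≥0∞ :=
  ⨅ (μ : Measure E3) (_ : IsProbabilityMeasure μ) (_ : μ Kᶜ = 0), nEnergy μ

/-- compact convex nonempty -/
structure Good (K : Set E3) : Prop where
  cpt : IsCompact K
  cvx : Convex ℝ K
  ne : K.Nonempty

/-- the nearest point of `K` to `x` -/
noncomputable def P (K : Set E3) (x : E3) : E3 :=
  Classical.epsilon (fun p : E3 => p ∈ K ∧ infDist x K = dist x p)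

/-- the outer unit normal field `n(x) = (x - P x)/d(x)` -/
noncomputable def nn (K : Set E3) (x : E3) : E3 := (infDist x K)⁻¹ • (x - P K x)

/-- `s(x) = ⟨x - z, n(x)⟩` -/
noncomputable def ss (K : Set E3) (z x : E3) : ℝ := ⟪x - z, nn K x⟫

/-- the weight `(t - τ)² / t` -/
noncomputable def psi (τ t : ℝ) : ℝ := (t - τ) ^ 2 / t

/-- the tangential vector field `φ(d(x)) ψ(t) (y - s n)/(t + s)`, `y = x - z`, `t = |y|` -/
noncomputable def W (K : Set E3) (φ : ℝ → ℝ) (τ : ℝ) (z x : E3) : E3 :=
  (φ (infDist x K) * psi τ ‖x - z‖ / (‖x - z‖ + ss K z x)) • ((x - z) - ss K z x • nn K x)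

/-- admissible cutoff functions of the distance -/
structure Adm (φ : ℝ → ℝ) (δ ε : ℝ) : Prop where
  smooth : ContDiff ℝ 1 φ
  nonneg : ∀ h, 0 ≤ φ h
  cpt : HasCompactSupport φ
  supp : tsupport φ ⊆ Ioo δ ε

/-- the outer shell `0 < d(x) < ε` -/
def Sh (K : Set E3) (ε : ℝ) : Set E3 := {x | 0 < infDist x K ∧ infDist x K < ε}

/-- mutual energy of a set with itself, with respect to Lebesgue measure -/
noncomputable def En (A : Set E3) : ℝ≥0∞ := ∫⁻ x in A, ∫⁻ y in A, (edist x y)⁻¹

/-- the hypothesis of the theorem: the outer Minkowski content of `K` is `S` -/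
def Content (K : Set E3) (S : ℝ) : Prop :=
  Tendsto (fun ε : ℝ => ((volume (Metric.cthickening ε K)).toReal - (volume K).toReal) / ε)
    (𝓝[>] (0 : ℝ)) (𝓝 S)

/-- the Newtonian field of a set `A` of density 1: `∫_A (x - y)/|x - y|³ dx` -/
noncomputable def VA (A : Set E3) (y : E3) : E3 := ∫ x in A, (‖x - y‖ ^ 3)⁻¹ • (x - y)

end Pool.Agent.Helper1.CK
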