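import Pool.Agent.Helper1.CK.Basic

/-!
# Project CK (helper1), module Deriv
Derivatives of the distance function and of the normal field.
-/

set_option autoImplicit false

open MeasureTheory Set Filter Topology Metric
open scoped RealInnerProductSpace ENNReal NNReal

namespace Pool.Agent.Helper1.CK

private theorem ev_pos {K : Set E3} {x : E3} {c : ℝ}
    (hc : c < infDist x K) : ∀ᶠ w in 𝓝 x, c < infDist w K :=
  (continuous_infDist_pt K).continuousAt.eventually (lt_mem_nhds hc)

/-- the distance function is differentiable outside `K` with gradient `n` -/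
theorem hasFDerivAt_infDist {K : Set E3} (hK : Good K) {x : E3} (hx : 0 < infDist x K) :
    HasFDerivAt (fun y => infDist y K) (innerSL ℝ (nn K x)) x := by
  have hδ : 0 < infDist x K / 2 := by positivity
  refine HasFDerivAt.of_isLittleO ?_
  have hb : (fun w => infDist w K - infDist x K - (innerSL ℝ (nn K x)) (w - x)) =O[𝓝 x]
      fun w => ‖w - x‖ ^ 2 := by
    refine Asymptotics.IsBigO.of_bound (3 / (infDist x K / 2)) ?_
    filter_upwards [ev_pos (by linarith : infDist x K / 2 < infDist x K)] with w hw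
    have hw0 : 0 < infDist w K := hδ.trans hw
    have h1 := nn_supp hK hw0 x
    have h2 := nn_supp hK hx w
    have h3 : ⟪nn K x, x - w⟫ = -⟪nn K x, w - x⟫ := by
      rw [← inner_neg_right, neg_sub]
    have h4 : ⟪nn K w - nn K x, w - x⟫ ≤ ‖nn K w - nn K x‖ * ‖w - x‖ := real_inner_le_norm _ _
    have h5 := nn_lip hK hδ hw.le (by linarith : infDist x K / 2 ≤ infDist x K)
    have h6 : ⟪nn K w - nn K x, w - x⟫ = ⟪nn K w, w - x⟫ - ⟪nn K x, w - x⟫ := inner_sub_left _ _ _
    have h7 : ‖nn K w - nn K x‖ * ‖w - x‖ ≤ 3 / (infDist x K / 2) * ‖w - x‖ * ‖w - x‖ :=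
      mul_le_mul_of_nonneg_right h5 (norm_nonneg _)
    change ‖infDist w K - infDist x K - ⟪nn K x, w - x⟫‖ ≤ _
    rw [Real.norm_eq_abs, Real.norm_eq_abs, abs_of_nonneg (by positivity : 0 ≤ ‖w - x‖ ^ 2),
      abs_of_nonneg (by linarith)]
    nlinarith
  exact hb.trans_isLittleO (Asymptotics.isLittleO_pow_sub_sub x one_lt_two)

/-- the derivative of the normal field (second fundamental form) where it exists -/
theorem nn_deriv {K : Set E3} (hK : Good K) {x : E3} (hx : 0 < infDist x K)
    (hP : DifferentiableAt ℝ (P K) x) :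
    ∃ H : E3 →L[ℝ] E3, HasFDerivAt (nn K) H x ∧ H (nn K x) = 0 ∧ ∀ v, 0 ≤ ⟪v, H v⟫ := by
  have hd : DifferentiableAt ℝ (nn K) x := by
    have h1 : DifferentiableAt ℝ (fun y => (infDist y K)⁻¹ • (y - P K y)) x := by
      have h2 : DifferentiableAt ℝ (fun y => (infDist y K)⁻¹) x :=
        (hasFDerivAt_infDist hK hx).differentiableAt.inv hx.ne'
      have h3 : DifferentiableAt ℝ (fun y => y - P K y) x := differentiableAt_id.sub hP
      exact h2.smul h3
    exact h1
  have hH := hd.hasFDerivAt
  refine ⟨fderiv ℝ (nn K) x, hH, ?_, fun v => ?_⟩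
  · -- constant along the ray
    have hc : HasDerivAt (fun r : ℝ => x + r • nn K x) (nn K x) 0 := by
      simpa using ((hasDerivAt_id (0 : ℝ)).smul_const (nn K x)).const_add x
    have hH' : HasFDerivAt (nn K) (fderiv ℝ (nn K) x) (x + (0 : ℝ) • nn K x) := by
      rw [zero_smul, add_zero]; exact hH
    have h1 := hH'.comp_hasDerivAt (0 : ℝ) hc
    have h2 : HasDerivAt (nn K ∘ fun r : ℝ => x + r • nn K x) 0 0 := by
      refine (hasDerivAt_const (0 : ℝ) (nn K x)).congr_of_eventuallyEq ?_
      filter_upwards [lt_mem_nhds (by linarith : -infDist x K < 0)] with r hr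
      exact nn_ray hK hx hr
    exact h1.unique h2
  · have hc : HasDerivAt (fun r : ℝ => x + r • v) v 0 := by
      simpa using ((hasDerivAt_id (0 : ℝ)).smul_const v).const_add x
    have hH' : HasFDerivAt (nn K) (fderiv ℝ (nn K) x) (x + (0 : ℝ) • v) := by
      rw [zero_smul, add_zero]; exact hH
    have h0 := hH'.comp_hasDerivAt (0 : ℝ) hc
    have h1 : HasDerivAt (fun r : ℝ => nn K (x + r • v)) (fderiv ℝ (nn K) x v) 0 := h0
    have h2 : HasDerivAt (fun r : ℝ => ⟪v, nn K (x + r • v)⟫) ⟪v, fderiv ℝ (nn K) x v⟫ 0 := by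
      have := (hasDerivAt_const (0 : ℝ) v).inner ℝ h1
      simpa using this
    rw [hasDerivAt_iff_tendsto_slope] at h2
    refine ge_of_tendsto h2 ?_
    have hcont : Tendsto (fun r : ℝ => x + r • v) (𝓝 0) (𝓝 x) := by
      have : ContinuousAt (fun r : ℝ => x + r • v) 0 := by fun_prop
      have h3 := this.tendsto
      rwa [zero_smul, add_zero] at h3
    have h4 : ∀ᶠ r : ℝ in 𝓝 0, 0 < infDist (x + r • v) K := hcont.eventually (ev_pos hx)
    filter_upwards [mem_nhdsWithin_of_mem_nhds h4, self_mem_nhdsWithin] with r hr hr0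
    have h5 := nn_mono hK hr hx
    rw [add_sub_cancel_left, inner_smul_right, inner_sub_left, real_inner_comm v (nn K (x + r • v)),
      real_inner_comm v (nn K x)] at h5
    have hr1 : r ≠ 0 := hr0
    rw [slope_def_field, sub_zero, zero_smul, add_zero]
    have h6 : 0 < r ^ 2 := by positivity
    have h7 : (⟪v, nn K (x + r • v)⟫ - ⟪v, nn K x⟫) / r =
        (r * (⟪v, nn K (x + r • v)⟫ - ⟪v, nn K x⟫)) / r ^ 2 := by
      field_simp
    rw [h7]
    exact div_nonneg h5 h6.le

end Pool.Agent.Helper1.CK
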