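import Pool.Agent.Helper1.CK.Level

/-!
# Project CK (helper1), module Layer
Layer cake formula for the shell.
-/

set_option autoImplicit false

open MeasureTheory Set Filter Topology Metric
open scoped RealInnerProductSpace ENNReal NNReal

namespace Pool.Agent.Helper1.CK

theorem layer {K : Set E3} (hK : Good K) {ε : ℝ} (hε : 0 < ε) :
    ∫⁻ z in Sh K ε, ENNReal.ofReal (ε - infDist z K) = ∫⁻ h in Ioo 0 ε, volume (Sh K h) := by
  have _ := hK
  have _ := hε
  set D : Set (E3 × ℝ) := {p | infDist p.1 K < p.2} with hD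
  have hDm : MeasurableSet D :=
    measurableSet_lt ((continuous_infDist_pt K).measurable.comp measurable_fst) measurable_snd
  set f : E3 → ℝ → ℝ≥0∞ := fun z h => D.indicator 1 (z, h) with hf
  have hfm : Measurable (Function.uncurry f) := by
    have : Function.uncurry f = D.indicator 1 := by
      funext p
      rfl
    rw [this]
    exact measurable_one.indicator hDm
  have h1 : ∀ z ∈ Sh K ε, ENNReal.ofReal (ε - infDist z K) = ∫⁻ h in Ioo 0 ε, f z h := by
    intro z hz
    have e : ∀ h, f z h = (Ioi (infDist z K)).indicator 1 h := by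
      intro h
      by_cases hh : infDist z K < h
      · have m1 : (z, h) ∈ D := hh
        have m2 : h ∈ Ioi (infDist z K) := hh
        simp only [hf, indicator_of_mem m1, indicator_of_mem m2, Pi.one_apply]
      · have m1 : (z, h) ∉ D := hh
        have m2 : h ∉ Ioi (infDist z K) := hh
        simp only [hf, indicator_of_notMem m1, indicator_of_notMem m2]
    simp only [e]
    rw [lintegral_indicator_one measurableSet_Ioi, Measure.restrict_apply measurableSet_Ioi]
    have hs : Ioi (infDist z K) ∩ Ioo 0 ε = Ioo (infDist z K) ε := by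
      ext h
      simp only [mem_inter_iff, mem_Ioi, mem_Ioo]
      constructor
      · rintro ⟨a, b, c⟩
        exact ⟨a, c⟩
      · rintro ⟨a, b⟩
        exact ⟨a, hz.1.trans a, b⟩
    rw [hs, Real.volume_Ioo]
  have h2 : ∀ h ∈ Ioo (0 : ℝ) ε, ∫⁻ z in Sh K ε, f z h = volume (Sh K h) := by
    intro h hh
    have e : ∀ z, f z h = {z : E3 | infDist z K < h}.indicator 1 z := by
      intro z
      by_cases hz : infDist z K < h
      · have m1 : (z, h) ∈ D := hz
        have m2 : z ∈ {z : E3 | infDist z K < h} := hz
        simp only [hf, indicator_of_mem m1, indicator_of_mem m2, Pi.one_apply]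
      · have m1 : (z, h) ∉ D := hz
        have m2 : z ∉ {z : E3 | infDist z K < h} := hz
        simp only [hf, indicator_of_notMem m1, indicator_of_notMem m2]
    have hm : MeasurableSet {z : E3 | infDist z K < h} :=
      measurableSet_lt (continuous_infDist_pt K).measurable measurable_const
    simp only [e]
    rw [lintegral_indicator_one hm, Measure.restrict_apply hm]
    congr 1
    ext z
    simp only [Sh, mem_inter_iff, mem_setOf_eq]
    constructor
    · rintro ⟨a, b, c⟩
      exact ⟨b, a⟩
    · rintro ⟨a, b⟩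
      exact ⟨b, a, b.trans hh.2⟩
  rw [setLIntegral_congr_fun (measurable_Sh K ε) h1,
    lintegral_lintegral_swap hfm.aemeasurable, setLIntegral_congr_fun measurableSet_Ioo h2]

theorem layer_le {K : Set E3} (hK : Good K) {ε c : ℝ} (hε : 0 < ε) (hc : 0 ≤ c)
    (h : ∀ h, 0 < h → h < ε → (volume (Sh K h)).toReal ≤ c * h) :
    ∫⁻ z in Sh K ε, ENNReal.ofReal (ε - infDist z K) ≤ ENNReal.ofReal (c * ε ^ 2 / 2) := by
  rw [layer hK hε]
  have h1 : ∫⁻ h in Ioo 0 ε, volume (Sh K h) ≤ ∫⁻ h in Ioo 0 ε, ENNReal.ofReal (c * h) := by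
    refine setLIntegral_mono' measurableSet_Ioo fun x hx => ?_
    have hfin : volume (Sh K x) ≠ ⊤ := (isBounded_Sh hK x).measure_lt_top.ne
    rw [← ENNReal.ofReal_toReal hfin]
    exact ENNReal.ofReal_le_ofReal (h x hx.1 hx.2)
  refine h1.trans (le_of_eq ?_)
  have hcont : Continuous fun x : ℝ => c * x := by fun_prop
  have hint : IntegrableOn (fun x : ℝ => c * x) (Ioo 0 ε) :=
    (hcont.integrableOn_Icc (a := 0) (b := ε)).mono_set Ioo_subset_Icc_self
  rw [← ofReal_integral_eq_lintegral_ofReal hint]
  · congr 1
    rw [← integral_Ioc_eq_integral_Ioo, ← intervalIntegral.integral_of_le hε.le,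
      intervalIntegral.integral_const_mul, integral_id]
    ring
  · refine (ae_restrict_iff' measurableSet_Ioo).2 (Eventually.of_forall fun x hx => ?_)
    exact mul_nonneg hc hx.1.le

end Pool.Agent.Helper1.CK
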