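import Pool.Agent.Helper1.CK.Energy
import Pool.Agent.Helper1.CK.Layer

/-!
# Project CK (helper1), module Shell
Thin shells have almost the right energy.
-/

set_option autoImplicit false

open MeasureTheory Set Filter Topology Metric
open scoped RealInnerProductSpace ENNReal NNReal

namespace Pool.Agent.Helper1.CK

private lemma tau_id {S : ℝ} (hS : 0 < S) :
    1 / √(S / (2 * Real.pi)) + 2 * Real.pi * √(S / (2 * Real.pi)) * S / S ^ 2 =
      √(8 * Real.pi / S) := by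
  have hpi := Real.pi_pos
  set τ := √(S / (2 * Real.pi)) with hτ
  have hτ0 : 0 < τ := Real.sqrt_pos.2 (by positivity)
  have hτ2 : τ ^ 2 = S / (2 * Real.pi) := Real.sq_sqrt (by positivity)
  have h1 : 2 * Real.pi * τ ^ 2 = S := by
    rw [hτ2]; field_simp
  have h2 : 1 / τ + 2 * Real.pi * τ * S / S ^ 2 = 2 / τ := by
    rw [← h1]
    field_simp
    ring
  rw [h2]
  symm
  rw [Real.sqrt_eq_iff_mul_self_eq (by positivity) (by positivity)]
  rw [← h1]
  field_simp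
  ring

theorem exists_shell {K : Set E3} (hK : Good K) {S : ℝ} (hS : 0 < S) (hC : Content K S) {η : ℝ}
    (hη : 0 < η) : ∃ ε, 0 < ε ∧ ε < η ∧ volume (Sh K ε) ≠ 0 ∧ volume (Sh K ε) ≠ ⊤ ∧
      En (Sh K ε) ≤ ENNReal.ofReal (√(8 * Real.pi / S) + η) * volume (Sh K ε) ^ 2 := by
  have hpi := Real.pi_pos
  set τ := √(S / (2 * Real.pi)) with hτ
  have hτ0 : 0 < τ := Real.sqrt_pos.2 (by positivity)
  -- choice of the auxiliary parameter
  obtain ⟨e, he0, heS, hge⟩ : ∃ e : ℝ, 0 < e ∧ e < S ∧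
      1 / τ + 2 * Real.pi * τ * (S + e) / (S - e) ^ 2 < √(8 * Real.pi / S) + η := by
    have hcont : ContinuousAt (fun e : ℝ => 1 / τ + 2 * Real.pi * τ * (S + e) / (S - e) ^ 2) 0 := by
      refine ContinuousAt.add continuousAt_const (ContinuousAt.div (by fun_prop) (by fun_prop) ?_)
      rw [sub_zero]
      positivity
    have h0 : (fun e : ℝ => 1 / τ + 2 * Real.pi * τ * (S + e) / (S - e) ^ 2) 0 <
        √(8 * Real.pi / S) + η := by
      have := tau_id hS
      simp only [add_zero, sub_zero]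
      rw [this]
      linarith
    have h1 : ∀ᶠ e : ℝ in 𝓝[>] 0, 1 / τ + 2 * Real.pi * τ * (S + e) / (S - e) ^ 2 <
        √(8 * Real.pi / S) + η :=
      (hcont.eventually (gt_mem_nhds h0)).filter_mono nhdsWithin_le_nhds
    have h2 : ∀ᶠ e : ℝ in 𝓝[>] 0, e ∈ Ioo 0 S := Ioo_mem_nhdsGT hS
    obtain ⟨e, h3, h4⟩ := (h1.and h2).exists
    exact ⟨e, h4.1, h4.2, h3⟩
  obtain ⟨ε0, hε0, hvol⟩ := volume_Sh_asymp hK hC he0
  set ε := min η ε0 / 2 with hε
  have hmin : 0 < min η ε0 := lt_min hη hε0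
  have hεpos : 0 < ε := by positivity
  have hεη : ε < η := by
    have := min_le_left η ε0
    rw [hε]; linarith
  have hεε0 : ε < ε0 := by
    have := min_le_right η ε0
    rw [hε]; linarith
  obtain ⟨hlow, hup⟩ := hvol ε hεpos hεε0
  set M := (volume (Sh K ε)).toReal with hM
  have hM0 : 0 < M := lt_of_lt_of_le (mul_pos (sub_pos.2 heS) hεpos) hlow
  obtain ⟨hv0, hvtop⟩ := ENNReal.toReal_pos_iff.1 hM0
  have hvM : volume (Sh K ε) = ENNReal.ofReal M := (ENNReal.ofReal_toReal hvtop.ne).symm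
  refine ⟨ε, hεpos, hεη, hv0.ne', hvtop.ne, ?_⟩
  have hI : ∫⁻ z in Sh K ε, ENNReal.ofReal (ε - infDist z K) ≤
      ENNReal.ofReal ((S + e) * ε ^ 2 / 2) :=
    layer_le hK hεpos (by linarith) fun h hh1 hh2 => (hvol h hh1 (hh2.trans hεε0)).2
  have hgoal : 1 / τ * M ^ 2 + 4 * Real.pi * τ * ((S + e) * ε ^ 2 / 2) ≤
      (√(8 * Real.pi / S) + η) * M ^ 2 := by
    have hSe : 0 < S - e := sub_pos.2 heS
    have h1 : ε ≤ M / (S - e) := by
      rw [le_div_iff₀ hSe]
      linarith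
    have h2 : ε ^ 2 ≤ M ^ 2 / (S - e) ^ 2 := by
      rw [← div_pow]
      exact pow_le_pow_left₀ hεpos.le h1 2
    calc 1 / τ * M ^ 2 + 4 * Real.pi * τ * ((S + e) * ε ^ 2 / 2)
        = 1 / τ * M ^ 2 + 2 * Real.pi * τ * (S + e) * ε ^ 2 := by ring
      _ ≤ 1 / τ * M ^ 2 + 2 * Real.pi * τ * (S + e) * (M ^ 2 / (S - e) ^ 2) := by
          have h3 : 0 ≤ 2 * Real.pi * τ * (S + e) := by positivity
          have := mul_le_mul_of_nonneg_left h2 h3
          linarith
      _ = (1 / τ + 2 * Real.pi * τ * (S + e) / (S - e) ^ 2) * M ^ 2 := by ring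
      _ ≤ _ := mul_le_mul_of_nonneg_right hge.le (by positivity)
  calc En (Sh K ε) ≤ ENNReal.ofReal (1 / τ) * volume (Sh K ε) ^ 2
      + ENNReal.ofReal (4 * Real.pi * τ) *
        ∫⁻ z in Sh K ε, ENNReal.ofReal (ε - infDist z K) := energy_shell hK hτ0
    _ ≤ ENNReal.ofReal (1 / τ) * volume (Sh K ε) ^ 2
      + ENNReal.ofReal (4 * Real.pi * τ) * ENNReal.ofReal ((S + e) * ε ^ 2 / 2) := by gcongr
    _ = ENNReal.ofReal (1 / τ * M ^ 2 + 4 * Real.pi * τ * ((S + e) * ε ^ 2 / 2)) := by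
        rw [hvM, ← ENNReal.ofReal_pow hM0.le, ← ENNReal.ofReal_mul (by positivity),
          ← ENNReal.ofReal_mul (by positivity), ← ENNReal.ofReal_add (by positivity)
          (by positivity)]
    _ ≤ ENNReal.ofReal ((√(8 * Real.pi / S) + η) * M ^ 2) := ENNReal.ofReal_le_ofReal hgoal
    _ = ENNReal.ofReal (√(8 * Real.pi / S) + η) * volume (Sh K ε) ^ 2 := by
        rw [ENNReal.ofReal_mul (by positivity), ENNReal.ofReal_pow hM0.le, ← hvM]

end Pool.Agent.Helper1.CK
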