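import Pool.Agent.Helper1.CK.Dual
import Pool.Agent.Helper1.CK.Shell

/-!
# Project CK (helper1), module Dirichlet
The lower bound for the Dirichlet capacity.
-/

set_option autoImplicit false

open MeasureTheory Set Filter Topology Metric
open scoped RealInnerProductSpace ENNReal NNReal

namespace Pool.Agent.Helper1.CK

namespace DirAux

lemma measurableSet_Sh (K : Set E3) (ε : ℝ) : MeasurableSet (Sh K ε) := by
  have hc : Continuous fun x : E3 => infDist x K := continuous_infDist_pt K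
  have h1 : IsOpen (Sh K ε) :=
    (isOpen_lt continuous_const hc).inter (isOpen_lt hc continuous_const)
  exact h1.measurableSet

lemma Sh_subset {K : Set E3} (hK : Good K) {ε δ : ℝ} (h : ε < δ) :
    Sh K ε ⊆ Metric.cthickening δ K := by
  intro x hx
  rw [Metric.mem_cthickening_iff]
  have h1 : infDist x K < δ := hx.2.trans h
  have h2 : infEDist x K ≠ ⊤ := infEDist_ne_top hK.ne
  rw [ENNReal.le_ofReal_iff_toReal_le h2 (hx.1.trans h1).le]
  exact h1.le

/-- the inequality before passing to the limit -/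
lemma pre {K : Set E3} (hK : Good K) {S : ℝ} (hS : 0 < S) (hC : Content K S)
    {u : E3 → ℝ} (hu : ContDiff ℝ 1 u) (hc : HasCompactSupport u) (h1 : ∀ x ∈ K, 1 ≤ u x)
    {θ η : ℝ} (hθ : 0 < θ) (hθ1 : θ < 1) (hη : 0 < η) :
    4 * Real.pi * (1 - θ) ^ 2 ≤ (∫ x, ‖fderiv ℝ u x‖ ^ 2) * (√(8 * Real.pi / S) + η) := by
  have hcu : Continuous u := hu.continuous
  have hU : IsOpen {x | 1 - θ < u x} := isOpen_lt continuous_const hcu
  have hKU : K ⊆ {x | 1 - θ < u x} := fun x hx => by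
    have := h1 x hx
    change 1 - θ < u x
    linarith
  obtain ⟨δ, hδ, hδU⟩ := hK.cpt.exists_cthickening_subset_open hU hKU
  obtain ⟨ε, hε, hεη, hv0, hvt, hEn⟩ := exists_shell hK hS hC (lt_min hη hδ)
  set A := Sh K ε with hAdef
  have hA : MeasurableSet A := measurableSet_Sh K ε
  have hAsub : A ⊆ Metric.cthickening δ K := Sh_subset hK (hεη.trans_le (min_le_right _ _))
  have hb : Bornology.IsBounded A := (hK.cpt.isBounded.cthickening).subset hAsub
  have hd := dual hA hb hu hc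
  set D := ∫ x, ‖fderiv ℝ u x‖ ^ 2 with hD
  have hD0 : 0 ≤ D := integral_nonneg fun y => sq_nonneg _
  set m := (volume A).toReal with hm
  have hm0 : 0 < m := ENNReal.toReal_pos hv0 hvt
  -- lower bound of the integral
  have hint : (1 - θ) * m ≤ ∫ x in A, u x := by
    have hi : IntegrableOn u A := (hcu.integrable_of_hasCompactSupport hc).integrableOn
    have h2 : ∫ x in A, (1 - θ) ≤ ∫ x in A, u x := by
      refine setIntegral_mono_on ?_ hi hA fun x hx => ?_
      · exact integrableOn_const hvt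
      · exact (hδU (hAsub hx)).le
    rw [setIntegral_const, smul_eq_mul, mul_comm] at h2
    exact h2
  -- upper bound of the energy
  have hEn' : (En A).toReal ≤ (√(8 * Real.pi / S) + η) * m ^ 2 := by
    have h3 : 0 ≤ √(8 * Real.pi / S) + min η δ := by
      have := Real.sqrt_nonneg (8 * Real.pi / S)
      have := (lt_min hη hδ).le
      positivity
    have h4 : (En A).toReal ≤
        (ENNReal.ofReal (√(8 * Real.pi / S) + min η δ) * volume A ^ 2).toReal :=
      ENNReal.toReal_mono (ENNReal.mul_ne_top ENNReal.ofReal_ne_top (ENNReal.pow_ne_top hvt)) hEn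
    rw [ENNReal.toReal_mul, ENNReal.toReal_ofReal h3, ENNReal.toReal_pow] at h4
    refine h4.trans ?_
    have : min η δ ≤ η := min_le_left _ _
    gcongr
  have hsq : ((1 - θ) * m) ^ 2 ≤ (∫ x in A, u x) ^ 2 :=
    pow_le_pow_left₀ (by nlinarith) hint 2
  have hfin : 4 * Real.pi * (1 - θ) ^ 2 * m ^ 2 ≤
      (D * (√(8 * Real.pi / S) + η)) * m ^ 2 := by
    calc 4 * Real.pi * (1 - θ) ^ 2 * m ^ 2 = 4 * Real.pi * ((1 - θ) * m) ^ 2 := by ring
      _ ≤ 4 * Real.pi * (∫ x in A, u x) ^ 2 := by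
          have := Real.pi_pos
          gcongr
      _ ≤ D * (En A).toReal := hd
      _ ≤ D * ((√(8 * Real.pi / S) + η) * m ^ 2) := by gcongr
      _ = _ := by ring
  exact le_of_mul_le_mul_right hfin (by positivity)

end DirAux

theorem dirichlet_ge {K : Set E3} (hK : Good K) {S : ℝ} (hS : 0 < S) (hC : Content K S)
    {u : E3 → ℝ} (hu : ContDiff ℝ 1 u) (hc : HasCompactSupport u) (h1 : ∀ x ∈ K, 1 ≤ u x) :
    √(2 * Real.pi * S) ≤ ∫ x, ‖fderiv ℝ u x‖ ^ 2 := by
  set D := ∫ x, ‖fderiv ℝ u x‖ ^ 2 with hD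
  have hpi := Real.pi_pos
  have hlim : 4 * Real.pi * (1 - (0 : ℝ)) ^ 2 ≤ D * (√(8 * Real.pi / S) + 0) := by
    have hc1 : Continuous fun θ : ℝ => 4 * Real.pi * (1 - θ) ^ 2 := by fun_prop
    have hc2 : Continuous fun θ : ℝ => D * (√(8 * Real.pi / S) + θ) := by fun_prop
    have t1 : Tendsto (fun θ : ℝ => 4 * Real.pi * (1 - θ) ^ 2) (𝓝[>] 0)
        (𝓝 (4 * Real.pi * (1 - (0 : ℝ)) ^ 2)) := (hc1.tendsto 0).mono_left nhdsWithin_le_nhds
    have t2 : Tendsto (fun θ : ℝ => D * (√(8 * Real.pi / S) + θ)) (𝓝[>] 0)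
        (𝓝 (D * (√(8 * Real.pi / S) + 0))) := (hc2.tendsto 0).mono_left nhdsWithin_le_nhds
    refine le_of_tendsto_of_tendsto t1 t2 ?_
    have h2 : Ioo (0 : ℝ) 1 ∈ 𝓝[>] (0 : ℝ) := Ioo_mem_nhdsGT one_pos
    filter_upwards [h2] with θ hθ
    exact DirAux.pre hK hS hC hu hc h1 hθ.1 hθ.2 hθ.1
  have h3 : √(2 * Real.pi * S) * √(8 * Real.pi / S) = 4 * Real.pi := by
    rw [← Real.sqrt_mul (by positivity)]
    have : 2 * Real.pi * S * (8 * Real.pi / S) = (4 * Real.pi) ^ 2 := by
      field_simp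
      ring
    rw [this, Real.sqrt_sq (by positivity)]
  have h4 : 0 < √(8 * Real.pi / S) := Real.sqrt_pos.2 (by positivity)
  have h5 : √(2 * Real.pi * S) * √(8 * Real.pi / S) ≤ D * √(8 * Real.pi / S) := by
    rw [h3]
    calc 4 * Real.pi = 4 * Real.pi * (1 - (0 : ℝ)) ^ 2 := by ring
      _ ≤ _ := hlim
      _ = _ := by ring
  exact le_of_mul_le_mul_right h5 h4

end Pool.Agent.Helper1.CK
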