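import Pool.Agent.Helper1.CK.Deriv
import Pool.Agent.Helper1.CK.Algebra

/-!
# Project CK (helper1), module DivAe
The divergence inequality almost everywhere.
-/

set_option autoImplicit false

open MeasureTheory Set Filter Topology Metric
open scoped RealInnerProductSpace ENNReal NNReal

namespace Pool.Agent.Helper1.CK

theorem div_ae {K : Set E3} (hK : Good K) {φ : ℝ → ℝ} {δ ε : ℝ} (hφ : Adm φ δ ε) (hδ : 0 ≤ δ)
    {z : E3} (hz : infDist z K ≤ δ) (τ : ℝ) :
    ∀ᵐ x : E3, ∑ i : Fin 3, lineDeriv ℝ (fun w => W K φ τ z w i) x (EuclideanSpace.single i (1 : ℝ))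
      ≤ φ (infDist x K) * (2 - 2 * τ / ‖x - z‖ - ss K z x / ‖x - z‖
          + τ ^ 2 * ss K z x / ‖x - z‖ ^ 3) := by
  filter_upwards [(P_lip hK).ae_differentiableAt] with x hx
  by_cases hmem : infDist x K ∈ tsupport φ
  · have h1 := hφ.supp hmem
    have h0 : 0 < infDist x K := lt_of_le_of_lt hδ h1.1
    have hs : 0 < ss K z x := lt_of_lt_of_le (by linarith [h1.1]) (ss_ge hK h0 z)
    have ht : 0 < ‖x - z‖ := lt_of_lt_of_le hs (ss_le hK h0 z)
    obtain ⟨H, hH, hHn, hpos⟩ := nn_deriv hK h0 hx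
    have hd := hasFDerivAt_infDist hK h0
    have hζ : HasDerivAt φ (deriv φ (infDist x K)) (infDist x K) :=
      ((hφ.smooth.differentiable (by norm_num)) _).hasDerivAt
    have hf := div_formula (z := z) (τ := τ) hH hHn (norm_nn hK h0) hd hζ ht hs.le
    have hf' : ∑ i : Fin 3, lineDeriv ℝ (fun w => W K φ τ z w i) x
        (EuclideanSpace.single i (1 : ℝ)) = _ := hf
    rw [hf']
    change _ ≤ φ (infDist x K) * (2 - 2 * τ / ‖x - z‖ - ss K z x / ‖x - z‖
          + τ ^ 2 * ss K z x / ‖x - z‖ ^ 3)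
    have hpsi : 0 ≤ psi τ ‖x - z‖ := div_nonneg (sq_nonneg _) ht.le
    have htr : 0 ≤ ∑ i : Fin 3, (H (EuclideanSpace.single i (1 : ℝ))) i := by
      refine Finset.sum_nonneg fun i _ => ?_
      have := hpos (EuclideanSpace.single i (1 : ℝ))
      rwa [EuclideanSpace.inner_single_left, map_one, one_mul] at this
    have hq : 0 ≤ φ (infDist x K) * psi τ ‖x - z‖ *
        (⟪x - z, nn K x⟫ * (∑ i : Fin 3, (H (EuclideanSpace.single i (1 : ℝ))) i)
            / (‖x - z‖ + ⟪x - z, nn K x⟫)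
          + ⟪x - z, H (x - z)⟫ / (‖x - z‖ + ⟪x - z, nn K x⟫) ^ 2) := by
      have hs' : 0 < ⟪x - z, nn K x⟫ := hs
      refine mul_nonneg (mul_nonneg (hφ.nonneg _) hpsi) (add_nonneg ?_ ?_)
      · exact div_nonneg (mul_nonneg hs'.le htr) (by positivity)
      · exact div_nonneg (hpos _) (by positivity)
    have e : ss K z x = ⟪x - z, nn K x⟫ := rfl
    rw [e]
    linarith
  · have hop : IsOpen {w : E3 | infDist w K ∉ tsupport φ} :=
      ((isClosed_tsupport φ).preimage (continuous_infDist_pt K)).isOpen_compl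
    have hev : ∀ᶠ w in 𝓝 x, infDist w K ∉ tsupport φ := hop.mem_nhds hmem
    have hW : ∀ᶠ w in 𝓝 x, W K φ τ z w = 0 := by
      filter_upwards [hev] with w hw
      simp [W, image_eq_zero_of_notMem_tsupport hw]
    have h0 : ∀ i : Fin 3, lineDeriv ℝ (fun w => W K φ τ z w i) x
        (EuclideanSpace.single i (1 : ℝ)) = 0 := by
      intro i
      have : (fun w => W K φ τ z w i) =ᶠ[𝓝 x] fun _ => (0 : ℝ) := by
        filter_upwards [hW] with w hw
        simp [hw]
      rw [this.lineDeriv_eq]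
      simp [lineDeriv]
    simp [h0, image_eq_zero_of_notMem_tsupport hmem]

end Pool.Agent.Helper1.CK
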