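import Pool.Agent.Helper1.CK.Defs

/-!
# Project CK (helper1), module LocLip
General facts on Lipschitz functions with compact support.
-/

set_option autoImplicit false

open MeasureTheory Set Filter Topology Metric
open scoped RealInnerProductSpace ENNReal NNReal

namespace Pool.Agent.Helper1.CK

/-- a locally Lipschitz function with compact support is Lipschitz -/
theorem lip_of_local {f : E3 → ℝ} (hc : HasCompactSupport f) (hl : LocallyLipschitz f) :
    ∃ C, LipschitzWith C f := by
  obtain ⟨M, hM⟩ := hl.continuous.bounded_above_of_compact_support hc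
  obtain ⟨R, hR⟩ := hc.isCompact.isBounded.subset_closedBall (0 : E3)
  obtain ⟨K, hK⟩ := (hl.locallyLipschitzOn (s := closedBall (0 : E3) (R + 1))
    ).exists_lipschitzOnWith_of_compact (isCompact_closedBall _ _)
  have hM0 : 0 ≤ M := (norm_nonneg _).trans (hM 0)
  have hz : ∀ x, x ∉ closedBall (0 : E3) R → f x = 0 := fun x hx =>
    image_eq_zero_of_notMem_tsupport fun h => hx (hR h)
  refine ⟨K + Real.toNNReal M, LipschitzWith.of_dist_le_mul fun x y => ?_⟩
  have hC : ((K + Real.toNNReal M : ℝ≥0) : ℝ) = K + M := by
    rw [NNReal.coe_add, Real.coe_toNNReal _ hM0]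
  rw [hC]
  -- the asymmetric case
  have key : ∀ x y : E3, x ∈ closedBall (0 : E3) (R + 1) → y ∉ closedBall (0 : E3) (R + 1) →
      dist (f x) (f y) ≤ (K + M) * dist x y := by
    intro x y hx hy
    have hy0 : f y = 0 := hz y fun h => hy (closedBall_subset_closedBall (by linarith) h)
    by_cases hxR : x ∈ closedBall (0 : E3) R
    · have h1 : 1 ≤ dist x y := by
        rw [mem_closedBall, dist_zero_right] at hxR hy
        rw [dist_comm, dist_eq_norm]
        have := norm_sub_norm_le y x
        linarith
      rw [hy0, dist_zero_right]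
      calc ‖f x‖ ≤ M * 1 := by rw [mul_one]; exact hM x
        _ ≤ (K + M) * dist x y := by
          have hK0 : (0 : ℝ) ≤ K := K.2
          gcongr
          linarith
    · rw [hz x hxR, hy0, dist_self]
      have hK0 : (0 : ℝ) ≤ K := K.2
      positivity
  by_cases hx : x ∈ closedBall (0 : E3) (R + 1)
  · by_cases hy : y ∈ closedBall (0 : E3) (R + 1)
    · have h1 := hK.dist_le_mul x hx y hy
      have h2 : 0 ≤ M * dist x y := by positivity
      linarith
    · exact key x y hx hy
  · by_cases hy : y ∈ closedBall (0 : E3) (R + 1)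
    · rw [dist_comm (f x), dist_comm x]
      exact key y x hy hx
    · have hx0 : f x = 0 := hz x fun h => hx (closedBall_subset_closedBall (by linarith) h)
      have hy0 : f y = 0 := hz y fun h => hy (closedBall_subset_closedBall (by linarith) h)
      rw [hx0, hy0, dist_self]
      have hK0 : (0 : ℝ) ≤ K := K.2
      positivity

/-- the integral of a derivative of a compactly supported Lipschitz function vanishes -/
theorem integral_lineDeriv_zero {f : E3 → ℝ} {C : ℝ≥0} (hc : HasCompactSupport f)
    (hl : LipschitzWith C f) (v : E3) : ∫ x, lineDeriv ℝ f x v = 0 := by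
  have h1 := LipschitzWith.integral_lineDeriv_mul_eq (μ := (volume : Measure E3))
    (LipschitzWith.const (1 : ℝ)) hl hc (-v)
  have h2 : ∀ x : E3, lineDeriv ℝ (fun _ : E3 => (1 : ℝ)) x (-v) = 0 := by
    intro x
    rw [lineDeriv]
    simp
  simp only [h2, zero_mul, integral_zero, neg_neg, mul_one] at h1
  exact h1.symm

theorem integrable_lineDeriv {f : E3 → ℝ} {C : ℝ≥0} (hc : HasCompactSupport f)
    (hl : LipschitzWith C f) (v : E3) : Integrable (fun x => lineDeriv ℝ f x v) := by
  have h1 : IntegrableOn (fun x => lineDeriv ℝ f x v) (tsupport f) volume :=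
    (hl.locallyIntegrable_lineDeriv v).integrableOn_isCompact hc.isCompact
  refine (integrableOn_iff_integrable_of_support_subset ?_).1 h1
  intro x hx
  by_contra hcon
  apply hx
  have h2 : f =ᶠ[𝓝 x] fun _ => (0 : ℝ) := by
    have h3 : (tsupport f)ᶜ ∈ 𝓝 x := (isClosed_tsupport f).isOpen_compl.mem_nhds hcon
    filter_upwards [h3] with y hy
    exact image_eq_zero_of_notMem_tsupport hy
  change lineDeriv ℝ f x v = 0
  rw [h2.lineDeriv_eq, lineDeriv]
  simp

end Pool.Agent.Helper1.CK
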