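import Pool.Agent.Helper1.CK.Basic

/-!
# Project CK (helper1), module WLip
The vector field W is Lipschitz with compact support.
-/

set_option autoImplicit false

open MeasureTheory Set Filter Topology Metric
open scoped RealInnerProductSpace ENNReal NNReal

namespace Pool.Agent.Helper1.CK

theorem W_support {K : Set E3} (hK : Good K) {φ : ℝ → ℝ} {δ ε : ℝ} (hφ : Adm φ δ ε) (hδ : 0 ≤ δ)
    {z : E3} (hz : infDist z K ≤ δ) (τ : ℝ) (i : Fin 3) :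
    HasCompactSupport (fun x => W K φ τ z x i) := by
  have _ := hδ
  have _ := hz
  refine HasCompactSupport.intro (K := cthickening ε K) hK.cpt.cthickening ?_
  intro x hx
  have h0 : φ (infDist x K) = 0 := by
    by_contra hne
    have h1 : infDist x K ∈ Ioo δ ε := hφ.supp (subset_tsupport φ hne)
    apply hx
    refine mem_cthickening_of_dist_le x (P K x) ε K (P_mem hK x) ?_
    rw [dist_eq_norm, ← infDist_eq hK x]
    exact h1.2.le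
  simp [W, h0]

/-- the vector field as a function of the point and its nearest point -/
private noncomputable def GG (φ : ℝ → ℝ) (τ : ℝ) (z : E3) (q : E3 × E3) : E3 :=
  (φ ‖q.1 - q.2‖ * ((‖q.1 - z‖ - τ) ^ 2 / ‖q.1 - z‖) /
    (‖q.1 - z‖ + ⟪q.1 - z, ‖q.1 - q.2‖⁻¹ • (q.1 - q.2)⟫)) •
    ((q.1 - z) - ⟪q.1 - z, ‖q.1 - q.2‖⁻¹ • (q.1 - q.2)⟫ • (‖q.1 - q.2‖⁻¹ • (q.1 - q.2)))

private theorem W_eq_GG {K : Set E3} (hK : Good K) (φ : ℝ → ℝ) (τ : ℝ) (z x : E3) :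
    W K φ τ z x = GG φ τ z (x, P K x) := by
  unfold W GG ss nn psi
  rw [infDist_eq hK x]

private theorem GG_contDiffAt {φ : ℝ → ℝ} (hφ : ContDiff ℝ 1 φ) (τ : ℝ) (z : E3) (q0 : E3 × E3)
    (h1 : q0.1 - q0.2 ≠ 0) (h2 : q0.1 - z ≠ 0)
    (h3 : ‖q0.1 - z‖ + ⟪q0.1 - z, ‖q0.1 - q0.2‖⁻¹ • (q0.1 - q0.2)⟫ ≠ 0) :
    ContDiffAt ℝ 1 (GG φ τ z) q0 := by
  have a1 : ContDiffAt ℝ 1 (fun q : E3 × E3 => q.1 - q.2) q0 :=
    contDiffAt_fst.sub contDiffAt_snd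
  have a2 : ContDiffAt ℝ 1 (fun q : E3 × E3 => ‖q.1 - q.2‖) q0 := a1.norm ℝ h1
  have a3 : ContDiffAt ℝ 1 (fun q : E3 × E3 => φ ‖q.1 - q.2‖) q0 :=
    hφ.contDiffAt.comp q0 a2
  have a4 : ContDiffAt ℝ 1 (fun q : E3 × E3 => q.1 - z) q0 :=
    contDiffAt_fst.sub contDiffAt_const
  have a5 : ContDiffAt ℝ 1 (fun q : E3 × E3 => ‖q.1 - z‖) q0 := a4.norm ℝ h2
  have a6 : ContDiffAt ℝ 1 (fun q : E3 × E3 => ‖q.1 - q.2‖⁻¹ • (q.1 - q.2)) q0 :=
    (a2.inv (norm_ne_zero_iff.mpr h1)).smul a1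
  have a7 : ContDiffAt ℝ 1 (fun q : E3 × E3 => ⟪q.1 - z, ‖q.1 - q.2‖⁻¹ • (q.1 - q.2)⟫) q0 :=
    a4.inner ℝ a6
  have a8 : ContDiffAt ℝ 1 (fun q : E3 × E3 => (‖q.1 - z‖ - τ) ^ 2 / ‖q.1 - z‖) q0 :=
    ((a5.sub contDiffAt_const).pow 2).div a5 (norm_ne_zero_iff.mpr h2)
  have a9 : ContDiffAt ℝ 1 (fun q : E3 × E3 => φ ‖q.1 - q.2‖ *
      ((‖q.1 - z‖ - τ) ^ 2 / ‖q.1 - z‖) /
      (‖q.1 - z‖ + ⟪q.1 - z, ‖q.1 - q.2‖⁻¹ • (q.1 - q.2)⟫)) q0 :=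
    (a3.mul a8).div (a5.add a7) h3
  exact a9.smul (a4.sub (a7.smul a6))

theorem W_locLip {K : Set E3} (hK : Good K) {φ : ℝ → ℝ} {δ ε : ℝ} (hφ : Adm φ δ ε) (hδ : 0 ≤ δ)
    {z : E3} (hz : infDist z K ≤ δ) (τ : ℝ) (i : Fin 3) :
    LocallyLipschitz (fun x => W K φ τ z x i) := by
  intro x0
  by_cases hx : infDist x0 K ∈ tsupport φ
  · have h1 : infDist x0 K ∈ Ioo δ ε := hφ.supp hx
    have hd0 : 0 < infDist x0 K := lt_of_le_of_lt hδ h1.1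
    have hs : 0 < ss K z x0 := by
      have := ss_ge hK hd0 z
      have := h1.1
      linarith
    have ht : 0 < ‖x0 - z‖ := lt_of_lt_of_le hs (ss_le hK hd0 z)
    have b1 : x0 - P K x0 ≠ 0 := by
      rw [← norm_pos_iff, ← infDist_eq hK x0]; exact hd0
    have b2 : x0 - z ≠ 0 := norm_pos_iff.mp ht
    have b3 : ‖x0 - z‖ + ⟪x0 - z, ‖x0 - P K x0‖⁻¹ • (x0 - P K x0)⟫ ≠ 0 := by
      have : ss K z x0 = ⟪x0 - z, ‖x0 - P K x0‖⁻¹ • (x0 - P K x0)⟫ := by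
        unfold ss nn
        rw [infDist_eq hK x0]
      rw [← this]
      positivity
    have c1 : ContDiffAt ℝ 1 (GG φ τ z) (x0, P K x0) :=
      GG_contDiffAt hφ.smooth τ z (x0, P K x0) b1 b2 b3
    have c2 : ContDiffAt ℝ 1 (fun q => (EuclideanSpace.proj i : E3 →L[ℝ] ℝ) (GG φ τ z q))
        (x0, P K x0) :=
      (EuclideanSpace.proj i : E3 →L[ℝ] ℝ).contDiff.contDiffAt.comp (x0, P K x0) c1
    obtain ⟨C, s, hs, hL⟩ := c2.exists_lipschitzOnWith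
    have hlip : LipschitzWith (max 1 1) (fun x : E3 => (x, P K x)) :=
      LipschitzWith.id.prodMk (P_lip hK)
    refine ⟨C * max 1 1, (fun x : E3 => (x, P K x)) ⁻¹' s,
      hlip.continuous.continuousAt.preimage_mem_nhds hs, ?_⟩
    have hcomp := hL.comp (hlip.lipschitzOnWith (s := (fun x : E3 => (x, P K x)) ⁻¹' s))
      (fun x hx => hx)
    have he : (fun x => W K φ τ z x i) =
        (fun q => (EuclideanSpace.proj i : E3 →L[ℝ] ℝ) (GG φ τ z q)) ∘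
          fun x : E3 => (x, P K x) := by
      funext x
      simp only [Function.comp]
      rw [W_eq_GG hK]
      rfl
    rw [he]
    exact hcomp
  · have h1 : ∀ᶠ h in 𝓝 (infDist x0 K), φ h = 0 :=
      notMem_tsupport_iff_eventuallyEq.mp hx
    have h2 : ∀ᶠ x in 𝓝 x0, φ (infDist x K) = 0 :=
      (continuous_infDist_pt K).continuousAt.eventually h1
    refine ⟨0, {x | φ (infDist x K) = 0}, h2, ?_⟩
    intro x hx y hy
    have hx' : φ (infDist x K) = 0 := hx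
    have hy' : φ (infDist y K) = 0 := hy
    simp [W, hx', hy']

end Pool.Agent.Helper1.CK
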