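import Pool.Agent.Helper1.CK.DivAe
import Pool.Agent.Helper1.CK.WLip
import Pool.Agent.Helper1.CK.LocLip
import Pool.Agent.Helper1.CK.Cont

/-!
# Project CK (helper1), module DivInt
The integrated divergence inequality.
-/

set_option autoImplicit false

open MeasureTheory Set Filter Topology Metric
open scoped RealInnerProductSpace ENNReal NNReal

namespace Pool.Agent.Helper1.CK

theorem div_int {K : Set E3} (hK : Good K) {φ : ℝ → ℝ} {δ ε : ℝ} (hφ : Adm φ δ ε) (hδ : 0 ≤ δ)
    {z : E3} (hz : infDist z K ≤ δ) (τ : ℝ) :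
    0 ≤ ∫ x, φ (infDist x K) * (2 - 2 * τ / ‖x - z‖ - ss K z x / ‖x - z‖
          + τ ^ 2 * ss K z x / ‖x - z‖ ^ 3) := by
  have hint : Integrable (fun x => φ (infDist x K) * (2 - 2 * τ / ‖x - z‖ - ss K z x / ‖x - z‖
          + τ ^ 2 * ss K z x / ‖x - z‖ ^ 3)) := by
    have h0 := (integrable_weight hK hφ hδ hz 0 0).const_mul 2
    have h1 := (integrable_weight hK hφ hδ hz 0 1).const_mul (2 * τ)
    have h2 := integrable_weight hK hφ hδ hz 1 1
    have h3 := (integrable_weight hK hφ hδ hz 1 3).const_mul (τ ^ 2)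
    have h := ((h0.sub h1).sub h2).add h3
    refine h.congr (Eventually.of_forall fun x => ?_)
    simp only [Pi.add_apply, Pi.sub_apply, pow_zero, pow_one]
    ring
  have hlip : ∀ i : Fin 3, ∃ C, LipschitzWith C (fun x => W K φ τ z x i) := fun i =>
    lip_of_local (W_support hK hφ hδ hz τ i) (W_locLip hK hφ hδ hz τ i)
  choose C hC using hlip
  have hi : ∀ i ∈ (Finset.univ : Finset (Fin 3)), Integrable (fun x =>
      lineDeriv ℝ (fun w => W K φ τ z w i) x (EuclideanSpace.single i (1 : ℝ))) := fun i _ =>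
    integrable_lineDeriv (W_support hK hφ hδ hz τ i) (hC i) _
  have hzero : ∫ x, ∑ i : Fin 3, lineDeriv ℝ (fun w => W K φ τ z w i) x
      (EuclideanSpace.single i (1 : ℝ)) = 0 := by
    rw [integral_finsetSum _ hi]
    exact Finset.sum_eq_zero fun i _ =>
      integral_lineDeriv_zero (W_support hK hφ hδ hz τ i) (hC i) _
  rw [← hzero]
  exact integral_mono_ae (integrable_finsetSum _ hi) hint (div_ae hK hφ hδ hz τ)

end Pool.Agent.Helper1.CK
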