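import Pool.Agent.Helper1.CK.Field

/-!
# Project CK (helper1), module Dual
Duality between the Dirichlet integral and the energy.
-/

set_option autoImplicit false

open MeasureTheory Set Filter Topology Metric
open scoped RealInnerProductSpace ENNReal NNReal

namespace Pool.Agent.Helper1.CK

theorem dual {A : Set E3} (hA : MeasurableSet A) (hb : Bornology.IsBounded A) {u : E3 → ℝ}
    (hu : ContDiff ℝ 1 u) (hc : HasCompactSupport u) :
    4 * Real.pi * (∫ x in A, u x) ^ 2 ≤ (∫ x, ‖fderiv ℝ u x‖ ^ 2) * (En A).toReal := by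
  have hp := pairing hA hb hu hc
  obtain ⟨hi, hsq⟩ := VA_sq hA hb
  have hfc : Continuous (fun y => ‖fderiv ℝ u y‖) := (hu.continuous_fderiv (by norm_num)).norm
  have hfs : HasCompactSupport (fun y => ‖fderiv ℝ u y‖) := (hc.fderiv (𝕜 := ℝ)).norm
  have hf2 : MemLp (fun y => ‖fderiv ℝ u y‖) (ENNReal.ofReal 2) := by
    exact hfc.memLp_of_hasCompactSupport hfs
  have hgm : AEStronglyMeasurable (fun y => ‖VA A y‖) volume :=
    (VA_measurable hA).norm.aestronglyMeasurable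
  have hg2' : MemLp (fun y => ‖VA A y‖) 2 := (memLp_two_iff_integrable_sq hgm).2 hi
  have hg2 : MemLp (fun y => ‖VA A y‖) (ENNReal.ofReal 2) := by
    simpa using hg2'
  have hH : (∫ y, ‖fderiv ℝ u y‖ * ‖VA A y‖)
      ≤ (∫ y, ‖fderiv ℝ u y‖ ^ (2 : ℝ)) ^ (1 / (2 : ℝ)) * (∫ y, ‖VA A y‖ ^ (2 : ℝ)) ^ (1 / (2 : ℝ)) :=
    integral_mul_le_Lp_mul_Lq_of_nonneg Real.HolderConjugate.two_two
      (Filter.Eventually.of_forall fun y => norm_nonneg _)
      (Filter.Eventually.of_forall fun y => norm_nonneg _) hf2 hg2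
  simp only [Real.rpow_two] at hH
  have h1 : |4 * Real.pi * ∫ x in A, u x| ≤ ∫ y, ‖fderiv ℝ u y‖ * ‖VA A y‖ := by
    rw [hp]
    calc |∫ y, fderiv ℝ u y (VA A y)| ≤ ∫ y, |fderiv ℝ u y (VA A y)| := abs_integral_le_integral_abs
      _ ≤ ∫ y, ‖fderiv ℝ u y‖ * ‖VA A y‖ := by
          refine integral_mono_of_nonneg (Filter.Eventually.of_forall fun y => abs_nonneg _) ?_
            (Filter.Eventually.of_forall fun y => ?_)
          · have h22 : (ENNReal.ofReal 2) = 2 := by norm_num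
            rw [h22] at hf2 hg2
            exact hf2.integrable_mul hg2
          · simpa using (fderiv ℝ u y).le_opNorm (VA A y)
  have hF0 : 0 ≤ ∫ y, ‖fderiv ℝ u y‖ ^ 2 := integral_nonneg fun y => sq_nonneg _
  have hG0 : 0 ≤ ∫ y, ‖VA A y‖ ^ 2 := integral_nonneg fun y => sq_nonneg _
  have h2 : (4 * Real.pi * ∫ x in A, u x) ^ 2 ≤ (∫ y, ‖fderiv ℝ u y‖ ^ 2) * (∫ y, ‖VA A y‖ ^ 2) := by
    rw [← sq_abs]
    have h3 : |4 * Real.pi * ∫ x in A, u x|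
        ≤ (∫ y, ‖fderiv ℝ u y‖ ^ 2) ^ (1 / (2 : ℝ)) * (∫ y, ‖VA A y‖ ^ 2) ^ (1 / (2 : ℝ)) :=
      h1.trans hH
    rw [← Real.sqrt_eq_rpow, ← Real.sqrt_eq_rpow] at h3
    calc |4 * Real.pi * ∫ x in A, u x| ^ 2
        ≤ (√(∫ y, ‖fderiv ℝ u y‖ ^ 2) * √(∫ y, ‖VA A y‖ ^ 2)) ^ 2 :=
          pow_le_pow_left₀ (abs_nonneg _) h3 2
      _ = (∫ y, ‖fderiv ℝ u y‖ ^ 2) * (∫ y, ‖VA A y‖ ^ 2) := by
          rw [mul_pow, Real.sq_sqrt hF0, Real.sq_sqrt hG0]
  rw [hsq] at h2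
  have hpi : 0 < 4 * Real.pi := by positivity
  have h4 : (4 * Real.pi) * (4 * Real.pi * (∫ x in A, u x) ^ 2)
      ≤ (4 * Real.pi) * ((∫ x, ‖fderiv ℝ u x‖ ^ 2) * (En A).toReal) := by
    calc (4 * Real.pi) * (4 * Real.pi * (∫ x in A, u x) ^ 2)
        = (4 * Real.pi * ∫ x in A, u x) ^ 2 := by ring
      _ ≤ _ := h2
      _ = _ := by ring
  exact le_of_mul_le_mul_left h4 hpi

end Pool.Agent.Helper1.CK
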