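import Pool.Agent.Helper1.CK.Basic

/-!
# Project CK (helper1), module Level
Level sets of the distance are null; volumes of shells.
-/

set_option autoImplicit false

open MeasureTheory Set Filter Topology Metric
open scoped RealInnerProductSpace ENNReal NNReal

namespace Pool.Agent.Helper1.CK

private theorem mem_cth {K : Set E3} (hK : Good K) {ε : ℝ} (hε : 0 ≤ ε) (x : E3) :
    x ∈ cthickening ε K ↔ infDist x K ≤ ε := by
  rw [mem_cthickening_iff, infDist,
    ENNReal.le_ofReal_iff_toReal_le (infEDist_ne_top hK.ne) hε]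

private theorem mem_K {K : Set E3} (hK : Good K) (x : E3) : x ∈ K ↔ infDist x K = 0 :=
  hK.cpt.isClosed.mem_iff_infDist_zero hK.ne

theorem level_null {K : Set E3} (hK : Good K) {c : ℝ} (hc : 0 < c) :
    volume {x | infDist x K = c} = 0 := by
  refine measure_mono_null ?_ ((hK.cvx.cthickening c).addHaar_frontier volume)
  intro x hx
  have hx' : infDist x K = c := hx
  have hx0 : 0 < infDist x K := by rw [hx']; exact hc
  rw [frontier_eq_closure_inter_closure]
  refine ⟨subset_closure ((mem_cth hK hc.le x).2 hx'.le), ?_⟩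
  have ht : Tendsto (fun r : ℝ => x + r • nn K x) (𝓝[>] (0 : ℝ)) (𝓝 x) := by
    have h1 : Continuous (fun r : ℝ => x + r • nn K x) := by fun_prop
    have h2 := h1.tendsto 0
    rw [zero_smul, add_zero] at h2
    exact h2.mono_left nhdsWithin_le_nhds
  refine mem_closure_of_tendsto ht ?_
  filter_upwards [self_mem_nhdsWithin] with r hr
  have hr' : (0 : ℝ) < r := hr
  rw [mem_compl_iff, mem_cth hK hc.le, infDist_ray hK hx0 (by linarith), hx']
  linarith

theorem measurable_Sh (K : Set E3) (ε : ℝ) : MeasurableSet (Sh K ε) := by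
  have h : Sh K ε = (fun x => infDist x K) ⁻¹' (Ioo 0 ε) := rfl
  rw [h]
  exact (continuous_infDist_pt K).measurable measurableSet_Ioo

theorem isBounded_Sh {K : Set E3} (hK : Good K) (ε : ℝ) : Bornology.IsBounded (Sh K ε) := by
  refine (hK.cpt.isBounded.thickening (δ := ε)).subset fun x hx => ?_
  rw [mem_thickening_iff_infDist_lt hK.ne]
  exact hx.2

theorem volume_Sh {K : Set E3} (hK : Good K) {ε : ℝ} (hε : 0 < ε) :
    (volume (Sh K ε)).toReal = (volume (cthickening ε K)).toReal - (volume K).toReal := by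
  have hsub : K ⊆ cthickening ε K := fun x hx =>
    (mem_cth hK hε.le x).2 (by rw [(mem_K hK x).1 hx]; exact hε.le)
  have hfin : volume (cthickening ε K) ≠ ⊤ :=
    (hK.cpt.isBounded.cthickening (δ := ε)).measure_lt_top.ne
  have hKfin : volume K ≠ ⊤ := hK.cpt.measure_lt_top.ne
  have hdiff : volume (cthickening ε K \ K) = volume (cthickening ε K) - volume K :=
    measure_sdiff hsub hK.cpt.measurableSet.nullMeasurableSet hKfin
  have hset : cthickening ε K \ K = Sh K ε ∪ {x | infDist x K = ε} := by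
    ext x
    rw [Set.mem_sdiff, mem_cth hK hε.le, mem_K hK]
    have h0 : 0 ≤ infDist x K := infDist_nonneg
    constructor
    · rintro ⟨h1, h2⟩
      rcases h1.lt_or_eq with h | h
      · exact Or.inl ⟨lt_of_le_of_ne h0 (Ne.symm h2), h⟩
      · exact Or.inr h
    · rintro (h | h)
      · exact ⟨h.2.le, h.1.ne'⟩
      · have h' : infDist x K = ε := h
        exact ⟨h'.le, by rw [h']; exact hε.ne'⟩
  have hvol : volume (Sh K ε) = volume (cthickening ε K) - volume K := by
    rw [← hdiff, hset]
    refine le_antisymm (measure_mono subset_union_left) ?_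
    refine (measure_union_le _ _).trans ?_
    rw [level_null hK hε, add_zero]
  rw [hvol, ENNReal.toReal_sub_of_le (measure_mono hsub) hfin]

/-- volumes of thin shells are asymptotic to `S ε` -/
theorem volume_Sh_asymp {K : Set E3} (hK : Good K) {S : ℝ} (hS : Content K S) {η : ℝ}
    (hη : 0 < η) : ∃ ε0 > 0, ∀ ε, 0 < ε → ε < ε0 →
      (S - η) * ε ≤ (volume (Sh K ε)).toReal ∧ (volume (Sh K ε)).toReal ≤ (S + η) * ε := by
  have h1 := (Metric.tendsto_nhds.1 hS) η hη
  obtain ⟨u, hu, hsub⟩ := mem_nhdsGT_iff_exists_Ioo_subset.1 h1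
  refine ⟨u, hu, fun ε h0 h2 => ?_⟩
  have h3 : dist (((volume (cthickening ε K)).toReal - (volume K).toReal) / ε) S < η :=
    hsub ⟨h0, h2⟩
  rw [← volume_Sh hK h0, Real.dist_eq, abs_lt] at h3
  obtain ⟨h4, h5⟩ := h3
  constructor
  · rw [← le_div_iff₀ h0]
    linarith
  · rw [← div_le_iff₀ h0]
    linarith

end Pool.Agent.Helper1.CK
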