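import Pool.Agent.Helper1.CK.MainSet
import Pool.Agent.Helper1.CK.Level

/-!
# Project CK (helper1), module Energy
The energy of a shell.
-/

set_option autoImplicit false

open MeasureTheory Set Filter Topology Metric
open scoped RealInnerProductSpace ENNReal NNReal

namespace Pool.Agent.Helper1.CK

private lemma energy_gen {α : Type*} [MeasurableSpace α] {μ : Measure α} [SFinite μ]
    {d : α → ℝ} (hd : Measurable d) {B : Set α} (hB : MeasurableSet B)
    (hnull : ∀ x ∈ B, μ {y | d y = d x} = 0) (g : α → α → ℝ≥0∞)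
    (hg : Measurable (Function.uncurry g)) (hs : ∀ x y, g x y = g y x) :
    ∫⁻ x in B, ∫⁻ y in B, g x y ∂μ ∂μ =
      2 * ∫⁻ x in B, ∫⁻ y in {y | d x < d y} ∩ B, g x y ∂μ ∂μ := by
  obtain ⟨h, hh⟩ : ∃ h : α → α → ℝ≥0∞, ∀ x y, h x y =
      {p : α × α | d p.1 < d p.2}.indicator (Function.uncurry g) (x, y) :=
    ⟨_, fun _ _ => rfl⟩
  have hT : MeasurableSet {p : α × α | d p.1 < d p.2} :=
    measurableSet_lt (hd.comp measurable_fst) (hd.comp measurable_snd)
  have hhm : Measurable (Function.uncurry h) := by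
    have h0 : Function.uncurry h =
        {p : α × α | d p.1 < d p.2}.indicator (Function.uncurry g) := by
      funext p
      obtain ⟨x, y⟩ := p
      exact hh x y
    rw [h0]
    exact hg.indicator hT
  have hp : ∀ x y, d x < d y → h x y = g x y := fun x y hxy => by
    rw [hh, indicator_of_mem]
    · rfl
    · exact hxy
  have hn : ∀ x y, ¬ d x < d y → h x y = 0 := fun x y hxy => by
    rw [hh, indicator_of_notMem]
    exact hxy
  have hhm' : Measurable (Function.uncurry fun x y => h y x) := by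
    have h0 : (Function.uncurry fun x y => h y x) = Function.uncurry h ∘ Prod.swap := by
      funext p
      obtain ⟨x, y⟩ := p
      rfl
    rw [h0]
    exact hhm.comp measurable_swap
  have h1 : ∀ x ∈ B, ∫⁻ y in B, g x y ∂μ =
      (∫⁻ y in B, h x y ∂μ) + ∫⁻ y in B, h y x ∂μ := by
    intro x hx
    have h8 : Measurable (fun y => h x y) := hhm.comp measurable_prodMk_left
    rw [← lintegral_add_left h8]
    refine lintegral_congr_ae ?_
    have h2 : ∀ᵐ y ∂(μ.restrict B), d y ≠ d x := by
      refine ae_restrict_of_ae ?_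
      rw [ae_iff]
      simp only [not_not]
      exact hnull x hx
    filter_upwards [h2] with y hy
    rcases lt_or_gt_of_ne hy with h3 | h3
    · rw [hn x y (not_lt.2 h3.le), hp y x h3, zero_add, hs]
    · rw [hp x y h3, hn y x (not_lt.2 h3.le), add_zero]
  have h4 : ∫⁻ x in B, ∫⁻ y in B, g x y ∂μ ∂μ =
      (∫⁻ x in B, ∫⁻ y in B, h x y ∂μ ∂μ) + ∫⁻ x in B, ∫⁻ y in B, h y x ∂μ ∂μ := by
    rw [setLIntegral_congr_fun hB h1]
    exact lintegral_add_left hhm.lintegral_prod_right' _
  have h5 : ∫⁻ x in B, ∫⁻ y in B, h y x ∂μ ∂μ = ∫⁻ x in B, ∫⁻ y in B, h x y ∂μ ∂μ :=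
    lintegral_lintegral_swap hhm'.aemeasurable
  have h6 : ∀ x ∈ B, ∫⁻ y in B, h x y ∂μ = ∫⁻ y in {y | d x < d y} ∩ B, g x y ∂μ := by
    intro x hx
    have hm : MeasurableSet {y : α | d x < d y} := measurableSet_lt measurable_const hd
    have h7 : (fun y => h x y) = {y : α | d x < d y}.indicator (g x) := by
      funext y
      by_cases hy : d x < d y
      · rw [hp x y hy, indicator_of_mem]
        exact hy
      · rw [hn x y hy, indicator_of_notMem]
        exact hy
    rw [h7, lintegral_indicator hm, Measure.restrict_restrict hm]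
  rw [h4, h5, setLIntegral_congr_fun hB h6, two_mul]

private lemma energy_sym {K : Set E3} (hK : Good K) {ε : ℝ} (g : E3 → E3 → ℝ≥0∞)
    (hg : Measurable (Function.uncurry g)) (hs : ∀ x y, g x y = g y x) :
    ∫⁻ x in Sh K ε, ∫⁻ y in Sh K ε, g x y =
      2 * ∫⁻ x in Sh K ε, ∫⁻ y in {y | infDist x K < infDist y K ∧ infDist y K < ε}, g x y := by
  rw [energy_gen (continuous_infDist_pt K).measurable (measurable_Sh K ε)
    (fun x hx => level_null hK hx.1) g hg hs]
  congr 1
  refine setLIntegral_congr_fun (measurable_Sh K ε) fun x hx => ?_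
  have h1 : {y | infDist x K < infDist y K} ∩ Sh K ε =
      {y | infDist x K < infDist y K ∧ infDist y K < ε} := by
    ext y
    constructor
    · rintro ⟨ha, -, hb⟩
      exact ⟨ha, hb⟩
    · rintro ⟨ha, hb⟩
      exact ⟨ha, lt_trans hx.1 ha, hb⟩
  rw [h1]

theorem energy_shell {K : Set E3} (hK : Good K) {ε τ : ℝ} (hτ : 0 < τ) :
    En (Sh K ε) ≤ ENNReal.ofReal (1 / τ) * volume (Sh K ε) ^ 2
      + ENNReal.ofReal (4 * Real.pi * τ) *
        ∫⁻ z in Sh K ε, ENNReal.ofReal (ε - infDist z K) := by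
  have hd : Measurable fun x : E3 => infDist x K := (continuous_infDist_pt K).measurable
  have hB : MeasurableSet (Sh K ε) := measurable_Sh K ε
  have e1 : En (Sh K ε) = 2 * ∫⁻ z in Sh K ε,
      ∫⁻ x in {x | infDist z K < infDist x K ∧ infDist x K < ε}, (edist z x)⁻¹ := by
    rw [En]
    exact energy_sym hK (fun x y => (edist x y)⁻¹)
      (measurable_edist.inv) (fun x y => by rw [edist_comm])
  have e2 : volume (Sh K ε) ^ 2 = 2 * ∫⁻ z in Sh K ε,
      volume {x : E3 | infDist z K < infDist x K ∧ infDist x K < ε} := by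
    have := energy_sym hK (ε := ε) (fun _ _ => 1) measurable_const (fun _ _ => rfl)
    simp only [lintegral_const, one_mul, Measure.restrict_apply_univ] at this
    rw [← this, sq]
  have e3 : ∀ z ∈ Sh K ε,
      ∫⁻ x in {x | infDist z K < infDist x K ∧ infDist x K < ε}, (edist z x)⁻¹ ≤
      ENNReal.ofReal (1 / τ) * volume {x : E3 | infDist z K < infDist x K ∧ infDist x K < ε}
        + ENNReal.ofReal (2 * Real.pi * τ) * ENNReal.ofReal (ε - infDist z K) := by
    intro z hz
    have := main_set hK hτ hz.2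
    rw [ENNReal.ofReal_mul (by positivity)] at this
    refine le_trans (le_of_eq ?_) this
    refine lintegral_congr fun x => ?_
    rw [edist_comm]
  have e4 : ∫⁻ z in Sh K ε,
      ∫⁻ x in {x | infDist z K < infDist x K ∧ infDist x K < ε}, (edist z x)⁻¹ ≤
      ENNReal.ofReal (1 / τ) * (∫⁻ z in Sh K ε,
        volume {x : E3 | infDist z K < infDist x K ∧ infDist x K < ε})
        + ENNReal.ofReal (2 * Real.pi * τ) * ∫⁻ z in Sh K ε, ENNReal.ofReal (ε - infDist z K) := by
    rw [← lintegral_const_mul' _ _ ENNReal.ofReal_ne_top,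
      ← lintegral_const_mul' _ _ ENNReal.ofReal_ne_top, ← lintegral_add_right]
    · exact setLIntegral_mono' hB e3
    · exact (ENNReal.measurable_ofReal.comp (measurable_const.sub hd)).const_mul _
  rw [e1, e2]
  refine (mul_le_mul_right e4 2).trans (le_of_eq ?_)
  have e5 : ENNReal.ofReal (4 * Real.pi * τ) = 2 * ENNReal.ofReal (2 * Real.pi * τ) := by
    rw [show (4 * Real.pi * τ : ℝ) = 2 * (2 * Real.pi * τ) by ring,
      ENNReal.ofReal_mul (by norm_num)]
    simp
  rw [e5]
  ring

end Pool.Agent.Helper1.CK
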