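import Pool.Agent.Helper1.CK.Gauss
set_option autoImplicit false
open Complex MeasureTheory Set Metric Filter
open scoped Real Topology ComplexConjugate

/-! Project CK: first variation of `J = ∫ |g|^(-k) W` with a remainder `O(t^2)`. -/

namespace Pool.Agent.Helper1.CK

/-- the constant of the quadratic remainder -/
noncomputable def Ck (k : ℝ) : ℝ := k + 9 / 4 * k ^ 2 * Real.exp k

theorem Ck_nonneg {k : ℝ} (hk : 0 ≤ k) : 0 ≤ Ck k := by unfold Ck; positivity

theorem norm_rpow_expand {k : ℝ} (hk : 0 ≤ k) {r : ℂ} (hr : ‖r‖ ≤ 1 / 2) :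
    |‖1 + r‖ ^ (-k) - 1 + k * r.re| ≤ Ck k * ‖r‖ ^ 2 := by
  have hr1 : ‖r‖ < 1 := by linarith
  have h1 : 1 + r ≠ 0 := by
    intro h
    have : r = -1 := by linear_combination h
    rw [this] at hr1; simp at hr1
  have hn : 0 < ‖1 + r‖ := norm_pos_iff.2 h1
  have hlog : ‖Complex.log (1 + r) - r‖ ≤ ‖r‖ ^ 2 := by
    refine (Complex.norm_log_one_add_sub_self_le hr1).trans ?_
    have : (1 - ‖r‖)⁻¹ ≤ 2 := by
      rw [inv_le_comm₀ (by linarith) (by norm_num)]; linarith
    have h2 : 0 ≤ ‖r‖ ^ 2 := by positivity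
    nlinarith
  set l := Complex.log (1 + r) with hl
  have hre : l.re = Real.log ‖1 + r‖ := Complex.log_re _
  have hd : |l.re - r.re| ≤ ‖r‖ ^ 2 := by
    have := (Complex.abs_re_le_norm (l - r)).trans hlog
    simpa using this
  set x : ℝ := -k * l.re with hx
  have hpow : ‖1 + r‖ ^ (-k) = Real.exp x := by
    rw [Real.rpow_def_of_pos hn, ← hre, hx]; ring_nf
  have hxb : |x| ≤ 3 / 2 * k * ‖r‖ := by
    have h3 : |l.re| ≤ ‖r‖ + ‖r‖ ^ 2 := by
      have := abs_re_le_norm r
      have h4 : |l.re| ≤ |l.re - r.re| + |r.re| := by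
        have := abs_add_le (l.re - r.re) r.re; simpa using this
      linarith
    have h5 : ‖r‖ + ‖r‖ ^ 2 ≤ 3 / 2 * ‖r‖ := by nlinarith [norm_nonneg r]
    rw [hx, abs_mul, abs_neg, abs_of_nonneg hk]
    nlinarith
  have hexp : |Real.exp x - 1 - x| ≤ x ^ 2 * Real.exp |x| := by
    have := Complex.norm_exp_sub_sum_le_norm_mul_exp (x : ℂ) 2
    simp only [Finset.sum_range_succ, Finset.sum_range_zero, Nat.factorial] at this
    have e1 : (Complex.exp (x:ℂ) - (0 + (x:ℂ) ^ 0 / ((1:ℕ):ℂ) + (x:ℂ) ^ 1 / ((((0:ℕ).succ * 1 : ℕ)):ℂ)))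
        = ((Real.exp x - 1 - x : ℝ) : ℂ) := by
      push_cast; ring
    rw [e1] at this
    rw [Complex.norm_real, Complex.norm_real, Real.norm_eq_abs, Real.norm_eq_abs, sq_abs] at this
    exact this
  have hx2 : x ^ 2 * Real.exp |x| ≤ 9 / 4 * k ^ 2 * Real.exp k * ‖r‖ ^ 2 := by
    have a1 : x ^ 2 ≤ (3 / 2 * k * ‖r‖) ^ 2 := by
      rw [← sq_abs x]; exact pow_le_pow_left₀ (abs_nonneg _) hxb 2
    have a2 : Real.exp |x| ≤ Real.exp k := by
      apply Real.exp_le_exp.2
      refine hxb.trans ?_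
      nlinarith [norm_nonneg r]
    calc x ^ 2 * Real.exp |x| ≤ (3 / 2 * k * ‖r‖) ^ 2 * Real.exp k :=
          mul_le_mul a1 a2 (Real.exp_pos _).le (by positivity)
      _ = 9 / 4 * k ^ 2 * Real.exp k * ‖r‖ ^ 2 := by ring
  rw [hpow]
  have split : Real.exp x - 1 + k * r.re = (Real.exp x - 1 - x) + -(k * (l.re - r.re)) := by
    rw [hx]; ring
  rw [split]
  have b1 : |-(k * (l.re - r.re))| ≤ k * ‖r‖ ^ 2 := by
    rw [abs_neg, abs_mul, abs_of_nonneg hk]
    exact mul_le_mul_of_nonneg_left hd hk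
  have b2 := abs_add_le (Real.exp x - 1 - x) (-(k * (l.re - r.re)))
  unfold Ck
  nlinarith

/-- the functional -/
noncomputable def J (k : ℝ) (g : ℂ → ℂ) (W : ℂ → ℝ) : ℝ := ∫ z, ‖g z‖ ^ (-k) * W z

theorem integrable_mul_W {W : ℂ → ℝ} {f : ℂ → ℝ} (hW : Continuous W) (hc : HasCompactSupport W)
    (hf : ContinuousOn f (tsupport W)) : Integrable fun z => f z * W z := by
  have hsub : Function.support (fun z => f z * W z) ⊆ tsupport W := by
    intro z hz
    have : W z ≠ 0 := by
      intro h; exact hz (by simp [h])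
    exact subset_tsupport _ this
  exact (integrableOn_iff_integrable_of_support_subset hsub).1
    ((hf.mul hW.continuousOn).integrableOn_compact hc)

theorem contOn_rho {g : ℂ → ℂ} {k : ℝ} {S : Set ℂ} (hg : ContinuousOn g S)
    (h0 : ∀ z ∈ S, g z ≠ 0) : ContinuousOn (fun z => ‖g z‖ ^ (-k)) S :=
  hg.norm.rpow_const fun z hz => Or.inl (norm_ne_zero_iff.2 (h0 z hz))

/-- **Expansion of `J`.** Only values on `tsupport W` are used. -/
theorem J_expand {W : ℂ → ℝ} {g G gt : ℂ → ℂ} {k m M C t : ℝ} (hk : 0 ≤ k)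
    (hW : Continuous W) (hc : HasCompactSupport W)
    (hg : ContinuousOn g (tsupport W)) (hG : ContinuousOn G (tsupport W))
    (hgt : ContinuousOn gt (tsupport W))
    (hm : 0 < m) (hC : 0 ≤ C) (ht : 0 ≤ t)
    (hgm : ∀ z ∈ tsupport W, m ≤ ‖g z‖) (hGM : ∀ z ∈ tsupport W, ‖G z‖ ≤ M)
    (happ : ∀ z ∈ tsupport W, ‖gt z - g z - t * G z‖ ≤ C * t ^ 2)
    (hsm : t * (M + C * t) ≤ m / 2) :
    |J k gt W - J k g W + t * k * ∫ z, ‖g z‖ ^ (-k) * ((G z / g z).re) * W z| ≤
      (Ck k * ((M + C * t) / m) ^ 2 + k * C / m) * t ^ 2 * ∫ z, ‖g z‖ ^ (-k) * |W z| := by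
  have g0 : ∀ z ∈ tsupport W, g z ≠ 0 := fun z hz h => by
    have := hgm z hz; rw [h, norm_zero] at this; linarith
  have hr : ∀ z ∈ tsupport W, ‖(gt z - g z) / g z‖ ≤ t * (M + C * t) / m := by
    intro z hz
    have h1 : ‖gt z - g z‖ ≤ t * (M + C * t) := by
      have e : gt z - g z = (gt z - g z - t * G z) + t * G z := by ring
      rw [e]
      refine (norm_add_le _ _).trans ?_
      have h2 := happ z hz
      have h3 : ‖(t:ℂ) * G z‖ ≤ t * M := by
        rw [norm_mul, Complex.norm_real, Real.norm_eq_abs, abs_of_nonneg ht]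
        exact mul_le_mul_of_nonneg_left (hGM z hz) ht
      nlinarith
    rw [norm_div]
    exact div_le_div₀ ((norm_nonneg _).trans h1) h1 hm (hgm z hz)
  have gt0 : ∀ z ∈ tsupport W, gt z ≠ 0 := by
    intro z hz h
    have h1 := hr z hz
    rw [h, zero_sub, norm_div, norm_neg, div_self (norm_ne_zero_iff.2 (g0 z hz))] at h1
    have : t * (M + C * t) / m ≤ 1 / 2 := by
      rw [div_le_iff₀ hm]; linarith
    linarith
  have i1 : Integrable fun z => ‖gt z‖ ^ (-k) * W z := integrable_mul_W hW hc (contOn_rho hgt gt0)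
  have i2 : Integrable fun z => ‖g z‖ ^ (-k) * W z := integrable_mul_W hW hc (contOn_rho hg g0)
  have i3 : Integrable fun z => ‖g z‖ ^ (-k) * ((G z / g z).re) * W z :=
    integrable_mul_W hW hc ((contOn_rho hg g0).mul
      (Complex.continuous_re.comp_continuousOn (hG.div hg g0)))
  have i4 : Integrable fun z => ‖g z‖ ^ (-k) * |W z| := by
    have := i2.norm
    refine this.congr (Eventually.of_forall fun z => ?_)
    simp only [norm_mul, Real.norm_eq_abs]
    rw [abs_of_nonneg (by positivity : (0:ℝ) ≤ ‖g z‖ ^ (-k))]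
  have e0 : J k gt W - J k g W + t * k * ∫ z, ‖g z‖ ^ (-k) * ((G z / g z).re) * W z =
      ∫ z, (‖gt z‖ ^ (-k) * W z - ‖g z‖ ^ (-k) * W z +
        t * k * (‖g z‖ ^ (-k) * ((G z / g z).re) * W z)) := by
    unfold J
    have i12 : Integrable fun z => ‖gt z‖ ^ (-k) * W z - ‖g z‖ ^ (-k) * W z := i1.sub i2
    have i3' : Integrable fun z => t * k * (‖g z‖ ^ (-k) * ((G z / g z).re) * W z) :=
      i3.const_mul _
    rw [integral_add i12 i3', integral_sub i1 i2, integral_const_mul]
  rw [e0, ← integral_const_mul, ← Real.norm_eq_abs]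
  refine (norm_integral_le_integral_norm _).trans (integral_mono_of_nonneg
    (Eventually.of_forall fun z => by simp only [Pi.zero_apply]; positivity) (i4.const_mul _)
    (Eventually.of_forall fun z => ?_))
  by_cases hz : z ∈ tsupport W
  · have hg0 := g0 z hz
    set r := (gt z - g z) / g z with hrdef
    have hrb : ‖r‖ ≤ t * (M + C * t) / m := hr z hz
    have hr2 : ‖r‖ ≤ 1 / 2 := hrb.trans (by rw [div_le_iff₀ hm]; linarith)
    have hgt : gt z = g z * (1 + r) := by rw [hrdef]; field_simp; ring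
    have hx := norm_rpow_expand hk hr2
    have hrho : ‖gt z‖ ^ (-k) = ‖g z‖ ^ (-k) * ‖1 + r‖ ^ (-k) := by
      rw [hgt, norm_mul, Real.mul_rpow (norm_nonneg _) (norm_nonneg _)]
    have hrG : |r.re - t * (G z / g z).re| ≤ C * t ^ 2 / m := by
      have e : r - t * (G z / g z) = (gt z - g z - t * G z) / g z := by
        rw [hrdef]; field_simp
      have h1 : ‖r - t * (G z / g z)‖ ≤ C * t ^ 2 / m := by
        rw [e, norm_div]
        exact div_le_div₀ (by positivity) (happ z hz) hm (hgm z hz)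
      have h2 := (Complex.abs_re_le_norm (r - t * (G z / g z))).trans h1
      simpa using h2
    have hρ : (0:ℝ) ≤ ‖g z‖ ^ (-k) := by positivity
    have e1 : ‖gt z‖ ^ (-k) * W z - ‖g z‖ ^ (-k) * W z +
        t * k * (‖g z‖ ^ (-k) * ((G z / g z).re) * W z) =
        ‖g z‖ ^ (-k) * W z * ((‖1 + r‖ ^ (-k) - 1 + k * r.re) + -(k * (r.re - t * (G z / g z).re))) := by
      rw [hrho]; ring
    simp only [Real.norm_eq_abs]
    rw [e1, abs_mul, abs_mul, abs_of_nonneg hρ]
    have b1 : |(‖1 + r‖ ^ (-k) - 1 + k * r.re) + -(k * (r.re - t * (G z / g z).re))| ≤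
        (Ck k * ((M + C * t) / m) ^ 2 + k * C / m) * t ^ 2 := by
      refine (abs_add_le _ _).trans ?_
      rw [abs_neg, abs_mul, abs_of_nonneg hk]
      have c1 : Ck k * ‖r‖ ^ 2 ≤ Ck k * (t * (M + C * t) / m) ^ 2 :=
        mul_le_mul_of_nonneg_left (pow_le_pow_left₀ (norm_nonneg _) hrb 2) (Ck_nonneg hk)
      have c2 : k * |r.re - t * (G z / g z).re| ≤ k * (C * t ^ 2 / m) :=
        mul_le_mul_of_nonneg_left hrG hk
      calc _ ≤ Ck k * (t * (M + C * t) / m) ^ 2 + k * (C * t ^ 2 / m) := add_le_add (hx.trans c1) c2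
        _ = _ := by ring
    calc ‖g z‖ ^ (-k) * |W z| * _ ≤ ‖g z‖ ^ (-k) * |W z| *
          ((Ck k * ((M + C * t) / m) ^ 2 + k * C / m) * t ^ 2) :=
          mul_le_mul_of_nonneg_left b1 (by positivity)
      _ = _ := by ring
  · have : W z = 0 := image_eq_zero_of_notMem_tsupport hz
    simp [this]

/-- **First variation in integrated form.** `g = F'`, `G` = derivative of
`eps/(F - w0) + F' v + c F`. -/
theorem first_variation {W : ℂ → ℝ} {U : Set ℂ} {F g v G : ℂ → ℂ} {k : ℝ} {eps w0 c : ℂ}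
    (hW : ContDiff ℝ 1 W) (hc : HasCompactSupport W) (hU : IsOpen U) (hWU : tsupport W ⊆ U)
    (hF : ContinuousOn F U) (hg : DifferentiableOn ℂ g U) (hv : DifferentiableOn ℂ v U)
    (h0 : ∀ z ∈ U, g z ≠ 0) (hw0 : ∀ z ∈ U, F z ≠ w0)
    (hG : ∀ z ∈ U, G z = -eps * g z / (F z - w0) ^ 2 + (deriv g z * v z + g z * deriv v z) + c * g z) :
    -k * ∫ z, ‖g z‖ ^ (-k) * ((G z / g z).re) * W z =
      ∫ z, ‖g z‖ ^ (-k) * (k * W z * (eps / (F z - w0) ^ 2).re - (k + 2) * W z * (deriv v z).re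
        - fderiv ℝ W z (v z) - k * W z * c.re) := by
  have hgd : DifferentiableOn ℂ (deriv g) U := hg.deriv hU
  have hvd : DifferentiableOn ℂ (deriv v) U := hv.deriv hU
  have gs := gauss (k := k) hW hc hU hWU hg hv h0
  -- integrability
  have cg := (hg.continuousOn.mono hWU)
  have g0 : ∀ z ∈ tsupport W, g z ≠ 0 := fun z hz => h0 z (hWU hz)
  have cρ := contOn_rho (k := k) cg g0
  have hGc : ContinuousOn G (tsupport W) := by
    have : ContinuousOn (fun z => -eps * g z / (F z - w0) ^ 2 +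
        (deriv g z * v z + g z * deriv v z) + c * g z) (tsupport W) := by
      have a1 := hF.mono hWU
      have a2 := hv.continuousOn.mono hWU
      have a3 := hgd.continuousOn.mono hWU
      have a4 := hvd.continuousOn.mono hWU
      refine ((((continuousOn_const.mul cg).div ((a1.sub continuousOn_const).pow 2) ?_).add
        ((a3.mul a2).add (cg.mul a4))).add (continuousOn_const.mul cg))
      intro z hz
      exact pow_ne_zero 2 (sub_ne_zero.2 (hw0 z (hWU hz)))
    exact this.congr fun z hz => hG z (hWU hz)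
  have i1 : Integrable fun z => ‖g z‖ ^ (-k) * ((G z / g z).re) * W z :=
    integrable_mul_W hW.continuous hc (cρ.mul
      (Complex.continuous_re.comp_continuousOn (hGc.div cg g0)))
  have i2 : Integrable fun z => ‖g z‖ ^ (-k) * (2 * W z * (deriv v z).re + fderiv ℝ W z (v z)
        - k * W z * (deriv g z / g z * v z).re) := by
    have hd : ContDiff ℝ 1 (fld k g v W) := fld_contDiff hW hU hWU hg hv h0
    have hcs : HasCompactSupport (fld k g v W) := fld_hasCompactSupport hc
    have ii : ∀ u : ℂ, Integrable fun z => fderiv ℝ (fld k g v W) z u := fun u =>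
      ((hd.continuous_fderiv (by norm_num)).clm_apply
        continuous_const).integrable_of_hasCompactSupport
        ((hcs.fderiv (𝕜 := ℝ)).comp_left (g := fun L : ℂ →L[ℝ] ℂ => L u) (by simp))
    have s1 : Integrable fun z => (fderiv ℝ (fld k g v W) z 1).re := by simpa using (ii 1).re
    have s2 : Integrable fun z => (fderiv ℝ (fld k g v W) z I).im := by simpa using (ii I).im
    exact (s1.add s2).congr (Eventually.of_forall fun z =>
      (fld_div hW hU hWU hg hv h0 z))
  rw [← integral_const_mul]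
  have e : ∀ z, ‖g z‖ ^ (-k) * (k * W z * (eps / (F z - w0) ^ 2).re
        - (k + 2) * W z * (deriv v z).re - fderiv ℝ W z (v z) - k * W z * c.re) =
      -k * (‖g z‖ ^ (-k) * ((G z / g z).re) * W z) -
      ‖g z‖ ^ (-k) * (2 * W z * (deriv v z).re + fderiv ℝ W z (v z)
        - k * W z * (deriv g z / g z * v z).re) := by
    intro z
    by_cases hz : z ∈ tsupport W
    · have hzU := hWU hz
      have hg0 := h0 z hzU
      have hq : G z / g z = -(eps / (F z - w0) ^ 2) + deriv g z / g z * v z + deriv v z + c := by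
        rw [hG z hzU]
        have : F z - w0 ≠ 0 := sub_ne_zero.2 (hw0 z hzU)
        field_simp
        ring
      rw [hq]
      simp only [add_re, neg_re]
      ring
    · have hW0 : W =ᶠ[𝓝 z] 0 := notMem_tsupport_iff_eventuallyEq.1 hz
      have w0' : fderiv ℝ W z = 0 := by rw [hW0.fderiv_eq]; simp
      have wz : W z = 0 := by simpa using hW0.self_of_nhds
      rw [w0', wz]; simp
  simp_rw [e]
  rw [integral_sub (i1.const_mul _) i2, gs, sub_zero]

end Pool.Agent.Helper1.CK
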