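import Pool.Agent.Helper1.CK.Polar

/-!
# Project CK (helper1), module Kernel
The composition identity of the Newtonian field.
-/

set_option autoImplicit false

open MeasureTheory Set Filter Topology Metric
open scoped RealInnerProductSpace ENNReal NNReal Pointwise

namespace Pool.Agent.Helper1.CK

private theorem radial (G : ℝ≥0∞ → ℝ≥0∞) (hG : Measurable G) (z : E3) :
    ∫⁻ y, G (edist z y) = (∫⁻ r in Ioi (0 : ℝ), ENNReal.ofReal (r ^ 2) * G (ENNReal.ofReal r)) *
      (volume : Measure E3).toSphere univ := by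
  rw [lintegral_polar (fun y => G (edist z y)) (hG.comp measurable_edist_right) z,
    ← lintegral_const]
  refine lintegral_congr fun ω => ?_
  refine setLIntegral_congr_fun measurableSet_Ioi fun r hr => ?_
  have hω : ‖(ω : E3)‖ = 1 := by simp
  have h1 : edist z (z + r • (ω : E3)) = ENNReal.ofReal r := by
    rw [edist_dist, dist_eq_norm, sub_add_cancel_left, norm_neg, norm_smul, hω, mul_one,
      Real.norm_of_nonneg (le_of_lt hr)]
  simp only [h1]

/-- the radial majorant -/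
private noncomputable def GG (ρ : ℝ≥0∞) (t : ℝ≥0∞) : ℝ≥0∞ :=
  if t < ρ then ρ⁻¹ ^ 2 * t⁻¹ ^ 2 else t⁻¹ ^ 2 * t⁻¹ ^ 2

private theorem GG_meas (ρ : ℝ≥0∞) : Measurable (GG ρ) := by
  unfold GG
  exact Measurable.ite measurableSet_Iio (by fun_prop) (by fun_prop)

private theorem GG_le {ρ a b : ℝ≥0∞} (h : 2 * ρ ≤ a + b) :
    a⁻¹ ^ 2 * b⁻¹ ^ 2 ≤ GG ρ a + GG ρ b := by
  unfold GG
  by_cases ha : a < ρ
  · have hb : ρ ≤ b := by
      by_contra hb
      rw [not_le] at hb
      refine absurd (ENNReal.add_lt_add ha hb) ?_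
      rw [← two_mul]
      exact not_lt.2 h
    rw [if_pos ha, mul_comm]
    refine le_trans ?_ le_self_add
    gcongr
  · by_cases hb : b < ρ
    · rw [if_pos hb]
      refine le_trans ?_ le_add_self
      rw [not_lt] at ha
      gcongr
    · rw [if_neg ha, if_neg hb]
      rcases le_total a b with hab | hab
      · refine le_trans ?_ le_self_add
        gcongr
      · refine le_trans ?_ le_add_self
        gcongr

private theorem GG_int {ρ : ℝ} (hρ : 0 < ρ) :
    ∫⁻ r in Ioi (0 : ℝ), ENNReal.ofReal (r ^ 2) * GG (ENNReal.ofReal ρ) (ENNReal.ofReal r) ≤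
      2 * ENNReal.ofReal ρ⁻¹ := by
  rw [← Ioc_union_Ioi_eq_Ioi hρ.le, lintegral_union measurableSet_Ioi (Ioc_disjoint_Ioi le_rfl),
    two_mul]
  refine add_le_add ?_ ?_
  · have h1 : ∫⁻ r in Ioc 0 ρ, ENNReal.ofReal (r ^ 2) * GG (ENNReal.ofReal ρ) (ENNReal.ofReal r) ≤
        ∫⁻ r in Ioc 0 ρ, ENNReal.ofReal (ρ⁻¹ ^ 2) := by
      refine setLIntegral_mono measurable_const fun r hr => ?_
      have hr0 : 0 < r := hr.1
      unfold GG
      rw [← ENNReal.ofReal_inv_of_pos hρ, ← ENNReal.ofReal_inv_of_pos hr0]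
      rw [← ENNReal.ofReal_pow (by positivity), ← ENNReal.ofReal_pow (by positivity),
        ← ENNReal.ofReal_mul (by positivity), ← ENNReal.ofReal_mul (by positivity)]
      split_ifs with hlt
      · rw [← ENNReal.ofReal_mul (by positivity)]
        refine ENNReal.ofReal_le_ofReal (le_of_eq ?_)
        field_simp
      · rw [ENNReal.ofReal_lt_ofReal_iff hρ, not_lt] at hlt
        have hrr : r = ρ := le_antisymm hr.2 hlt
        subst hrr
        rw [← ENNReal.ofReal_mul (by positivity)]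
        refine ENNReal.ofReal_le_ofReal (le_of_eq ?_)
        field_simp
    refine h1.trans (le_of_eq ?_)
    rw [setLIntegral_const, Real.volume_Ioc, sub_zero, ← ENNReal.ofReal_mul (by positivity)]
    congr 1
    field_simp
  · have h1 : ∫⁻ r in Ioi ρ, ENNReal.ofReal (r ^ 2) * GG (ENNReal.ofReal ρ) (ENNReal.ofReal r) ≤
        ∫⁻ r in Ioi ρ, ENNReal.ofReal (r ^ (-2 : ℝ)) := by
      refine setLIntegral_mono (by fun_prop) fun r hr => ?_
      have hr1 : ρ < r := hr
      have hr0 : 0 < r := hρ.trans hr1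
      unfold GG
      rw [if_neg (by rw [ENNReal.ofReal_lt_ofReal_iff hρ]; exact not_lt.2 hr1.le)]
      rw [← ENNReal.ofReal_inv_of_pos hr0, ← ENNReal.ofReal_pow (by positivity),
        ← ENNReal.ofReal_mul (by positivity), ← ENNReal.ofReal_mul (by positivity)]
      refine ENNReal.ofReal_le_ofReal (le_of_eq ?_)
      rw [show (-2 : ℝ) = -((2 : ℕ) : ℝ) by norm_num, Real.rpow_neg hr0.le, Real.rpow_natCast]
      field_simp
    refine h1.trans (le_of_eq ?_)
    rw [← ofReal_integral_eq_lintegral_ofReal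
      (integrableOn_Ioi_rpow_of_lt (by norm_num) hρ)]
    · rw [integral_Ioi_rpow_of_lt (by norm_num) hρ]
      congr 1
      rw [show (-2 : ℝ) + 1 = -1 by norm_num, Real.rpow_neg_one]
      ring
    · filter_upwards [ae_restrict_mem measurableSet_Ioi] with r hr
      have hr1 : ρ < r := hr
      have hr0 : 0 < r := hρ.trans hr1
      exact Real.rpow_nonneg hr0.le _

/-- absolute convergence: the integral of `1/(|x-y|²|x'-y|²)` is at most `C/|x-x'|` -/
theorem kernel_abs : ∃ C : ℝ≥0, ∀ x x' : E3,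
    ∫⁻ y, (edist x y)⁻¹ ^ 2 * (edist x' y)⁻¹ ^ 2 ≤ C * (edist x x')⁻¹ := by
  set A : ℝ≥0∞ := (volume : Measure E3).toSphere univ with hA
  have hAtop : A ≠ ⊤ := measure_ne_top _ _
  refine ⟨8 * A.toNNReal + 1, fun x x' => ?_⟩
  rcases eq_or_ne x x' with h | h
  · subst h
    rw [edist_self, ENNReal.inv_zero, ENNReal.mul_top]
    · exact le_top
    · rw [ne_eq, ENNReal.coe_eq_zero]
      positivity
  · have hd : 0 < dist x x' := dist_pos.2 h
    set ρ : ℝ := dist x x' / 2 with hρdef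
    have hρ : 0 < ρ := by positivity
    have h1 : ∀ y, (edist x y)⁻¹ ^ 2 * (edist x' y)⁻¹ ^ 2 ≤
        GG (ENNReal.ofReal ρ) (edist x y) + GG (ENNReal.ofReal ρ) (edist x' y) := by
      intro y
      apply GG_le
      have h2 : 2 * ENNReal.ofReal ρ = edist x x' := by
        rw [edist_dist, two_mul, ← ENNReal.ofReal_add hρ.le hρ.le, hρdef, add_halves]
      rw [h2, edist_comm x' y]
      exact edist_triangle _ _ _
    calc ∫⁻ y, (edist x y)⁻¹ ^ 2 * (edist x' y)⁻¹ ^ 2
        ≤ ∫⁻ y, (GG (ENNReal.ofReal ρ) (edist x y) + GG (ENNReal.ofReal ρ) (edist x' y)) :=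
          lintegral_mono h1
      _ = (∫⁻ y, GG (ENNReal.ofReal ρ) (edist x y)) + ∫⁻ y, GG (ENNReal.ofReal ρ) (edist x' y) :=
          lintegral_add_left ((GG_meas _).comp measurable_edist_right) _
      _ ≤ 2 * ENNReal.ofReal ρ⁻¹ * A + 2 * ENNReal.ofReal ρ⁻¹ * A := by
          rw [radial _ (GG_meas _), radial _ (GG_meas _)]
          have := GG_int hρ
          gcongr
      _ = (8 * A) * (edist x x')⁻¹ := by
          rw [edist_dist, ← ENNReal.ofReal_inv_of_pos hd]
          have h3 : ρ⁻¹ = 2 * (dist x x')⁻¹ := by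
            rw [hρdef]
            field_simp
          rw [h3, ENNReal.ofReal_mul (by norm_num), ENNReal.ofReal_ofNat]
          ring
      _ ≤ _ := by
          gcongr
          rw [ENNReal.coe_add, ENNReal.coe_mul, ENNReal.coe_toNNReal hAtop]
          exact le_self_add

private theorem null_line (b : E3) :
    (volume : Measure E3).toSphere {w | (w : E3) ∈ Submodule.span ℝ {b}} = 0 := by
  have hmeas : MeasurableSet {w : sphere (0 : E3) 1 | (w : E3) ∈ Submodule.span ℝ {b}} := by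
    apply IsClosed.measurableSet
    exact (Submodule.closed_of_finiteDimensional (Submodule.span ℝ {b})).preimage
      continuous_subtype_val
  rw [Measure.toSphere_apply' _ hmeas]
  have h1 : (volume : Measure E3) (Submodule.span ℝ {b} : Submodule ℝ E3) = 0 := by
    apply Measure.addHaar_submodule
    intro htop
    have h2 : Module.finrank ℝ (Submodule.span ℝ ({b} : Set E3)) ≤ 1 := by
      refine (finrank_span_le_card ({b} : Set E3)).trans ?_
      simp
    rw [htop, finrank_top] at h2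
    simp at h2
  have h2 : (volume : Measure E3) (Ioo (0 : ℝ) 1 •
      ((fun w : sphere (0 : E3) 1 => (w : E3)) ''
        {w : sphere (0 : E3) 1 | (w : E3) ∈ Submodule.span ℝ {b}})) = 0 := by
    refine measure_mono_null ?_ h1
    rintro _ ⟨r, hr, _, ⟨w, hw, rfl⟩, rfl⟩
    exact Submodule.smul_mem _ _ hw
  have h3 := h2
  rw [h3, mul_zero]

/-- the radial integral -/
private theorem radial_int {B s : ℝ} (hB : 0 < B) (hs : s ^ 2 < B ^ 2) :
    ∫ r in Ioi (0 : ℝ), (r - s) / √(r ^ 2 - 2 * s * r + B ^ 2) ^ 3 = 1 / B := by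
  set κ : ℝ := √(B ^ 2 - s ^ 2) with hκdef
  have hκ : 0 < κ := Real.sqrt_pos.2 (by linarith)
  have hκ2 : κ ^ 2 = B ^ 2 - s ^ 2 := Real.sq_sqrt (by linarith)
  have hq : ∀ r : ℝ, r ^ 2 - 2 * s * r + B ^ 2 = (r - s) ^ 2 + κ ^ 2 := by
    intro r
    rw [hκ2]
    ring
  have hqpos : ∀ r : ℝ, 0 < r ^ 2 - 2 * s * r + B ^ 2 := by
    intro r
    rw [hq]
    positivity
  have hderiv : ∀ r : ℝ, HasDerivAt (fun r => -(√(r ^ 2 - 2 * s * r + B ^ 2))⁻¹)
      ((r - s) / √(r ^ 2 - 2 * s * r + B ^ 2) ^ 3) r := by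
    intro r
    have h1 : HasDerivAt (fun r : ℝ => r ^ 2 - 2 * s * r + B ^ 2) (2 * r - 2 * s) r := by
      have ha : HasDerivAt (fun r : ℝ => r ^ 2) (2 * r) r := by
        simpa using hasDerivAt_pow 2 r
      have hb : HasDerivAt (fun r : ℝ => 2 * s * r) (2 * s) r := by
        simpa using (hasDerivAt_id r).const_mul (2 * s)
      exact (ha.sub hb).add_const (B ^ 2)
    have h2 := (h1.sqrt (hqpos r).ne').inv (Real.sqrt_ne_zero'.2 (hqpos r))
    refine h2.neg.congr_deriv ?_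
    have h4 : 0 < √(r ^ 2 - 2 * s * r + B ^ 2) := Real.sqrt_pos.2 (hqpos r)
    field_simp
  have hint : Integrable (fun r : ℝ => (r - s) / √(r ^ 2 - 2 * s * r + B ^ 2) ^ 3) := by
    have h1 : Integrable (fun r : ℝ => (κ ^ 2)⁻¹ * (1 + ((r - s) / κ) ^ 2)⁻¹) := by
      have h2 := (integrable_inv_one_add_sq.comp_div hκ.ne').comp_sub_right s
      exact h2.const_mul _
    refine h1.mono' ?_ (Eventually.of_forall fun r => ?_)
    · apply Continuous.aestronglyMeasurable
      refine Continuous.div (by fun_prop) (by fun_prop) fun r => ?_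
      exact pow_ne_zero 3 (Real.sqrt_ne_zero'.2 (hqpos r))
    · have h4 : 0 < √(r ^ 2 - 2 * s * r + B ^ 2) := Real.sqrt_pos.2 (hqpos r)
      have h5 : |r - s| ≤ √(r ^ 2 - 2 * s * r + B ^ 2) := by
        apply Real.abs_le_sqrt
        rw [hq]
        nlinarith [sq_nonneg κ]
      rw [Real.norm_eq_abs, abs_div, abs_of_pos (pow_pos h4 3)]
      have h6 : √(r ^ 2 - 2 * s * r + B ^ 2) ^ 2 = (r - s) ^ 2 + κ ^ 2 := by
        rw [Real.sq_sqrt (hqpos r).le, hq]
      calc |r - s| / √(r ^ 2 - 2 * s * r + B ^ 2) ^ 3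
          ≤ √(r ^ 2 - 2 * s * r + B ^ 2) / √(r ^ 2 - 2 * s * r + B ^ 2) ^ 3 := by gcongr
        _ = (√(r ^ 2 - 2 * s * r + B ^ 2) ^ 2)⁻¹ := by field_simp
        _ = (κ ^ 2)⁻¹ * (1 + ((r - s) / κ) ^ 2)⁻¹ := by
            rw [h6]
            field_simp
            ring
  have hlim : Tendsto (fun r => -(√(r ^ 2 - 2 * s * r + B ^ 2))⁻¹) atTop (𝓝 0) := by
    rw [← neg_zero]
    refine Tendsto.neg ?_
    refine tendsto_inv_atTop_zero.comp ?_
    refine tendsto_atTop_mono (f := fun r => r - s) (fun r => ?_) (tendsto_atTop_add_const_right _ _ tendsto_id)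
    refine (le_abs_self _).trans ?_
    apply Real.abs_le_sqrt
    rw [hq]
    nlinarith [sq_nonneg κ]
  rw [integral_Ioi_of_hasDerivAt_of_tendsto' (fun r _ => hderiv r) hint.integrableOn hlim]
  rw [show (0 : ℝ) ^ 2 - 2 * s * 0 + B ^ 2 = B ^ 2 by ring, Real.sqrt_sq hB.le]
  ring

private theorem kernel_integrable {x x' : E3} (h : x ≠ x') :
    Integrable (fun y : E3 => ⟪x - y, x' - y⟫ / (‖x - y‖ ^ 3 * ‖x' - y‖ ^ 3)) := by
  obtain ⟨C, hC⟩ := kernel_abs
  have hmeas : Measurable (fun y : E3 => ⟪x - y, x' - y⟫ / (‖x - y‖ ^ 3 * ‖x' - y‖ ^ 3)) := by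
    fun_prop
  refine ⟨hmeas.aestronglyMeasurable, ?_⟩
  rw [hasFiniteIntegral_iff_enorm]
  have h1 : ∀ y : E3, ‖⟪x - y, x' - y⟫ / (‖x - y‖ ^ 3 * ‖x' - y‖ ^ 3)‖ₑ ≤
      (edist x y)⁻¹ ^ 2 * (edist x' y)⁻¹ ^ 2 := by
    intro y
    rcases eq_or_ne x y with hxy | hxy
    · subst hxy
      simp
    rcases eq_or_ne x' y with hxy' | hxy'
    · subst hxy'
      simp
    have ha : 0 < ‖x - y‖ := norm_pos_iff.2 (sub_ne_zero.2 hxy)
    have hb : 0 < ‖x' - y‖ := norm_pos_iff.2 (sub_ne_zero.2 hxy')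
    rw [edist_dist, edist_dist, dist_eq_norm, dist_eq_norm, ← ENNReal.ofReal_inv_of_pos ha,
      ← ENNReal.ofReal_inv_of_pos hb, ← ENNReal.ofReal_pow (by positivity),
      ← ENNReal.ofReal_pow (by positivity), ← ENNReal.ofReal_mul (by positivity),
      ← ofReal_norm]
    refine ENNReal.ofReal_le_ofReal ?_
    rw [Real.norm_eq_abs, abs_div, abs_of_pos (by positivity : 0 < ‖x - y‖ ^ 3 * ‖x' - y‖ ^ 3)]
    calc |⟪x - y, x' - y⟫| / (‖x - y‖ ^ 3 * ‖x' - y‖ ^ 3)
        ≤ (‖x - y‖ * ‖x' - y‖) / (‖x - y‖ ^ 3 * ‖x' - y‖ ^ 3) := by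
          gcongr
          exact abs_real_inner_le_norm _ _
      _ = ‖x - y‖⁻¹ ^ 2 * ‖x' - y‖⁻¹ ^ 2 := by field_simp
  refine lt_of_le_of_lt (lintegral_mono h1) (lt_of_le_of_lt (hC x x') ?_)
  refine ENNReal.mul_lt_top ENNReal.coe_lt_top ?_
  rw [ENNReal.inv_lt_top]
  exact edist_pos.2 h

theorem kernel_int {x x' : E3} (h : x ≠ x') :
    ∫ y, ⟪x - y, x' - y⟫ / (‖x - y‖ ^ 3 * ‖x' - y‖ ^ 3) = 4 * Real.pi / ‖x - x'‖ := by
  rw [integral_polar _ (kernel_integrable h) x']
  set b : E3 := x - x' with hb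
  have hbpos : 0 < ‖b‖ := norm_pos_iff.2 (sub_ne_zero.2 h)
  have h1 : ∀ᵐ w : sphere (0 : E3) 1 ∂(volume : Measure E3).toSphere,
      ∫ r in Ioi (0 : ℝ), r ^ 2 * (⟪x - (x' + r • (w : E3)), x' - (x' + r • (w : E3))⟫ /
        (‖x - (x' + r • (w : E3))‖ ^ 3 * ‖x' - (x' + r • (w : E3))‖ ^ 3)) = 1 / ‖b‖ := by
    have h0 : ∀ᵐ w : sphere (0 : E3) 1 ∂(volume : Measure E3).toSphere, ¬ (w : E3) ∈ Submodule.span ℝ {b} := by
      rw [ae_iff]
      simp only [not_not]
      exact null_line b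
    filter_upwards [h0] with w hw
    have hw1 : ‖(w : E3)‖ = 1 := by simp
    set s : ℝ := ⟪b, (w : E3)⟫ with hs
    have hs2 : s ^ 2 < ‖b‖ ^ 2 := by
      have h2 : ‖b - s • (w : E3)‖ ^ 2 = ‖b‖ ^ 2 - s ^ 2 := by
        rw [norm_sub_sq_real, inner_smul_right, norm_smul, hw1, ← hs, Real.norm_eq_abs, mul_one,
          sq_abs]
        ring
      have h3 : 0 < ‖b - s • (w : E3)‖ := by
        rw [norm_pos_iff, ne_eq, sub_eq_zero]
        intro heq
        apply hw
        have hs0 : s ≠ 0 := by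
          intro h0
          rw [h0, zero_smul] at heq
          rw [heq, norm_zero] at hbpos
          exact lt_irrefl _ hbpos
        rw [Submodule.mem_span_singleton]
        refine ⟨s⁻¹, ?_⟩
        conv_lhs => rw [heq]
        rw [smul_smul, inv_mul_cancel₀ hs0, one_smul]
      nlinarith [pow_pos h3 2]
    rw [← radial_int hbpos hs2]
    refine setIntegral_congr_fun measurableSet_Ioi fun r hr => ?_
    have hr0 : 0 < r := hr
    have e1 : x - (x' + r • (w : E3)) = b - r • (w : E3) := by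
      rw [hb]
      abel
    have e2 : x' - (x' + r • (w : E3)) = -(r • (w : E3)) := by abel
    have e3 : ‖b - r • (w : E3)‖ = √(r ^ 2 - 2 * s * r + ‖b‖ ^ 2) := by
      rw [← Real.sqrt_sq (norm_nonneg (b - r • (w : E3)))]
      congr 1
      rw [norm_sub_sq_real, inner_smul_right, norm_smul, hw1, ← hs, Real.norm_eq_abs, mul_one,
        sq_abs]
      ring
    have e4 : ‖-(r • (w : E3))‖ = r := by
      rw [norm_neg, norm_smul, hw1, mul_one, Real.norm_of_nonneg hr0.le]
    have e5 : ⟪b - r • (w : E3), -(r • (w : E3))⟫ = r * (r - s) := by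
      rw [inner_neg_right, inner_smul_right, inner_sub_left, inner_smul_left, ← hs,
        real_inner_self_eq_norm_sq, hw1]
      simp
      ring
    have e6 : 0 < √(r ^ 2 - 2 * s * r + ‖b‖ ^ 2) := by
      rw [Real.sqrt_pos]
      nlinarith [sq_nonneg (r - s)]
    rw [e1, e2, e4, e5, e3]
    field_simp
  rw [integral_congr_ae h1, integral_const, sphere_area, smul_eq_mul]
  ring

end Pool.Agent.Helper1.CK
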