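import Pool.Agent.Helper1.CK.Newton
import Pool.Agent.Helper1.CK.Kernel

/-!
# Project CK (helper1), module Field
The Newtonian field of a bounded set.
-/

set_option autoImplicit false

open MeasureTheory Set Filter Topology Metric
open scoped RealInnerProductSpace ENNReal NNReal

namespace Pool.Agent.Helper1.CK

namespace Fld

/-- the kernel of the field -/
noncomputable def kk (x y : E3) : E3 := (‖x - y‖ ^ 3)⁻¹ • (x - y)

lemma VA_eq (A : Set E3) (y : E3) : VA A y = ∫ x in A, kk x y := rfl

lemma measurable_kk : Measurable fun p : E3 × E3 => kk p.1 p.2 := by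
  unfold kk
  fun_prop

lemma edist_inv {x y : E3} (h : x ≠ y) : (edist x y)⁻¹ = ENNReal.ofReal (‖x - y‖⁻¹) := by
  have h1 : 0 < ‖x - y‖ := norm_pos_iff.2 (sub_ne_zero.2 h)
  rw [edist_dist, dist_eq_norm, ENNReal.ofReal_inv_of_pos h1]

lemma norm_kk {x y : E3} (h : x ≠ y) : ‖kk x y‖ = (‖x - y‖⁻¹) ^ 2 := by
  have h1 : 0 < ‖x - y‖ := norm_pos_iff.2 (sub_ne_zero.2 h)
  rw [kk, norm_smul, norm_inv, norm_pow, norm_norm]
  field_simp

lemma enorm_kk_le (x y : E3) : ‖kk x y‖ₑ ≤ ((edist x y)⁻¹) ^ 2 := by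
  by_cases h : x = y
  · subst h
    simp [kk]
  · rw [edist_inv h, ← ofReal_norm, norm_kk h, ENNReal.ofReal_pow (by positivity)]

lemma sum_coord' (L : E3 →L[ℝ] ℝ) (v : E3) :
    ∑ i : Fin 3, L (EuclideanSpace.single i (1 : ℝ)) * v i = L v := by
  have h1 : v = ∑ i : Fin 3, v i • EuclideanSpace.single i (1 : ℝ) := by
    ext j
    simp [Fin.sum_univ_three]
    fin_cases j <;> simp
  conv_rhs => rw [h1, map_sum]
  refine Finset.sum_congr rfl fun i _ => ?_
  rw [map_smul, smul_eq_mul, mul_comm]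

lemma ball_int (x : E3) (ρ : ℝ) :
    ∫⁻ y in ball x ρ, ((edist x y)⁻¹) ^ 2 ≤
      ENNReal.ofReal ρ * (volume : Measure E3).toSphere univ := by
  have hm : Measurable fun y : E3 => ((edist x y)⁻¹) ^ 2 := by fun_prop
  rw [← lintegral_indicator measurableSet_ball,
    lintegral_polar _ (hm.indicator measurableSet_ball) x]
  calc ∫⁻ ω : sphere (0 : E3) 1, (∫⁻ r in Ioi (0 : ℝ), ENNReal.ofReal (r ^ 2) *
        (ball x ρ).indicator (fun y : E3 => ((edist x y)⁻¹) ^ 2) (x + r • (ω : E3)))
          ∂(volume : Measure E3).toSphere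
      ≤ ∫⁻ _ω : sphere (0 : E3) 1, ENNReal.ofReal ρ ∂(volume : Measure E3).toSphere := by
        refine lintegral_mono fun ω => ?_
        have hω : ‖(ω : E3)‖ = 1 := by simp
        have h1 : ∀ r ∈ Ioi (0 : ℝ), ENNReal.ofReal (r ^ 2) *
            (ball x ρ).indicator (fun y : E3 => ((edist x y)⁻¹) ^ 2) (x + r • (ω : E3)) ≤
            (Ioo (0 : ℝ) ρ).indicator (fun _ => (1 : ℝ≥0∞)) r := by
          intro r hr
          have hr0 : (0 : ℝ) < r := hr
          have hd : dist (x + r • (ω : E3)) x = r := by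
            rw [dist_eq_norm, add_sub_cancel_left, norm_smul, hω, mul_one, Real.norm_eq_abs,
              abs_of_pos hr0]
          by_cases hρ : r < ρ
          · have hmem : r ∈ Ioo (0 : ℝ) ρ := ⟨hr0, hρ⟩
            rw [indicator_of_mem (by rw [mem_ball, hd]; exact hρ),
              indicator_of_mem hmem, edist_comm, edist_dist, hd,
              ← ENNReal.ofReal_inv_of_pos hr0, ← ENNReal.ofReal_pow (by positivity),
              ← ENNReal.ofReal_mul (by positivity)]
            have : r ^ 2 * r⁻¹ ^ 2 = 1 := by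
              field_simp
            rw [this, ENNReal.ofReal_one]
          · rw [indicator_of_notMem (by rw [mem_ball, hd]; exact hρ), mul_zero]
            exact zero_le
        calc ∫⁻ r in Ioi (0 : ℝ), ENNReal.ofReal (r ^ 2) *
            (ball x ρ).indicator (fun y : E3 => ((edist x y)⁻¹) ^ 2) (x + r • (ω : E3))
            ≤ ∫⁻ r in Ioi (0 : ℝ), (Ioo (0 : ℝ) ρ).indicator (fun _ => (1 : ℝ≥0∞)) r :=
              setLIntegral_mono' measurableSet_Ioi h1
          _ ≤ ∫⁻ r, (Ioo (0 : ℝ) ρ).indicator (fun _ => (1 : ℝ≥0∞)) r :=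
              setLIntegral_le_lintegral _ _
          _ = ENNReal.ofReal ρ := by
              rw [lintegral_indicator measurableSet_Ioo, setLIntegral_const, one_mul,
                Real.volume_Ioo, sub_zero]
    _ = ENNReal.ofReal ρ * (volume : Measure E3).toSphere univ := by
        rw [lintegral_const]

lemma bdd_int {B : Set E3} (hb : Bornology.IsBounded B) (R : ℝ) :
    ∃ C : ℝ≥0∞, C < ⊤ ∧ ∀ x : E3, ‖x‖ ≤ R → ∫⁻ y in B, ((edist x y)⁻¹) ^ 2 ≤ C := by
  obtain ⟨R', hR'⟩ := hb.subset_ball (0 : E3)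
  refine ⟨ENNReal.ofReal (R + R') * (volume : Measure E3).toSphere univ,
    ENNReal.mul_lt_top ENNReal.ofReal_lt_top (measure_lt_top _ _), fun x hx => ?_⟩
  refine le_trans (lintegral_mono_set ?_) (ball_int x (R + R'))
  intro y hy
  have h1 : ‖y‖ < R' := by simpa using hR' hy
  rw [mem_ball, dist_eq_norm]
  calc ‖y - x‖ ≤ ‖y‖ + ‖x‖ := norm_sub_le _ _
    _ < R + R' := by linarith

lemma integrable_kk {A : Set E3} (hb : Bornology.IsBounded A) (y : E3) :
    IntegrableOn (fun x => kk x y) A := by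
  obtain ⟨C, hC, hC'⟩ := bdd_int hb ‖y‖
  refine ⟨(measurable_kk.comp (measurable_id.prodMk measurable_const)).aestronglyMeasurable, ?_⟩
  refine lt_of_le_of_lt (lintegral_mono fun x => enorm_kk_le x y) ?_
  refine lt_of_le_of_lt (le_of_eq ?_) (lt_of_le_of_lt (hC' y le_rfl) hC)
  simp only [edist_comm]

end Fld

open Fld

/-- bounded sets have finite energy -/
theorem En_lt_top {A : Set E3} (hb : Bornology.IsBounded A) : En A < ⊤ := by
  obtain ⟨R, hR⟩ := hb.subset_ball (0 : E3)
  obtain ⟨C, hC, hC'⟩ := bdd_int hb R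
  have hvol : volume A < ⊤ := hb.measure_lt_top
  have h1 : ∀ x ∈ A, ∫⁻ y in A, (edist x y)⁻¹ ≤ volume A + C := by
    intro x hx
    have hx' : ‖x‖ ≤ R := by
      have : ‖x‖ < R := by simpa using hR hx
      exact this.le
    calc ∫⁻ y in A, (edist x y)⁻¹ ≤ ∫⁻ y in A, (1 + ((edist x y)⁻¹) ^ 2) := by
          refine lintegral_mono fun y => ?_
          rcases le_total ((edist x y)⁻¹) 1 with h | h
          · exact h.trans le_self_add
          · refine le_trans ?_ le_add_self
            calc (edist x y)⁻¹ = (edist x y)⁻¹ * 1 := (mul_one _).symm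
              _ ≤ (edist x y)⁻¹ * (edist x y)⁻¹ := by gcongr
              _ = ((edist x y)⁻¹) ^ 2 := (sq _).symm
      _ = volume A + ∫⁻ y in A, ((edist x y)⁻¹) ^ 2 := by
          rw [lintegral_add_left measurable_const, setLIntegral_const, one_mul]
      _ ≤ volume A + C := by
          gcongr
          exact hC' x hx'
  have h2 : En A ≤ ∫⁻ _x in A, (volume A + C) := setLIntegral_mono measurable_const h1
  refine lt_of_le_of_lt h2 ?_
  rw [setLIntegral_const]
  exact ENNReal.mul_lt_top (ENNReal.add_lt_top.2 ⟨hvol, hC⟩) hvol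

theorem VA_measurable {A : Set E3} (hA : MeasurableSet A) : Measurable (VA A) := by
  have h1 : StronglyMeasurable fun p : E3 × E3 => kk p.2 p.1 :=
    (measurable_kk.comp measurable_swap).stronglyMeasurable
  exact (h1.integral_prod_right (ν := volume.restrict A)).measurable

namespace Fld

/-- the integrand of the energy of the field -/
noncomputable def FF (p : (E3 × E3) × E3) : ℝ := ⟪kk p.1.1 p.2, kk p.1.2 p.2⟫

lemma measurable_kk1 : Measurable fun p : (E3 × E3) × E3 => kk p.1.1 p.2 := by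
  unfold kk
  fun_prop

lemma measurable_kk2 : Measurable fun p : (E3 × E3) × E3 => kk p.1.2 p.2 := by
  unfold kk
  fun_prop

lemma measurable_FF' : Measurable fun p : (E3 × E3) × E3 => ⟪kk p.1.1 p.2, kk p.1.2 p.2⟫ :=
  Measurable.inner (𝕜 := ℝ) measurable_kk1 measurable_kk2

lemma measurable_FF : Measurable FF := measurable_FF'

lemma FF_le (x x' y : E3) : ‖FF ((x, x'), y)‖ₑ ≤ (edist x y)⁻¹ ^ 2 * (edist x' y)⁻¹ ^ 2 := by
  calc ‖FF ((x, x'), y)‖ₑ ≤ ‖kk x y‖ₑ * ‖kk x' y‖ₑ := by
        rw [FF, ← ofReal_norm, ← ofReal_norm, ← ofReal_norm,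
          ← ENNReal.ofReal_mul (norm_nonneg _)]
        exact ENNReal.ofReal_le_ofReal (norm_inner_le_norm _ _)
    _ ≤ _ := mul_le_mul' (enorm_kk_le x y) (enorm_kk_le x' y)

lemma FF_eq (x x' y : E3) :
    FF ((x, x'), y) = ⟪x - y, x' - y⟫ / (‖x - y‖ ^ 3 * ‖x' - y‖ ^ 3) := by
  simp only [FF, kk, inner_smul_left, inner_smul_right, RCLike.conj_to_real]
  rw [div_eq_mul_inv, mul_inv]
  ring

lemma integrable_FF {A : Set E3} (hb : Bornology.IsBounded A) :
    Integrable FF (((volume.restrict A).prod (volume.restrict A)).prod volume) := by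
  refine ⟨measurable_FF.aestronglyMeasurable, ?_⟩
  obtain ⟨C, hC⟩ := kernel_abs
  rw [hasFiniteIntegral_iff_enorm, lintegral_prod _ measurable_FF.enorm.aemeasurable]
  have h1 : ∀ q : E3 × E3, ∫⁻ y, ‖FF (q, y)‖ₑ ≤ C * (edist q.1 q.2)⁻¹ := fun q =>
    (lintegral_mono fun y => FF_le q.1 q.2 y).trans (hC q.1 q.2)
  refine lt_of_le_of_lt (lintegral_mono h1) ?_
  rw [lintegral_const_mul _ (by fun_prop)]
  refine ENNReal.mul_lt_top ENNReal.coe_lt_top ?_
  rw [lintegral_prod _ (by fun_prop)]
  exact En_lt_top hb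

lemma VA_norm_sq {A : Set E3} (hb : Bornology.IsBounded A) (y : E3) :
    ‖VA A y‖ ^ 2 = ∫ q, FF (q, y) ∂((volume.restrict A).prod (volume.restrict A)) := by
  have h1 := integrable_kk hb y
  have h2 : Integrable (fun q : E3 × E3 => FF (q, y))
      ((volume.restrict A).prod (volume.restrict A)) := by
    refine ⟨(measurable_FF.comp (measurable_id.prodMk measurable_const)).aestronglyMeasurable, ?_⟩
    obtain ⟨C, hC, hC'⟩ := bdd_int hb ‖y‖
    rw [hasFiniteIntegral_iff_enorm]
    have h3 : ∀ q : E3 × E3, ‖FF (q, y)‖ₑ ≤ (edist q.1 y)⁻¹ ^ 2 * (edist q.2 y)⁻¹ ^ 2 :=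
      fun q => FF_le q.1 q.2 y
    refine lt_of_le_of_lt (lintegral_mono h3) ?_
    rw [lintegral_prod_mul (f := fun x : E3 => (edist x y)⁻¹ ^ 2)
      (g := fun x : E3 => (edist x y)⁻¹ ^ 2) (by fun_prop) (by fun_prop)]
    have h4 : ∫⁻ x in A, (edist x y)⁻¹ ^ 2 ≤ C := by
      refine le_trans (le_of_eq ?_) (hC' y le_rfl)
      simp only [edist_comm]
    exact ENNReal.mul_lt_top (lt_of_le_of_lt h4 hC) (lt_of_le_of_lt h4 hC)
  rw [integral_prod _ h2, ← real_inner_self_eq_norm_sq]
  have h5 : ∀ v : E3, ⟪v, VA A y⟫ = ∫ x in A, ⟪v, kk x y⟫ := fun v => by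
    rw [VA_eq, integral_inner h1]
  rw [h5]
  refine integral_congr_ae (Eventually.of_forall fun x => ?_)
  simp only
  rw [real_inner_comm, h5]
  rfl

end Fld

/-- energy of the Newtonian field -/
theorem VA_sq {A : Set E3} (hA : MeasurableSet A) (hb : Bornology.IsBounded A) :
    Integrable (fun y => ‖VA A y‖ ^ 2) ∧
      ∫ y, ‖VA A y‖ ^ 2 = 4 * Real.pi * (En A).toReal := by
  have h1 := integrable_FF hb
  have h2 := h1.integral_prod_right
  simp only [← VA_norm_sq hb] at h2
  refine ⟨h2, ?_⟩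
  have h3 : ∫ y, ‖VA A y‖ ^ 2 = ∫ q, (∫ y, FF (q, y)) ∂((volume.restrict A).prod
      (volume.restrict A)) := by
    simp only [VA_norm_sq hb]
    exact (integral_integral_swap (f := fun q y => FF (q, y)) h1).symm
  have h4 : ∀ᵐ q ∂((volume.restrict A).prod (volume.restrict A)), q.1 ≠ q.2 := by
    have hms : MeasurableSet {q : E3 × E3 | q.1 = q.2} :=
      measurableSet_eq_fun measurable_fst measurable_snd
    have h5 : ((volume.restrict A).prod (volume.restrict A)) {q : E3 × E3 | q.1 = q.2} = 0 := by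
      rw [Measure.measure_prod_null hms]
      refine Eventually.of_forall fun x => ?_
      have h6 : Prod.mk x ⁻¹' {q : E3 × E3 | q.1 = q.2} = {x} := by
        ext y
        simp [eq_comm]
      change (volume.restrict A) (Prod.mk x ⁻¹' {q : E3 × E3 | q.1 = q.2}) = 0
      rw [h6]
      exact measure_singleton x
    rw [ae_iff]
    simpa using h5
  have h5 : ∫ q, (∫ y, FF (q, y)) ∂((volume.restrict A).prod (volume.restrict A)) =
      ∫ q, 4 * Real.pi * ‖q.1 - q.2‖⁻¹ ∂((volume.restrict A).prod (volume.restrict A)) := by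
    refine integral_congr_ae ?_
    filter_upwards [h4] with q hq
    have h6 : ∀ y, FF (q, y) = ⟪q.1 - y, q.2 - y⟫ / (‖q.1 - y‖ ^ 3 * ‖q.2 - y‖ ^ 3) :=
      fun y => FF_eq q.1 q.2 y
    simp only [h6]
    rw [kernel_int hq, div_eq_mul_inv]
  rw [h3, h5, integral_const_mul]
  congr 1
  rw [integral_eq_lintegral_of_nonneg_ae (Eventually.of_forall fun q => by positivity)
    (by fun_prop)]
  congr 1
  have h6 : ∫⁻ q, ENNReal.ofReal ‖q.1 - q.2‖⁻¹ ∂((volume.restrict A).prod (volume.restrict A)) =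
      ∫⁻ q, (edist q.1 q.2)⁻¹ ∂((volume.restrict A).prod (volume.restrict A)) := by
    refine lintegral_congr_ae ?_
    filter_upwards [h4] with q hq
    rw [edist_inv hq]
  rw [h6, lintegral_prod _ (by fun_prop)]
  rfl

/-- the pairing identity -/
theorem pairing {A : Set E3} (hA : MeasurableSet A) (hb : Bornology.IsBounded A) {u : E3 → ℝ}
    (hu : ContDiff ℝ 1 u) (hc : HasCompactSupport u) :
    4 * Real.pi * ∫ x in A, u x = ∫ y, fderiv ℝ u y (VA A y) := by
  have hcont : Continuous (fderiv ℝ u) := hu.continuous_fderiv (by norm_num)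
  have hcs : HasCompactSupport (fderiv ℝ u) := hc.fderiv (𝕜 := ℝ)
  obtain ⟨M, hM⟩ := hcs.exists_bound_of_continuous hcont
  -- the inner integral
  have h1 : ∀ x : E3, ∫ y, fderiv ℝ u y (kk x y) = 4 * Real.pi * u x := by
    intro x
    have h2 := newton hu hc x
    have h3 : (fun y => fderiv ℝ u y (kk x y)) =
        fun y => -(fderiv ℝ u y (y - x) / ‖y - x‖ ^ 3) := by
      funext y
      have h4 : x - y = -(y - x) := (neg_sub _ _).symm
      rw [kk, map_smul, smul_eq_mul, h4, map_neg, norm_neg]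
      ring
    rw [h3, integral_neg, h2]
    ring
  -- measurability
  have hmeas : Measurable fun p : E3 × E3 => fderiv ℝ u p.2 (kk p.1 p.2) := by
    have h2 : (fun p : E3 × E3 => fderiv ℝ u p.2 (kk p.1 p.2)) = fun p : E3 × E3 =>
        ∑ i : Fin 3, fderiv ℝ u p.2 (EuclideanSpace.single i (1 : ℝ)) * (kk p.1 p.2) i := by
      funext p
      exact (sum_coord' _ _).symm
    rw [h2]
    refine Finset.measurable_sum _ fun i _ => Measurable.mul ?_ ?_
    · have h3 : Continuous fun y : E3 => fderiv ℝ u y (EuclideanSpace.single i (1 : ℝ)) :=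
        hcont.clm_apply continuous_const
      exact h3.measurable.comp measurable_snd
    · exact (EuclideanSpace.proj i : E3 →L[ℝ] ℝ).continuous.measurable.comp measurable_kk
  have hint : Integrable (fun p : E3 × E3 => fderiv ℝ u p.2 (kk p.1 p.2))
      ((volume.restrict A).prod volume) := by
    refine ⟨hmeas.aestronglyMeasurable, ?_⟩
    obtain ⟨R, hR⟩ := hb.subset_ball (0 : E3)
    obtain ⟨C, hC, hC'⟩ := bdd_int hc.isCompact.isBounded R
    rw [hasFiniteIntegral_iff_enorm, lintegral_prod _ hmeas.enorm.aemeasurable]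
    have h2 : ∀ x ∈ A, ∫⁻ y, ‖fderiv ℝ u y (kk x y)‖ₑ ≤ ENNReal.ofReal M * C := by
      intro x hx
      have hx' : ‖x‖ ≤ R := by
        have : ‖x‖ < R := by simpa using hR hx
        exact this.le
      calc ∫⁻ y, ‖fderiv ℝ u y (kk x y)‖ₑ
          ≤ ∫⁻ y, (tsupport u).indicator (fun y => ENNReal.ofReal M * ((edist x y)⁻¹) ^ 2) y := by
            refine lintegral_mono fun y => ?_
            by_cases hy : y ∈ tsupport u
            · rw [indicator_of_mem hy]
              calc ‖fderiv ℝ u y (kk x y)‖ₑ ≤ ‖fderiv ℝ u y‖ₑ * ‖kk x y‖ₑ := by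
                    rw [← ofReal_norm, ← ofReal_norm, ← ofReal_norm,
                      ← ENNReal.ofReal_mul (norm_nonneg _)]
                    exact ENNReal.ofReal_le_ofReal (ContinuousLinearMap.le_opNorm _ _)
                _ ≤ ENNReal.ofReal M * ((edist x y)⁻¹) ^ 2 := by
                    refine mul_le_mul' ?_ (enorm_kk_le x y)
                    rw [← ofReal_norm]
                    exact ENNReal.ofReal_le_ofReal (hM y)
            · have h3 : fderiv ℝ u y = 0 := by
                by_contra h4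
                exact hy (support_fderiv_subset ℝ h4)
              rw [h3]
              simp
        _ = ENNReal.ofReal M * ∫⁻ y in tsupport u, ((edist x y)⁻¹) ^ 2 := by
            rw [lintegral_indicator (isClosed_tsupport u).measurableSet,
              lintegral_const_mul _ (by fun_prop)]
        _ ≤ ENNReal.ofReal M * C := by
            gcongr
            exact hC' x hx'
    refine lt_of_le_of_lt (setLIntegral_mono measurable_const h2) ?_
    rw [setLIntegral_const]
    exact ENNReal.mul_lt_top (ENNReal.mul_lt_top ENNReal.ofReal_lt_top hC) hb.measure_lt_top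
  rw [← integral_const_mul]
  calc ∫ x in A, 4 * Real.pi * u x = ∫ x in A, ∫ y, fderiv ℝ u y (kk x y) := by
        refine integral_congr_ae (Eventually.of_forall fun x => ?_)
        exact (h1 x).symm
    _ = ∫ y, ∫ x in A, fderiv ℝ u y (kk x y) :=
        integral_integral_swap (f := fun x y => fderiv ℝ u y (kk x y)) hint
    _ = ∫ y, fderiv ℝ u y (VA A y) := by
        refine integral_congr_ae (Eventually.of_forall fun y => ?_)
        simp only
        rw [VA_eq, ContinuousLinearMap.integral_comp_comm _ (integrable_kk hb y)]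

end Pool.Agent.Helper1.CK
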