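import Pool.Agent.Helper1.CK.V1Bound
import Pool.Agent.Helper1.CK.Dirichlet

/-!
# Project CK (helper1), module Final
Assembly.
-/

set_option autoImplicit false

open MeasureTheory Set Filter Topology Metric
open scoped RealInnerProductSpace ENNReal NNReal

namespace Pool.Agent.Helper1.CK

/-- positive content forces `K` nonempty -/
theorem nonempty_of_content {K : Set E3} {S : ℝ} (hS : 0 < S) (hC : Content K S) :
    K.Nonempty := by
  rcases K.eq_empty_or_nonempty with h | h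
  · exfalso
    subst h
    have h1 : Tendsto (fun _ : ℝ => (0 : ℝ)) (𝓝[>] (0 : ℝ)) (𝓝 S) := by
      refine hC.congr (fun ε => ?_)
      rw [Metric.cthickening_empty, sub_self, zero_div]
    have h2 : Tendsto (fun _ : ℝ => (0 : ℝ)) (𝓝[>] (0 : ℝ)) (𝓝 0) := tendsto_const_nhds
    exact hS.ne' (tendsto_nhds_unique h1 h2)
  · exact h

/-- admissible functions exist for the Dirichlet capacity -/
theorem exists_admissible {K : Set E3} (hK : IsCompact K) : ∃ u : E3 → ℝ, ContDiff ℝ 1 u ∧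
    HasCompactSupport u ∧ ∀ x ∈ K, 1 ≤ u x := by
  obtain ⟨r, hr0, hr⟩ := hK.isBounded.subset_closedBall_lt 0 (0 : E3)
  let f : ContDiffBump (0 : E3) := ⟨r, r + 1, hr0, by linarith⟩
  refine ⟨f, f.contDiff, f.hasCompactSupport, fun x hx => ?_⟩
  exact (f.one_of_mem_closedBall (hr hx)).ge

theorem final (K : Set E3) (hK : IsCompact K) (hc : Convex ℝ K) (S : ℝ) (hS : 0 < S)
    (hC : Content K S) :
    V1 K ≤ ENNReal.ofReal (√(8 * Real.pi / S)) ∧
    √(2 * Real.pi * S) ≤ sInf {E : ℝ | ∃ u : E3 → ℝ, ContDiff ℝ 1 u ∧ HasCompactSupport u ∧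
          (∀ x ∈ K, 1 ≤ u x) ∧ E = ∫ x, ‖fderiv ℝ u x‖ ^ 2} := by
  have hG : Good K := ⟨hK, hc, nonempty_of_content hS hC⟩
  refine ⟨V1_le hG hS hC, ?_⟩
  apply le_csInf
  · obtain ⟨u, h1, h2, h3⟩ := exists_admissible hK
    exact ⟨_, u, h1, h2, h3, rfl⟩
  · rintro E ⟨u, h1, h2, h3, rfl⟩
    exact dirichlet_ge hG hS hC h1 h2 h3

end Pool.Agent.Helper1.CK
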