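import Pool.Agent.Helper1.CK.Newton
import Pool.Agent.Helper1.CK.Deriv
import Pool.Agent.Helper1.CK.Cont

/-!
# Project CK (helper1), module Flux
The flux identity.
-/

set_option autoImplicit false

open MeasureTheory Set Filter Topology Metric
open scoped RealInnerProductSpace ENNReal NNReal

namespace Pool.Agent.Helper1.CK

private theorem phi_zero {φ : ℝ → ℝ} {δ ε : ℝ} (hφ : Adm φ δ ε) {h : ℝ} (hh : h ≤ δ) : φ h = 0 := by
  by_contra hne
  have : h ∈ tsupport φ := subset_tsupport φ hne
  exact absurd (hφ.supp this).1 (not_lt.2 hh)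

/-- the primitive of the cutoff -/
private noncomputable def Ph (φ : ℝ → ℝ) (h : ℝ) : ℝ := ∫ t in (0 : ℝ)..h, φ t

private theorem hasDerivAt_Ph {φ : ℝ → ℝ} {δ ε : ℝ} (hφ : Adm φ δ ε) (h : ℝ) :
    HasDerivAt (Ph φ) (φ h) h := by
  have hc : Continuous φ := hφ.smooth.continuous
  exact intervalIntegral.integral_hasDerivAt_right (hc.intervalIntegrable _ _)
    (hc.stronglyMeasurableAtFilter _ _) hc.continuousAt

private theorem Ph_low {φ : ℝ → ℝ} {δ ε : ℝ} (hφ : Adm φ δ ε) (hδ : 0 ≤ δ) {h : ℝ}
    (hh : h ≤ δ) : Ph φ h = 0 := by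
  unfold Ph
  have : ∀ t ∈ uIcc (0 : ℝ) h, φ t = (fun _ : ℝ => (0 : ℝ)) t := by
    intro t ht
    apply phi_zero hφ
    rw [mem_uIcc] at ht
    rcases ht with ht | ht
    · exact ht.2.trans hh
    · exact ht.2.trans hδ
  rw [intervalIntegral.integral_congr this]
  simp

private theorem Ph_high {φ : ℝ → ℝ} {δ ε : ℝ} (hφ : Adm φ δ ε) (hδ : 0 ≤ δ) {h : ℝ}
    (hh : ε ≤ h) : Ph φ h = ∫ t, φ t := by
  unfold Ph
  apply intervalIntegral.integral_eq_integral_of_support_subset
  intro t ht
  have h1 := hφ.supp (subset_tsupport φ ht)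
  exact ⟨lt_of_le_of_lt hδ h1.1, h1.2.le.trans hh⟩

/-- the test function -/
private noncomputable def chi (K : Set E3) (φ : ℝ → ℝ) (x : E3) : ℝ :=
  (∫ t, φ t) - Ph φ (infDist x K)

private theorem hasFDerivAt_chi {K : Set E3} (hK : Good K) {φ : ℝ → ℝ} {δ ε : ℝ}
    (hφ : Adm φ δ ε) (hδ : 0 ≤ δ) (x : E3) :
    HasFDerivAt (chi K φ) (-(φ (infDist x K) • innerSL ℝ (nn K x))) x := by
  have hcont : Continuous (fun y : E3 => infDist y K) := continuous_infDist_pt K
  rcases (infDist_nonneg (x := x) (s := K)).lt_or_eq with hx | hx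
  · have h1 := hasFDerivAt_infDist hK hx
    have h2 := (hasDerivAt_Ph hφ (infDist x K)).comp_hasFDerivAt x h1
    exact (h2.const_sub (∫ t, φ t))
  · have h0 : φ (infDist x K) = 0 := phi_zero hφ (by rw [← hx]; exact hδ)
    have hnt : infDist x K ∉ tsupport φ := by
      intro hm
      have := (hφ.supp hm).1
      rw [← hx] at this
      exact absurd hδ (not_le.2 this)
    have hopen : IsOpen (tsupport φ)ᶜ := (isClosed_tsupport φ).isOpen_compl
    obtain ⟨r, hr, hball⟩ := Metric.isOpen_iff.1 hopen (infDist x K) hnt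
    have hev : ∀ᶠ y in 𝓝 x, infDist y K ∈ ball (infDist x K) r :=
      hcont.continuousAt.eventually (ball_mem_nhds _ hr)
    have hconst : chi K φ =ᶠ[𝓝 x] fun _ => chi K φ x := by
      filter_upwards [hev] with y hy
      unfold chi Ph
      have hint : ∀ a b : ℝ, IntervalIntegrable φ volume a b := fun a b =>
        hφ.smooth.continuous.intervalIntegrable _ _
      have hadd := intervalIntegral.integral_add_adjacent_intervals
        (hint 0 (infDist x K)) (hint (infDist x K) (infDist y K))
      have hz : (∫ t in (infDist x K)..(infDist y K), φ t) = 0 := by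
        have hc0 : ∀ t ∈ uIcc (infDist x K) (infDist y K), φ t = (fun _ : ℝ => (0 : ℝ)) t := by
          intro t ht
          have hmem : t ∈ ball (infDist x K) r := by
            have hconv : Convex ℝ (ball (infDist x K) r) := convex_ball _ _
            have hsub : uIcc (infDist x K) (infDist y K) ⊆ ball (infDist x K) r :=
              (hconv.ordConnected).uIcc_subset (mem_ball_self hr) hy
            exact hsub ht
          have := hball hmem
          by_contra hne
          exact this (subset_tsupport φ hne)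
        rw [intervalIntegral.integral_congr hc0]
        simp
      rw [← hadd, hz, add_zero]
    rw [h0, zero_smul, neg_zero]
    exact (hasFDerivAt_const (chi K φ x) x).congr_of_eventuallyEq hconst

private theorem contDiff_chi {K : Set E3} (hK : Good K) {φ : ℝ → ℝ} {δ ε : ℝ}
    (hφ : Adm φ δ ε) (hδ : 0 ≤ δ) : ContDiff ℝ 1 (chi K φ) := by
  rw [contDiff_one_iff_fderiv]
  refine ⟨fun x => (hasFDerivAt_chi hK hφ hδ x).differentiableAt, ?_⟩
  have hf : fderiv ℝ (chi K φ) = fun x => -(φ (infDist x K) • innerSL ℝ (nn K x)) := by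
    funext x
    exact (hasFDerivAt_chi hK hφ hδ x).fderiv
  rw [hf, continuous_clm_apply]
  intro v
  have h1 : ContinuousOn (fun x : E3 => ⟪nn K x, v⟫) {x | δ < infDist x K} :=
    (continuousOn_nn hK hδ).inner continuousOn_const
  have h2 := (cont_cutoff hK hφ h1).1
  have h3 : (fun x : E3 => (-(φ (infDist x K) • innerSL ℝ (nn K x))) v)
      = fun x => -(φ (infDist x K) * ⟪nn K x, v⟫) := by
    funext x
    simp [innerSL_apply_apply]
  rw [h3]
  exact h2.neg

private theorem hasCompactSupport_chi {K : Set E3} (hK : Good K) {φ : ℝ → ℝ} {δ ε : ℝ}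
    (hφ : Adm φ δ ε) (hδ : 0 ≤ δ) : HasCompactSupport (chi K φ) := by
  refine HasCompactSupport.intro (hK.cpt.cthickening (r := ε)) ?_
  intro x hx
  have h1 : ε ≤ infDist x K := by
    by_contra hlt
    push Not at hlt
    apply hx
    rw [mem_cthickening_iff]
    have hne : infEDist x K ≠ ⊤ := infEDist_ne_top hK.ne
    have : infEDist x K = ENNReal.ofReal (infDist x K) := by
      rw [infDist, ENNReal.ofReal_toReal hne]
    rw [this]
    exact ENNReal.ofReal_le_ofReal hlt.le
  unfold chi
  rw [Ph_high hφ hδ h1, sub_self]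

theorem flux {K : Set E3} (hK : Good K) {φ : ℝ → ℝ} {δ ε : ℝ} (hφ : Adm φ δ ε) (hδ : 0 ≤ δ)
    {z : E3} (hz : infDist z K ≤ δ) :
    ∫ x, φ (infDist x K) * (ss K z x / ‖x - z‖ ^ 3) = 4 * Real.pi * ∫ h, φ h := by
  have h1 := newton (contDiff_chi hK hφ hδ) (hasCompactSupport_chi hK hφ hδ) z
  have h2 : chi K φ z = ∫ h, φ h := by
    unfold chi
    rw [Ph_low hφ hδ hz, sub_zero]
  have h3 : (fun x : E3 => fderiv ℝ (chi K φ) x (x - z) / ‖x - z‖ ^ 3)
      = fun x => -(φ (infDist x K) * (ss K z x / ‖x - z‖ ^ 3)) := by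
    funext x
    rw [(hasFDerivAt_chi hK hφ hδ x).fderiv]
    have : (-(φ (infDist x K) • innerSL ℝ (nn K x))) (x - z)
        = -(φ (infDist x K) * ss K z x) := by
      simp only [ContinuousLinearMap.neg_apply, ContinuousLinearMap.smul_apply,
        innerSL_apply_apply, smul_eq_mul, ss]
      rw [real_inner_comm]
    rw [this]
    ring
  rw [h3, integral_neg, h2] at h1
  linarith

end Pool.Agent.Helper1.CK
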