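import Mathlib
set_option autoImplicit false
open Complex MeasureTheory Set Metric Filter
open scoped Real Topology ComplexConjugate

/-! Project CK: the Gauss identity for `|g|^(-k) W v` (compact support, `g`, `v` holomorphic near
`supp W`). -/

namespace Pool.Agent.Helper1.CK

theorem integral_fderiv_zero {H : ℂ → ℂ} (h : ContDiff ℝ 1 H) (hc : HasCompactSupport H) (v : ℂ) :
    ∫ z, fderiv ℝ H z v = 0 := by
  have hcont : Continuous fun z => fderiv ℝ H z v :=
    (h.continuous_fderiv (by norm_num)).clm_apply continuous_const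
  have hcs : HasCompactSupport fun z => fderiv ℝ H z v := by
    have := hc.fderiv (𝕜 := ℝ)
    exact this.comp_left (g := fun L : ℂ →L[ℝ] ℂ => L v) (by simp)
  have hi : Integrable fun z => fderiv ℝ H z v := hcont.integrable_of_hasCompactSupport hcs
  have key := integral_smul_fderiv_eq_neg_fderiv_smul_of_integrable (μ := (volume : Measure ℂ))
    (f := fun _ : ℂ => (1:ℝ)) (g := H) (v := v) (by simp) (by simpa using hi)
    (by simpa using h.continuous.integrable_of_hasCompactSupport hc)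
    (fun x _ => differentiableAt_const _) (fun x _ => (h.differentiable (by norm_num)) x)
  simpa using key

/-- derivative of `‖g‖^(-k)` -/
theorem hasFDerivAt_rho {g : ℂ → ℂ} {g' : ℂ} {z : ℂ} (k : ℝ) (hg : HasDerivAt g g' z)
    (h0 : g z ≠ 0) :
    ∃ L : ℂ →L[ℝ] ℝ, HasFDerivAt (fun w => ‖g w‖ ^ (-k)) L z ∧
      ∀ u : ℂ, L u = -(k * ‖g z‖ ^ (-k) * (g' * u / g z).re) := by
  have hn : 0 < ‖g z‖ := norm_pos_iff.2 h0
  have h1 : HasFDerivAt (fun w => ‖g w‖ ^ 2) 
      (2 • (innerSL ℝ (g z)).comp ((ContinuousLinearMap.toSpanSingleton ℂ g').restrictScalars ℝ)) z := by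
    have := hg.hasFDerivAt.restrictScalars ℝ
    simpa using this.norm_sq
  have h2 := h1.rpow_const (p := -(k / 2)) (Or.inl (by positivity))
  have he : (fun w => ‖g w‖ ^ (-k)) = fun w => (‖g w‖ ^ 2) ^ (-(k / 2)) := by
    funext w
    rw [← Real.rpow_natCast, ← Real.rpow_mul (norm_nonneg _)]
    congr 1
    push_cast
    ring
  refine ⟨_, he ▸ h2, ?_⟩
  · intro u
    have e1 : (‖g z‖ ^ 2) ^ (-(k / 2) - 1) = ‖g z‖ ^ (-k) / ‖g z‖ ^ 2 := by
      rw [Real.rpow_sub (by positivity), Real.rpow_one]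
      congr 1
      rw [← Real.rpow_natCast, ← Real.rpow_mul (norm_nonneg _)]
      congr 1
      push_cast
      ring
    have e2 : (g' * u / g z).re = (inner ℝ (g z) (u * g')) / ‖g z‖ ^ 2 := by
      rw [Complex.inner, ← Complex.normSq_eq_norm_sq, Complex.div_re]
      simp only [mul_re, mul_im, conj_re, conj_im]
      ring
    simp only [ContinuousLinearMap.smul_apply, ContinuousLinearMap.comp_apply,
      ContinuousLinearMap.coe_restrictScalars', ContinuousLinearMap.toSpanSingleton_apply,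
      innerSL_apply_apply, smul_eq_mul, nsmul_eq_mul, e1, e2]
    push_cast
    ring

section
variable {W : ℂ → ℝ} {U : Set ℂ} {g v : ℂ → ℂ} {k : ℝ}

/-- the vector field `‖g‖^(-k) W v` -/
noncomputable def fld (k : ℝ) (g v : ℂ → ℂ) (W : ℂ → ℝ) (z : ℂ) : ℂ :=
  ((‖g z‖ ^ (-k) * W z : ℝ) : ℂ) * v z

theorem fld_zero_of_notMem {z : ℂ} (hz : z ∉ tsupport W) :
    fld k g v W =ᶠ[𝓝 z] fun _ => 0 := by
  have : W =ᶠ[𝓝 z] 0 := notMem_tsupport_iff_eventuallyEq.1 hz
  filter_upwards [this] with w hw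
  simp [fld, hw]

theorem fld_contDiff (hW : ContDiff ℝ 1 W) (hU : IsOpen U) (hWU : tsupport W ⊆ U)
    (hg : DifferentiableOn ℂ g U) (hv : DifferentiableOn ℂ v U) (h0 : ∀ z ∈ U, g z ≠ 0) :
    ContDiff ℝ 1 (fld k g v W) := by
  rw [contDiff_iff_contDiffAt]
  intro z
  by_cases hz : z ∈ tsupport W
  · have hzU := hWU hz
    have g1 : ContDiffAt ℝ 1 g z :=
      ((hg.analyticOnNhd hU z hzU).contDiffAt (n := 1)).restrict_scalars ℝ
    have v1 : ContDiffAt ℝ 1 v z :=
      ((hv.analyticOnNhd hU z hzU).contDiffAt (n := 1)).restrict_scalars ℝ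
    have n1 : ContDiffAt ℝ 1 (fun w => ‖g w‖) z := g1.norm ℝ (h0 z hzU)
    have r1 : ContDiffAt ℝ 1 (fun w => ‖g w‖ ^ (-k)) z :=
      n1.rpow_const_of_ne (norm_ne_zero_iff.2 (h0 z hzU))
    have w1 : ContDiffAt ℝ 1 (fun w => ((‖g w‖ ^ (-k) * W w : ℝ) : ℂ)) z :=
      Complex.ofRealCLM.contDiff.contDiffAt.comp z (r1.mul hW.contDiffAt)
    exact w1.mul v1
  · exact contDiffAt_const.congr_of_eventuallyEq (fld_zero_of_notMem hz)

theorem fld_hasCompactSupport (hc : HasCompactSupport W) : HasCompactSupport (fld k g v W) := by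
  refine hc.mono' ?_
  intro z hz
  by_contra h
  exact hz (by have := (fld_zero_of_notMem (k := k) (g := g) (v := v) h).self_of_nhds; simpa using this)

theorem fld_div (hW : ContDiff ℝ 1 W) (hU : IsOpen U) (hWU : tsupport W ⊆ U)
    (hg : DifferentiableOn ℂ g U) (hv : DifferentiableOn ℂ v U) (h0 : ∀ z ∈ U, g z ≠ 0) (z : ℂ) :
    (fderiv ℝ (fld k g v W) z 1).re + (fderiv ℝ (fld k g v W) z I).im =
      ‖g z‖ ^ (-k) * (2 * W z * (deriv v z).re + fderiv ℝ W z (v z)
        - k * W z * (deriv g z / g z * v z).re) := by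
  by_cases hz : z ∈ tsupport W
  · have hzU := hWU hz
    have gd : HasDerivAt g (deriv g z) z := (hg.differentiableAt (hU.mem_nhds hzU)).hasDerivAt
    have vd : HasDerivAt v (deriv v z) z := (hv.differentiableAt (hU.mem_nhds hzU)).hasDerivAt
    obtain ⟨L, hL, hLu⟩ := hasFDerivAt_rho k gd (h0 z hzU)
    have wd : HasFDerivAt W (fderiv ℝ W z) z := (hW.differentiable (by norm_num) z).hasFDerivAt
    have h1 := (Complex.ofRealCLM.hasFDerivAt.comp z (hL.mul wd)).mul
      (vd.hasFDerivAt.restrictScalars ℝ)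
    have h2 : HasFDerivAt (fld k g v W) _ z := h1
    rw [h2.fderiv]
    have split : v z = ((v z).re : ℂ) * 1 + ((v z).im : ℂ) * I := by simp
    have wv : fderiv ℝ W z (v z) = (v z).re * fderiv ℝ W z 1 + (v z).im * fderiv ℝ W z I := by
      conv_lhs => rw [split]
      have e1 : ((v z).re : ℂ) * 1 = (v z).re • (1:ℂ) := by simp
      have e2 : ((v z).im : ℂ) * I = (v z).im • I := by simp
      rw [e1, e2, map_add, map_smul, map_smul]
      simp
    have lv : L (v z) = (v z).re * L 1 + (v z).im * L I := by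
      conv_lhs => rw [split]
      have e1 : ((v z).re : ℂ) * 1 = (v z).re • (1:ℂ) := by simp
      have e2 : ((v z).im : ℂ) * I = (v z).im • I := by simp
      rw [e1, e2, map_add, map_smul, map_smul]
      simp
    have key : L (v z) = -(k * ‖g z‖ ^ (-k) * (deriv g z / g z * v z).re) := by
      rw [hLu, div_mul_eq_mul_div]
    have fin : (v z).re * (L 1) + (v z).im * L I =
        -(k * ‖g z‖ ^ (-k) * (deriv g z / g z * v z).re) := by rw [← lv, key]
    rw [mul_re] at fin
    simp only [ContinuousLinearMap.add_apply, ContinuousLinearMap.smul_apply, smul_eq_mul,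
      Function.comp_apply, Pi.mul_apply, ContinuousLinearMap.comp_apply,
      ContinuousLinearMap.coe_restrictScalars',
      ContinuousLinearMap.toSpanSingleton_apply, Complex.ofRealCLM_apply, add_re, mul_re, add_im, mul_im,
      ofReal_re, ofReal_im, one_re, one_im, I_re, I_im]
    rw [wv]
    linear_combination (W z) * fin
  · have hW0 : W =ᶠ[𝓝 z] 0 := notMem_tsupport_iff_eventuallyEq.1 hz
    have f0 : fderiv ℝ (fld k g v W) z = 0 := by
      rw [(fld_zero_of_notMem (k := k) (g := g) (v := v) hz).fderiv_eq]; simp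
    have w0 : fderiv ℝ W z = 0 := by rw [hW0.fderiv_eq]; simp
    have wz : W z = 0 := by simpa using hW0.self_of_nhds
    rw [f0, w0, wz]
    simp

/-- **Gauss**: `∫ ‖g‖^(-k) (2 W Re v' + dW[v] - k W Re (g'/g v)) = 0`. -/
theorem gauss (hW : ContDiff ℝ 1 W) (hc : HasCompactSupport W) (hU : IsOpen U)
    (hWU : tsupport W ⊆ U) (hg : DifferentiableOn ℂ g U) (hv : DifferentiableOn ℂ v U)
    (h0 : ∀ z ∈ U, g z ≠ 0) :
    ∫ z, ‖g z‖ ^ (-k) * (2 * W z * (deriv v z).re + fderiv ℝ W z (v z)
        - k * W z * (deriv g z / g z * v z).re) = 0 := by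
  have hd : ContDiff ℝ 1 (fld k g v W) := fld_contDiff hW hU hWU hg hv h0
  have hcs : HasCompactSupport (fld k g v W) := fld_hasCompactSupport hc
  have i1 : ∀ u : ℂ, Integrable fun z => fderiv ℝ (fld k g v W) z u := fun u =>
    ((hd.continuous_fderiv (by norm_num)).clm_apply continuous_const).integrable_of_hasCompactSupport
      ((hcs.fderiv (𝕜 := ℝ)).comp_left (g := fun L : ℂ →L[ℝ] ℂ => L u) (by simp))
  have e : ∀ z, ‖g z‖ ^ (-k) * (2 * W z * (deriv v z).re + fderiv ℝ W z (v z)
        - k * W z * (deriv g z / g z * v z).re) =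
      (fderiv ℝ (fld k g v W) z 1).re + (fderiv ℝ (fld k g v W) z I).im := fun z =>
    (fld_div hW hU hWU hg hv h0 z).symm
  simp_rw [e]
  have r1 : ∫ z, (fderiv ℝ (fld k g v W) z 1).re = 0 := by
    have := integral_re (𝕜 := ℂ) (i1 1)
    simp only [RCLike.re_to_complex] at this
    rw [this, integral_fderiv_zero hd hcs]; simp
  have r2 : ∫ z, (fderiv ℝ (fld k g v W) z I).im = 0 := by
    have := integral_im (𝕜 := ℂ) (i1 I)
    simp only [RCLike.im_to_complex] at this
    rw [this, integral_fderiv_zero hd hcs]; simp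
  have s1 : Integrable fun z => (fderiv ℝ (fld k g v W) z 1).re := by simpa using (i1 1).re
  have s2 : Integrable fun z => (fderiv ℝ (fld k g v W) z I).im := by simpa using (i1 I).im
  rw [integral_add s1 s2, r1, r2, add_zero]

end

end Pool.Agent.Helper1.CK
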