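import Pool.Agent.Helper1.CK.DivInt
import Pool.Agent.Helper1.CK.Flux

/-!
# Project CK (helper1), module MainPhi
The main inequality with a cutoff function.
-/

set_option autoImplicit false

open MeasureTheory Set Filter Topology Metric
open scoped RealInnerProductSpace ENNReal NNReal

namespace Pool.Agent.Helper1.CK

theorem main_phi {K : Set E3} (hK : Good K) {φ : ℝ → ℝ} {δ ε : ℝ} (hφ : Adm φ δ ε) (hδ : 0 ≤ δ)
    {z : E3} (hz : infDist z K ≤ δ) {τ : ℝ} (hτ : 0 < τ) :
    ∫ x, φ (infDist x K) / ‖x - z‖ ≤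
      (1 / τ) * (∫ x, φ (infDist x K)) + 2 * Real.pi * τ * ∫ h, φ h := by
  have i00 := integrable_weight hK hφ hδ hz 0 0
  have i01 := integrable_weight hK hφ hδ hz 0 1
  have i11 := integrable_weight hK hφ hδ hz 1 1
  have i13 := integrable_weight hK hφ hδ hz 1 3
  simp only [pow_zero, pow_one, div_one, mul_one] at i00 i01 i11 i13
  have hdiv := div_int hK hφ hδ hz τ
  have hfl := flux hK hφ hδ hz
  have hpos : 0 ≤ ∫ x, φ (infDist x K) * (ss K z x / ‖x - z‖) := by
    refine integral_nonneg fun x => ?_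
    show 0 ≤ φ (infDist x K) * (ss K z x / ‖x - z‖)
    by_cases hx : φ (infDist x K) = 0
    · simp [hx]
    · have hmem : infDist x K ∈ Ioo δ ε := hφ.supp (subset_tsupport _ hx)
      have h0 : 0 < infDist x K := lt_of_le_of_lt hδ hmem.1
      have h1 : 0 ≤ ss K z x :=
        le_trans (by linarith [hmem.1]) (ss_ge hK h0 z)
      exact mul_nonneg (hφ.nonneg _) (div_nonneg h1 (norm_nonneg _))
  have key : ∫ x, φ (infDist x K) * (2 - 2 * τ / ‖x - z‖ - ss K z x / ‖x - z‖
          + τ ^ 2 * ss K z x / ‖x - z‖ ^ 3) =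
      2 * (∫ x, φ (infDist x K)) - 2 * τ * (∫ x, φ (infDist x K) / ‖x - z‖)
        - (∫ x, φ (infDist x K) * (ss K z x / ‖x - z‖))
        + τ ^ 2 * (∫ x, φ (infDist x K) * (ss K z x / ‖x - z‖ ^ 3)) := by
    have e : ∀ x, φ (infDist x K) * (2 - 2 * τ / ‖x - z‖ - ss K z x / ‖x - z‖
          + τ ^ 2 * ss K z x / ‖x - z‖ ^ 3) =
        2 * φ (infDist x K) - 2 * τ * (φ (infDist x K) * (1 / ‖x - z‖))
        - φ (infDist x K) * (ss K z x / ‖x - z‖)
        + τ ^ 2 * (φ (infDist x K) * (ss K z x / ‖x - z‖ ^ 3)) := by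
      intro x; ring
    have e2 : ∀ x, φ (infDist x K) / ‖x - z‖ = φ (infDist x K) * (1 / ‖x - z‖) := by
      intro x; ring
    simp_rw [e, e2]
    rw [integral_add, integral_sub, integral_sub, integral_const_mul, integral_const_mul,
      integral_const_mul]
    · exact i00.const_mul 2
    · exact i01.const_mul (2 * τ)
    · exact (i00.const_mul 2).sub (i01.const_mul (2 * τ))
    · exact i11
    · exact ((i00.const_mul 2).sub (i01.const_mul (2 * τ))).sub i11
    · exact i13.const_mul (τ ^ 2)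
  rw [key, hfl] at hdiv
  set A := ∫ x, φ (infDist x K)
  set B := ∫ x, φ (infDist x K) / ‖x - z‖
  set C := ∫ x, φ (infDist x K) * (ss K z x / ‖x - z‖)
  set D := ∫ h, φ h
  have h2 : 2 * τ * B ≤ 2 * A + 4 * Real.pi * τ ^ 2 * D := by nlinarith
  have h3 : B = (2 * τ)⁻¹ * (2 * τ * B) := by field_simp
  rw [h3]
  calc (2 * τ)⁻¹ * (2 * τ * B) ≤ (2 * τ)⁻¹ * (2 * A + 4 * Real.pi * τ ^ 2 * D) :=
        mul_le_mul_of_nonneg_left h2 (by positivity)
    _ = 1 / τ * A + 2 * Real.pi * τ * D := by field_simp; ring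

end Pool.Agent.Helper1.CK
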