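import Pool.Agent.Helper1.CK.MainPhi

/-!
# Project CK (helper1), module MainSet
The main inequality for the outer shell.
-/

set_option autoImplicit false

open MeasureTheory Set Filter Topology Metric
open scoped RealInnerProductSpace ENNReal NNReal

namespace Pool.Agent.Helper1.CK

/-- a sequence of admissible cutoff functions increasing to the indicator of `(δ, ε)` -/
theorem exists_cutoffs {δ ε : ℝ} (h : δ < ε) : ∃ φ : ℕ → ℝ → ℝ, (∀ k, Adm (φ k) δ ε) ∧
    (∀ k t, φ k t ≤ 1) ∧ (∀ t ∈ Ioo δ ε, Tendsto (fun k => φ k t) atTop (𝓝 1)) := by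
  have _ := h
  let φ : ℕ → ℝ → ℝ := fun k t =>
    Real.smoothTransition (((k : ℝ) + 1) * (t - δ) - 1) *
      Real.smoothTransition (((k : ℝ) + 1) * (ε - t) - 1)
  have hsupp : ∀ k, tsupport (φ k) ⊆ Icc (δ + 1 / ((k : ℝ) + 1)) (ε - 1 / ((k : ℝ) + 1)) := by
    intro k
    refine closure_minimal ?_ isClosed_Icc
    intro t ht
    have hk : (0 : ℝ) < (k : ℝ) + 1 := by positivity
    have ht' : φ k t ≠ 0 := ht
    have h1 : Real.smoothTransition (((k : ℝ) + 1) * (t - δ) - 1) ≠ 0 := left_ne_zero_of_mul ht'
    have h2 : Real.smoothTransition (((k : ℝ) + 1) * (ε - t) - 1) ≠ 0 := right_ne_zero_of_mul ht'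
    have h3 : 0 < ((k : ℝ) + 1) * (t - δ) - 1 := by
      by_contra hc
      exact h1 (Real.smoothTransition.zero_of_nonpos (not_lt.mp hc))
    have h4 : 0 < ((k : ℝ) + 1) * (ε - t) - 1 := by
      by_contra hc
      exact h2 (Real.smoothTransition.zero_of_nonpos (not_lt.mp hc))
    constructor
    · have h5 : 1 / ((k : ℝ) + 1) ≤ t - δ := by
        rw [div_le_iff₀ hk]; linarith
      linarith
    · have h5 : 1 / ((k : ℝ) + 1) ≤ ε - t := by
        rw [div_le_iff₀ hk]; linarith
      linarith
  refine ⟨φ, fun k => ⟨?_, ?_, ?_, ?_⟩, ?_, ?_⟩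
  · have h1 : ContDiff ℝ 1 Real.smoothTransition := Real.smoothTransition.contDiff
    exact (h1.comp (by fun_prop)).mul (h1.comp (by fun_prop))
  · intro t
    exact mul_nonneg (Real.smoothTransition.nonneg _) (Real.smoothTransition.nonneg _)
  · exact HasCompactSupport.of_support_subset_isCompact isCompact_Icc
      ((subset_tsupport _).trans (hsupp k))
  · refine (hsupp k).trans ?_
    intro t ht
    have hk : (0 : ℝ) < 1 / ((k : ℝ) + 1) := by positivity
    exact ⟨by linarith [ht.1], by linarith [ht.2]⟩
  · intro k t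
    have h1 := Real.smoothTransition.le_one (((k : ℝ) + 1) * (t - δ) - 1)
    have h2 := Real.smoothTransition.le_one (((k : ℝ) + 1) * (ε - t) - 1)
    have h3 := Real.smoothTransition.nonneg (((k : ℝ) + 1) * (t - δ) - 1)
    exact mul_le_one₀ h1 (Real.smoothTransition.nonneg _) h2
  · intro t ht
    have h1 : 0 < t - δ := by linarith [ht.1]
    have h2 : 0 < ε - t := by linarith [ht.2]
    obtain ⟨N1, hN1⟩ := exists_nat_gt (2 / (t - δ))
    obtain ⟨N2, hN2⟩ := exists_nat_gt (2 / (ε - t))
    refine tendsto_const_nhds.congr' ?_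
    filter_upwards [eventually_ge_atTop (max N1 N2)] with k hk
    have hk1 : (N1 : ℝ) ≤ k := by exact_mod_cast (le_max_left _ _).trans hk
    have hk2 : (N2 : ℝ) ≤ k := by exact_mod_cast (le_max_right _ _).trans hk
    have h3 : 2 < (k : ℝ) * (t - δ) := by
      have := (div_lt_iff₀ h1).mp (hN1.trans_le hk1)
      exact this
    have h4 : 2 < (k : ℝ) * (ε - t) := by
      have := (div_lt_iff₀ h2).mp (hN2.trans_le hk2)
      exact this
    have e1 : Real.smoothTransition (((k : ℝ) + 1) * (t - δ) - 1) = 1 :=
      Real.smoothTransition.one_of_one_le (by nlinarith)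
    have e2 : Real.smoothTransition (((k : ℝ) + 1) * (ε - t) - 1) = 1 :=
      Real.smoothTransition.one_of_one_le (by nlinarith)
    show (1 : ℝ) = Real.smoothTransition (((k : ℝ) + 1) * (t - δ) - 1) *
      Real.smoothTransition (((k : ℝ) + 1) * (ε - t) - 1)
    rw [e1, e2, mul_one]

theorem main_set {K : Set E3} (hK : Good K) {z : E3} {ε τ : ℝ} (hτ : 0 < τ)
    (hε : infDist z K < ε) :
    ∫⁻ x in {x | infDist z K < infDist x K ∧ infDist x K < ε}, (edist x z)⁻¹ ≤
      ENNReal.ofReal (1 / τ) * volume {x | infDist z K < infDist x K ∧ infDist x K < ε}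
        + ENNReal.ofReal (2 * Real.pi * τ * (ε - infDist z K)) := by
  obtain ⟨φ, hA, h1, hlim⟩ := exists_cutoffs hε
  set δ := infDist z K with hδ
  have hδ0 : 0 ≤ δ := infDist_nonneg
  set B : Set E3 := {x | δ < infDist x K ∧ infDist x K < ε} with hB
  have hBo : IsOpen B :=
    (isOpen_lt continuous_const (continuous_infDist_pt K)).inter
      (isOpen_lt (continuous_infDist_pt K) continuous_const)
  have hBm : MeasurableSet B := hBo.measurableSet
  -- zero outside the shell
  have hout : ∀ k x, x ∉ B → φ k (infDist x K) = 0 := by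
    intro k x hx
    by_contra hne
    exact hx ((hA k).supp (subset_tsupport _ hne))
  have hint0 : ∀ k, Integrable (fun x => φ k (infDist x K)) := by
    intro k
    have := integrable_weight hK (hA k) hδ0 hδ.ge 0 0
    simpa using this
  have hint1 : ∀ k, Integrable (fun x => φ k (infDist x K) / ‖x - z‖) := by
    intro k
    have := integrable_weight hK (hA k) hδ0 hδ.ge 0 1
    refine this.congr (ae_of_all _ fun x => ?_)
    simp only [pow_zero, pow_one]
    ring
  -- bound of each integral
  have hbd : ∀ k, ∫⁻ x, ENNReal.ofReal (φ k (infDist x K) / ‖x - z‖) ≤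
      ENNReal.ofReal (1 / τ) * volume B + ENNReal.ofReal (2 * Real.pi * τ * (ε - δ)) := by
    intro k
    rw [← ofReal_integral_eq_lintegral_ofReal (hint1 k)
      (ae_of_all _ fun x => div_nonneg ((hA k).nonneg _) (norm_nonneg _))]
    have hm := main_phi hK (hA k) hδ0 hδ.ge hτ
    refine (ENNReal.ofReal_le_ofReal hm).trans ?_
    have hi0 : 0 ≤ ∫ x, φ k (infDist x K) := integral_nonneg fun x => (hA k).nonneg _
    have hi1 : 0 ≤ ∫ h, φ k h := integral_nonneg fun x => (hA k).nonneg _
    have hpi := Real.pi_pos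
    rw [ENNReal.ofReal_add (by positivity) (by positivity), ENNReal.ofReal_mul (by positivity)]
    refine add_le_add (mul_le_mul_right ?_ _) (ENNReal.ofReal_le_ofReal ?_)
    · rw [ofReal_integral_eq_lintegral_ofReal (hint0 k) (ae_of_all _ fun x => (hA k).nonneg _)]
      calc ∫⁻ x, ENNReal.ofReal (φ k (infDist x K)) ≤ ∫⁻ x, B.indicator 1 x := by
            refine lintegral_mono fun x => ?_
            by_cases hx : x ∈ B
            · simp only [hx, indicator_of_mem, Pi.one_apply]
              have := ENNReal.ofReal_le_ofReal (h1 k (infDist x K))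
              simpa using this
            · simp [hout k x hx]
        _ = volume B := by rw [lintegral_indicator_one hBm]
    · refine mul_le_mul_of_nonneg_left ?_ (by positivity)
      have hle : ∫ h, φ k h ≤ ∫ h, (Ioo δ ε).indicator (fun _ => (1 : ℝ)) h := by
        refine integral_mono ?_ ?_ fun t => ?_
        · exact (hA k).smooth.continuous.integrable_of_hasCompactSupport (hA k).cpt
        · rw [integrable_indicator_iff measurableSet_Ioo]
          exact integrableOn_const (by simp) (by simp)
        · by_cases ht : t ∈ Ioo δ ε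
          · simp only [ht, indicator_of_mem]
            exact h1 k t
          · have h0 : φ k t = 0 := by
              by_contra hne
              exact ht ((hA k).supp (subset_tsupport _ hne))
            simp [ht, h0]
      refine hle.trans ?_
      rw [integral_indicator measurableSet_Ioo]
      simp [hε.le]
  -- Fatou
  have hmeas : ∀ k, Measurable (fun x => ENNReal.ofReal (φ k (infDist x K) / ‖x - z‖)) := by
    intro k
    have hc : Measurable (fun x => φ k (infDist x K)) :=
      ((hA k).smooth.continuous.comp (continuous_infDist_pt K)).measurable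
    exact (hc.div (by fun_prop)).ennreal_ofReal
  have hF : ∫⁻ x, liminf (fun k => ENNReal.ofReal (φ k (infDist x K) / ‖x - z‖)) atTop ≤
      liminf (fun k => ∫⁻ x, ENNReal.ofReal (φ k (infDist x K) / ‖x - z‖)) atTop :=
    lintegral_liminf_le hmeas
  have hpt : ∀ x, B.indicator (fun x => (edist x z)⁻¹) x ≤
      liminf (fun k => ENNReal.ofReal (φ k (infDist x K) / ‖x - z‖)) atTop := by
    intro x
    by_cases hx : x ∈ B
    · simp only [hx, indicator_of_mem]
      have hxz : 0 < ‖x - z‖ := by
        rw [norm_pos_iff, sub_ne_zero]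
        rintro rfl
        exact lt_irrefl _ hx.1
      have ht : Tendsto (fun k => ENNReal.ofReal (φ k (infDist x K) / ‖x - z‖)) atTop
          (𝓝 (ENNReal.ofReal (1 / ‖x - z‖))) :=
        (ENNReal.continuous_ofReal.tendsto _).comp ((hlim _ hx).div_const _)
      rw [ht.liminf_eq, one_div, ENNReal.ofReal_inv_of_pos hxz, ← dist_eq_norm, ← edist_dist]
    · simp [hx]
  calc ∫⁻ x in B, (edist x z)⁻¹ = ∫⁻ x, B.indicator (fun x => (edist x z)⁻¹) x := by
        rw [lintegral_indicator hBm]
    _ ≤ ∫⁻ x, liminf (fun k => ENNReal.ofReal (φ k (infDist x K) / ‖x - z‖)) atTop :=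
        lintegral_mono hpt
    _ ≤ liminf (fun k => ∫⁻ x, ENNReal.ofReal (φ k (infDist x K) / ‖x - z‖)) atTop := hF
    _ ≤ liminf (fun _ : ℕ => ENNReal.ofReal (1 / τ) * volume B +
          ENNReal.ofReal (2 * Real.pi * τ * (ε - δ))) atTop :=
        liminf_le_liminf (Eventually.of_forall hbd)
    _ = ENNReal.ofReal (1 / τ) * volume B + ENNReal.ofReal (2 * Real.pi * τ * (ε - δ)) := by
        simp

end Pool.Agent.Helper1.CK
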