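import Pool.Agent.Helper1.CK.Polar

/-!
# Project CK (helper1), module Newton
Newton's formula: the fundamental solution of the Laplacian.
-/

set_option autoImplicit false

open MeasureTheory Set Filter Topology Metric
open scoped RealInnerProductSpace ENNReal NNReal

namespace Pool.Agent.Helper1.CK

theorem newton_integrable {χ : E3 → ℝ} (hχ : ContDiff ℝ 1 χ) (hc : HasCompactSupport χ) (z : E3) :
    Integrable (fun x => fderiv ℝ χ x (x - z) / ‖x - z‖ ^ 3) := by
  set F : E3 → ℝ := fun y => fderiv ℝ χ (y + z) y / ‖y‖ ^ 3 with hF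
  have hcf : Continuous (fderiv ℝ χ) := hχ.continuous_fderiv one_ne_zero
  have hFm : Measurable F := by
    have h1 : Continuous (fun y : E3 => fderiv ℝ χ (y + z) y) :=
      (hcf.comp (continuous_id.add continuous_const)).clm_apply continuous_id
    exact h1.measurable.div (by fun_prop)
  obtain ⟨C, hC⟩ : ∃ C, ∀ x, ‖fderiv ℝ χ x‖ ≤ C :=
    hcf.bounded_above_of_compact_support (hc.fderiv ℝ)
  have hC0 : 0 ≤ C := (norm_nonneg _).trans (hC 0)
  obtain ⟨R, hR0, hR⟩ := hc.isBounded.subset_ball_lt 0 z
  have hz : ∀ y : E3, R ≤ ‖y‖ → F y = 0 := by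
    intro y hy
    have h1 : y + z ∉ tsupport χ := by
      intro h
      have := hR h
      rw [mem_ball, dist_eq_norm] at this
      simp only [add_sub_cancel_right] at this
      linarith
    have h2 : fderiv ℝ χ (y + z) = 0 := by
      by_contra h
      exact h1 (support_fderiv_subset ℝ h)
    simp [hF, h2]
  have hFi : Integrable F := by
    have hg : IntegrableOn (fun x : E3 => C / ‖x‖ ^ 2) (ball (0 : E3) R) := by
      have := (integrableOn_fun_norm_addHaar (E := E3) (volume : Measure E3) (r := R)
        (f := fun t : ℝ => C / t ^ 2)).2 ?_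
      · exact this
      · have h3 : Module.finrank ℝ E3 - 1 = 2 := by simp
        rw [h3]
        have h4 : IntegrableOn (fun _ : ℝ => C) (Ioo 0 R) := by
          have hv : volume (Ioo (0 : ℝ) R) ≠ ⊤ := by simp
          have hcc : ‖C‖ₑ ≠ ⊤ := by simp
          exact integrableOn_const hv hcc
        refine h4.congr_fun ?_ measurableSet_Ioo
        intro t ht
        have : t ≠ 0 := ht.1.ne'
        simp only [smul_eq_mul]
        field_simp
    have hg' : Integrable ((ball (0 : E3) R).indicator (fun x : E3 => C / ‖x‖ ^ 2)) :=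
      (integrable_indicator_iff measurableSet_ball).2 hg
    refine hg'.mono' hFm.aestronglyMeasurable (Filter.Eventually.of_forall ?_)
    intro y
    by_cases hy : ‖y‖ < R
    · rw [indicator_of_mem (by simpa using hy)]
      simp only [hF, norm_div, norm_pow, norm_norm]
      rcases eq_or_ne y 0 with rfl | h0
      · simp
      · have hy0 : 0 < ‖y‖ := norm_pos_iff.2 h0
        have h5 : ‖fderiv ℝ χ (y + z) y‖ ≤ C * ‖y‖ :=
          (ContinuousLinearMap.le_opNorm _ _).trans
            (mul_le_mul_of_nonneg_right (hC _) (norm_nonneg _))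
        rw [div_le_div_iff₀ (by positivity) (by positivity)]
        calc ‖fderiv ℝ χ (y + z) y‖ * ‖y‖ ^ 2 ≤ (C * ‖y‖) * ‖y‖ ^ 2 :=
              mul_le_mul_of_nonneg_right h5 (by positivity)
          _ = C * ‖y‖ ^ 3 := by ring
    · rw [indicator_of_notMem (by simpa using hy), hz y (not_lt.1 hy)]
      simp
  have := hFi.comp_sub_right z
  simpa [hF] using this

theorem newton {χ : E3 → ℝ} (hχ : ContDiff ℝ 1 χ) (hc : HasCompactSupport χ) (z : E3) :
    ∫ x, fderiv ℝ χ x (x - z) / ‖x - z‖ ^ 3 = -(4 * Real.pi) * χ z := by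
  rw [integral_polar _ (newton_integrable hχ hc z) z]
  have key : ∀ ω : sphere (0 : E3) 1, (∫ r in Ioi (0 : ℝ),
      r ^ 2 * (fderiv ℝ χ (z + r • (ω : E3)) (z + r • (ω : E3) - z) /
        ‖z + r • (ω : E3) - z‖ ^ 3)) = - χ z := by
    intro ω
    have hω : ‖(ω : E3)‖ = 1 := by simp
    set u : ℝ → E3 := fun r => z + r • (ω : E3) with hu
    have huc : ContDiff ℝ 1 u := by
      rw [hu]; fun_prop
    have hui : Isometry u := by
      refine Isometry.of_dist_eq fun a b => ?_
      rw [hu]
      simp only [dist_eq_norm, add_sub_add_left_eq_sub, ← sub_smul, norm_smul, hω, mul_one]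
    have h1 : ContDiff ℝ 1 (χ ∘ u) := hχ.comp huc
    have h2 : HasCompactSupport (χ ∘ u) := hc.comp_isClosedEmbedding hui.isClosedEmbedding
    have h3 := h2.integral_Ioi_deriv_eq h1 0
    have h4 : ∫ x in Ioi (0 : ℝ), deriv (χ ∘ u) x = ∫ r in Ioi (0 : ℝ),
        r ^ 2 * (fderiv ℝ χ (z + r • (ω : E3)) (z + r • (ω : E3) - z) /
        ‖z + r • (ω : E3) - z‖ ^ 3) := by
      refine setIntegral_congr_fun measurableSet_Ioi ?_
      intro r hr
      have hr0 : 0 < r := hr
      have h5 : HasDerivAt u (ω : E3) r := by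
        have := ((hasDerivAt_id r).smul_const (ω : E3)).const_add z
        simpa [hu] using this
      have h6 : HasDerivAt (χ ∘ u) (fderiv ℝ χ (u r) (ω : E3)) r :=
        ((hχ.differentiable one_ne_zero (u r)).hasFDerivAt).comp_hasDerivAt r h5
      simp only
      rw [h6.deriv]
      simp only [add_sub_cancel_left, map_smul, smul_eq_mul, norm_smul, hω, mul_one,
        Real.norm_eq_abs, abs_of_pos hr0, hu]
      field_simp
    rw [← h4, h3]
    simp [hu]
  simp only [key]
  rw [integral_const, sphere_area]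
  simp

end Pool.Agent.Helper1.CK
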