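import Pool.Agent.Helper1.CK.Defs

/-!
# Project CK (helper1), module Polar
Polar coordinates in 3-space.
-/

set_option autoImplicit false

open MeasureTheory Set Filter Topology Metric
open scoped RealInnerProductSpace ENNReal NNReal

namespace Pool.Agent.Helper1.CK

private theorem finrank_E3 : Module.finrank ℝ E3 = 3 := by simp [E3]

private theorem lintegral_polar_zero (f : E3 → ℝ≥0∞) (hf : Measurable f) :
    ∫⁻ x, f x = ∫⁻ ω : sphere (0 : E3) 1, (∫⁻ r in Ioi (0 : ℝ),
      ENNReal.ofReal (r ^ 2) * f (r • (ω : E3))) ∂(volume : Measure E3).toSphere := by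
  have h0 : (∫⁻ x, f x) = ∫⁻ x in ({(0 : E3)}ᶜ : Set E3), f x := by
    rw [restrict_compl_singleton]
  have h1 : (∫⁻ x in ({(0 : E3)}ᶜ : Set E3), f x)
      = ∫⁻ x : ({(0 : E3)}ᶜ : Set E3), f x ∂(Measure.comap (↑) (volume : Measure E3)) := by
    rw [lintegral_subtype_comap (measurableSet_singleton _).compl]
  have hm : Measurable (fun p : sphere (0 : E3) 1 × Ioi (0 : ℝ) => f ((p.2 : ℝ) • (p.1 : E3))) := by
    apply hf.comp
    exact (measurable_subtype_coe.comp measurable_snd).smul
      (measurable_subtype_coe.comp measurable_fst)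
  have h2 : (∫⁻ x : ({(0 : E3)}ᶜ : Set E3), f x ∂(Measure.comap (↑) (volume : Measure E3)))
      = ∫⁻ p : sphere (0 : E3) 1 × Ioi (0 : ℝ), f ((p.2 : ℝ) • (p.1 : E3))
        ∂((volume : Measure E3).toSphere.prod (Measure.volumeIoiPow (Module.finrank ℝ E3 - 1))) := by
    have := ((volume : Measure E3).measurePreserving_homeomorphUnitSphereProd).lintegral_comp_emb
      (Homeomorph.measurableEmbedding _)
      (fun p : sphere (0 : E3) 1 × Ioi (0 : ℝ) => f ((p.2 : ℝ) • (p.1 : E3)))
    rw [← this]
    apply lintegral_congr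
    intro x
    congr 1
    have h3 := homeomorphUnitSphereProd_symm_apply_coe E3 (homeomorphUnitSphereProd E3 x)
    rw [Homeomorph.symm_apply_apply] at h3
    exact h3
  rw [h0, h1, h2, lintegral_prod _ hm.aemeasurable]
  apply lintegral_congr
  intro ω
  rw [finrank_E3, Measure.volumeIoiPow]
  have hm2 : Measurable (fun r : Ioi (0 : ℝ) => f ((r : ℝ) • (ω : E3))) :=
    hf.comp (measurable_subtype_coe.smul measurable_const)
  have hm3 : Measurable (fun r : Ioi (0 : ℝ) => ENNReal.ofReal ((r : ℝ) ^ (3 - 1))) :=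
    ENNReal.measurable_ofReal.comp (measurable_subtype_coe.pow_const _)
  rw [lintegral_withDensity_eq_lintegral_mul _ hm3 hm2]
  simp only [Pi.mul_apply]
  exact lintegral_subtype_comap measurableSet_Ioi
    (fun r : ℝ => ENNReal.ofReal (r ^ 2) * f (r • (ω : E3)))

/-- polar coordinates around `z` for nonnegative functions -/
theorem lintegral_polar (f : E3 → ℝ≥0∞) (hf : Measurable f) (z : E3) :
    ∫⁻ x, f x = ∫⁻ ω : sphere (0 : E3) 1, (∫⁻ r in Ioi (0 : ℝ),
      ENNReal.ofReal (r ^ 2) * f (z + r • (ω : E3))) ∂(volume : Measure E3).toSphere := by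
  have h := lintegral_polar_zero (fun x => f (z + x)) (hf.comp (measurable_const_add z))
  rw [← h]
  exact (lintegral_add_left_eq_self f z).symm

private theorem integral_polar_zero (f : E3 → ℝ) (hf : Integrable f) :
    ∫ x, f x = ∫ ω : sphere (0 : E3) 1, (∫ r in Ioi (0 : ℝ),
      r ^ 2 * f (r • (ω : E3))) ∂(volume : Measure E3).toSphere := by
  have h0 : (∫ x, f x) = ∫ x in ({(0 : E3)}ᶜ : Set E3), f x := by
    rw [restrict_compl_singleton]
  have h1 : (∫ x in ({(0 : E3)}ᶜ : Set E3), f x)
      = ∫ x : ({(0 : E3)}ᶜ : Set E3), f x ∂(Measure.comap (↑) (volume : Measure E3)) := by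
    rw [integral_subtype_comap (measurableSet_singleton _).compl]
  have hi : Integrable (fun x : ({(0 : E3)}ᶜ : Set E3) => f x)
      (Measure.comap (↑) (volume : Measure E3)) := by
    have := (integrableOn_iff_comap_subtypeVal (μ := (volume : Measure E3)) (f := f)
      (measurableSet_singleton (0 : E3)).compl).1 hf.integrableOn
    exact this
  have hk : ∀ x : ({(0 : E3)}ᶜ : Set E3),
      (((homeomorphUnitSphereProd E3 x).2 : ℝ) • ((homeomorphUnitSphereProd E3 x).1 : E3)) = x := by
    intro x
    have h3 := homeomorphUnitSphereProd_symm_apply_coe E3 (homeomorphUnitSphereProd E3 x)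
    rw [Homeomorph.symm_apply_apply] at h3
    exact h3.symm
  have hi2 : Integrable (fun p : sphere (0 : E3) 1 × Ioi (0 : ℝ) => f ((p.2 : ℝ) • (p.1 : E3)))
      ((volume : Measure E3).toSphere.prod (Measure.volumeIoiPow (Module.finrank ℝ E3 - 1))) := by
    rw [← ((volume : Measure E3).measurePreserving_homeomorphUnitSphereProd).integrable_comp_emb
      (Homeomorph.measurableEmbedding _)]
    refine hi.congr (Filter.Eventually.of_forall fun x => ?_)
    simp only [Function.comp_apply]
    rw [hk x]
  have h2 : (∫ x : ({(0 : E3)}ᶜ : Set E3), f x ∂(Measure.comap (↑) (volume : Measure E3)))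
      = ∫ p : sphere (0 : E3) 1 × Ioi (0 : ℝ), f ((p.2 : ℝ) • (p.1 : E3))
        ∂((volume : Measure E3).toSphere.prod (Measure.volumeIoiPow (Module.finrank ℝ E3 - 1))) := by
    have := ((volume : Measure E3).measurePreserving_homeomorphUnitSphereProd).integral_comp
      (Homeomorph.measurableEmbedding _)
      (fun p : sphere (0 : E3) 1 × Ioi (0 : ℝ) => f ((p.2 : ℝ) • (p.1 : E3)))
    rw [← this]
    apply integral_congr_ae
    refine Filter.Eventually.of_forall fun x => ?_
    show f x = f _
    rw [hk x]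
  rw [h0, h1, h2, integral_prod _ hi2]
  apply integral_congr_ae
  refine Filter.Eventually.of_forall fun ω => ?_
  show (∫ r : Ioi (0 : ℝ), f ((r : ℝ) • (ω : E3)) ∂(Measure.volumeIoiPow _)) = _
  rw [finrank_E3, Measure.volumeIoiPow]
  simp only [ENNReal.ofReal]
  rw [integral_withDensity_eq_integral_smul
    (measurable_subtype_coe.pow_const _).real_toNNReal,
    integral_subtype_comap measurableSet_Ioi
      fun a : ℝ => Real.toNNReal (a ^ (3 - 1)) • f (a • (ω : E3))]
  refine setIntegral_congr_fun measurableSet_Ioi fun x hx => ?_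
  show Real.toNNReal (x ^ (3 - 1)) • f (x • (ω : E3)) = x ^ 2 * f (x • (ω : E3))
  rw [NNReal.smul_def, Real.coe_toNNReal _ (pow_nonneg (le_of_lt hx) _), smul_eq_mul]

/-- polar coordinates around `z` for integrable functions -/
theorem integral_polar (f : E3 → ℝ) (hf : Integrable f) (z : E3) :
    ∫ x, f x = ∫ ω : sphere (0 : E3) 1, (∫ r in Ioi (0 : ℝ),
      r ^ 2 * f (z + r • (ω : E3))) ∂(volume : Measure E3).toSphere := by
  have h := integral_polar_zero (fun x => f (z + x)) (hf.comp_add_left z)
  rw [← h]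
  exact (integral_add_left_eq_self f z).symm

/-- the area of the unit sphere -/
theorem sphere_area : (volume : Measure E3).toSphere.real univ = 4 * Real.pi := by
  rw [Measure.toSphere_real_apply_univ, finrank_E3, measureReal_def,
    EuclideanSpace.volume_ball_fin_three]
  rw [ENNReal.toReal_mul, ENNReal.toReal_pow, ENNReal.toReal_ofReal zero_le_one,
    ENNReal.toReal_ofReal (by positivity)]
  push_cast
  ring

end Pool.Agent.Helper1.CK
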