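import Pool.Agent.Helper1.CK.Defs

/-!
# Project CK (helper1), module Weak
Weak limits: measures of small energy near K give measures of small energy on K.
-/

set_option autoImplicit false

open MeasureTheory Set Filter Topology Metric
open scoped RealInnerProductSpace ENNReal NNReal

namespace Pool.Agent.Helper1.CK

/-- the kernel -/
private noncomputable def ker (p : E3 × E3) : ℝ≥0∞ := (edist p.1 p.2)⁻¹

private theorem ker_cont : Continuous ker := by
  unfold ker
  exact (continuous_fst.edist continuous_snd).inv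

private theorem nEnergy_eq (μ : Measure E3) [IsProbabilityMeasure μ] :
    nEnergy μ = ∫⁻ p, ker p ∂(μ.prod μ) := by
  rw [lintegral_prod _ ker_cont.measurable.aemeasurable]
  rfl

/-- the truncated kernel as a bounded continuous function -/
private noncomputable def kerN (N : ℕ) : BoundedContinuousFunction (E3 × E3) ℝ≥0 :=
  BoundedContinuousFunction.mkOfBound
    ⟨fun p => (min (ker p) N).toNNReal, by
      rw [continuous_iff_continuousAt]
      intro p
      have h1 : ContinuousAt (fun p => min (ker p) (N : ℝ≥0∞)) p :=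
        (ker_cont.min continuous_const).continuousAt
      have h2 : min (ker p) (N : ℝ≥0∞) ≠ ⊤ :=
        ne_top_of_le_ne_top (ENNReal.natCast_ne_top N) (min_le_right _ _)
      exact (ENNReal.tendsto_toNNReal h2).comp h1⟩ N (by
    intro p q
    have hb : ∀ p, (min (ker p) (N : ℝ≥0∞)).toNNReal ≤ (N : ℝ≥0) := by
      intro p
      have h2 : min (ker p) (N : ℝ≥0∞) ≠ ⊤ :=
        ne_top_of_le_ne_top (ENNReal.natCast_ne_top N) (min_le_right _ _)
      have h3 := ENNReal.toNNReal_mono (ENNReal.natCast_ne_top N) (min_le_right (ker p) (N : ℝ≥0∞))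
      simpa using h3
    have h1 := hb p
    have h2 := hb q
    show dist ((min (ker p) (N : ℝ≥0∞)).toNNReal) ((min (ker q) (N : ℝ≥0∞)).toNNReal) ≤ N
    rw [NNReal.dist_eq, abs_le]
    have h3 : ((min (ker p) (N : ℝ≥0∞)).toNNReal : ℝ) ≤ N := by exact_mod_cast h1
    have h4 : ((min (ker q) (N : ℝ≥0∞)).toNNReal : ℝ) ≤ N := by exact_mod_cast h2
    have h5 : (0 : ℝ) ≤ ((min (ker p) (N : ℝ≥0∞)).toNNReal : ℝ) := NNReal.coe_nonneg _
    have h6 : (0 : ℝ) ≤ ((min (ker q) (N : ℝ≥0∞)).toNNReal : ℝ) := NNReal.coe_nonneg _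
    constructor <;> linarith)

private theorem kerN_apply (N : ℕ) (p : E3 × E3) : (kerN N p : ℝ≥0∞) = min (ker p) N := by
  show (((min (ker p) (N : ℝ≥0∞)).toNNReal : ℝ≥0) : ℝ≥0∞) = _
  rw [ENNReal.coe_toNNReal]
  exact ne_top_of_le_ne_top (ENNReal.natCast_ne_top N) (min_le_right _ _)

private theorem iSup_min (a : ℝ≥0∞) : ⨆ N : ℕ, min a (N : ℝ≥0∞) = a := by
  apply le_antisymm
  · exact iSup_le fun N => min_le_left _ _
  · have h := ENNReal.iSup_natCast
    have h1 : ⨆ N : ℕ, min a (N : ℝ≥0∞) = min a (⨆ N : ℕ, (N : ℝ≥0∞)) := by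
      exact (inf_iSup_eq a (fun N : ℕ => (N : ℝ≥0∞))).symm
    rw [h1, h, min_eq_left le_top]

/-- lower semicontinuity of the energy under weak convergence of probability measures -/
theorem energy_lsc {μ : ℕ → ProbabilityMeasure E3} {ν : ProbabilityMeasure E3}
    (h : Tendsto μ atTop (𝓝 ν)) :
    nEnergy (ν : Measure E3) ≤ liminf (fun k => nEnergy (μ k : Measure E3)) atTop := by
  have hp : Tendsto (fun k => (μ k).prod (μ k)) atTop (𝓝 (ν.prod ν)) := by
    have h1 : Tendsto (fun k => (μ k, μ k)) atTop (𝓝 (ν, ν)) := h.prodMk_nhds h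
    exact (ProbabilityMeasure.continuous_prod.tendsto (ν, ν)).comp h1
  have h2 := ProbabilityMeasure.tendsto_iff_forall_lintegral_tendsto.1 hp
  rw [nEnergy_eq]
  have h3 : ∫⁻ p, ker p ∂((ν : Measure E3).prod (ν : Measure E3)) =
      ⨆ N : ℕ, ∫⁻ p, (kerN N p : ℝ≥0∞) ∂((ν : Measure E3).prod (ν : Measure E3)) := by
    rw [← lintegral_iSup]
    · refine lintegral_congr fun p => ?_
      simp only [kerN_apply]
      exact (iSup_min _).symm
    · intro N
      exact (kerN N).continuous.measurable.coe_nnreal_ennreal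
    · intro N M hNM p
      show (kerN N p : ℝ≥0∞) ≤ (kerN M p : ℝ≥0∞)
      rw [kerN_apply, kerN_apply]
      exact min_le_min_left _ (by exact_mod_cast hNM)
  rw [h3]
  refine iSup_le fun N => ?_
  have h4 := (h2 (kerN N)).liminf_eq
  rw [ProbabilityMeasure.toMeasure_prod] at h4
  rw [← h4]
  refine liminf_le_liminf (Eventually.of_forall fun k => ?_)
  rw [nEnergy_eq, ProbabilityMeasure.toMeasure_prod]
  refine lintegral_mono fun p => ?_
  rw [kerN_apply]
  exact min_le_left _ _

theorem weak_limit {K : Set E3} (hK : IsCompact K) {c : ℝ≥0∞}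
    (h : ∀ η : ℝ, 0 < η → ∃ μ : Measure E3, IsProbabilityMeasure μ ∧ μ (cthickening η K)ᶜ = 0 ∧
      nEnergy μ ≤ c + ENNReal.ofReal η) : V1 K ≤ c := by
  have hη : ∀ k : ℕ, (0 : ℝ) < 1 / ((k : ℝ) + 1) := fun k => by positivity
  choose μ0 hμp hμ0 hμE using fun k : ℕ => h (1 / ((k : ℝ) + 1)) (hη k)
  let μ : ℕ → ProbabilityMeasure E3 := fun k => ⟨μ0 k, hμp k⟩
  have hK1 : IsCompact (cthickening 1 K) := hK.cthickening
  have hS : IsCompact {μ : ProbabilityMeasure E3 |
      ∀ n : ℕ, μ ((fun _ : ℕ => cthickening 1 K) n)ᶜ ≤ (fun _ : ℕ => (0 : ℝ≥0)) n} :=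
    isCompact_setOfPred_probabilityMeasure_mass_eq_compl_isCompact_le tendsto_const_nhds
      (fun _ => hK1) (Or.inl inferInstance)
  have hmono : ∀ k m : ℕ, m ≤ k → μ0 k (cthickening (1 / ((m : ℝ) + 1)) K)ᶜ = 0 := by
    intro k m hmk
    refine measure_mono_null (compl_subset_compl.2 (cthickening_mono ?_ K)) (hμ0 k)
    exact one_div_le_one_div_of_le (by positivity) (by
      have : (m : ℝ) ≤ k := by exact_mod_cast hmk
      linarith)
  have hmem : ∀ k, μ k ∈ {μ : ProbabilityMeasure E3 |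
      ∀ n : ℕ, μ ((fun _ : ℕ => cthickening 1 K) n)ᶜ ≤ (fun _ : ℕ => (0 : ℝ≥0)) n} := by
    intro k n
    have h1 := hmono k 0 (Nat.zero_le k)
    have h2 : cthickening (1 / (((0 : ℕ) : ℝ) + 1)) K = cthickening 1 K := by norm_num
    rw [h2] at h1
    have h3 : (μ k : Measure E3) (cthickening 1 K)ᶜ = 0 := h1
    have h4 : μ k (cthickening 1 K)ᶜ = 0 := by
      rw [← ENNReal.coe_eq_zero, ProbabilityMeasure.ennreal_coeFn_eq_coeFn_toMeasure]
      exact h3
    exact h4.le
  obtain ⟨ν, -, φ, hφ, hlim⟩ := hS.isSeqCompact hmem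
  have hνK : (ν : Measure E3) Kᶜ = 0 := by
    have h1 : Kᶜ = ⋃ m : ℕ, (cthickening (1 / ((m : ℝ) + 1)) K)ᶜ := by
      rw [← compl_iInter]
      congr 1
      apply subset_antisymm
      · exact subset_iInter fun m => self_subset_cthickening K
      · intro x hx
        rw [mem_iInter] at hx
        rw [← hK.isClosed.closure_eq, mem_closure_iff_infEDist_zero]
        by_contra hne
        have h2 : ∀ m : ℕ, infEDist x K ≤ ENNReal.ofReal (1 / ((m : ℝ) + 1)) := fun m =>
          mem_cthickening_iff.1 (hx m)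
        have h3 : Tendsto (fun m : ℕ => ENNReal.ofReal (1 / ((m : ℝ) + 1))) atTop
            (𝓝 (ENNReal.ofReal 0)) :=
          (ENNReal.continuous_ofReal.tendsto 0).comp tendsto_one_div_add_atTop_nhds_zero_nat
        rw [ENNReal.ofReal_zero] at h3
        have h4 : infEDist x K ≤ 0 := ge_of_tendsto' h3 h2
        exact hne (le_antisymm h4 bot_le)
    rw [h1]
    refine measure_iUnion_null fun m => ?_
    have hopen : IsOpen (cthickening (1 / ((m : ℝ) + 1)) K)ᶜ :=
      isClosed_cthickening.isOpen_compl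
    have h2 := ProbabilityMeasure.le_liminf_measure_open_of_tendsto hlim hopen
    have h3 : liminf (fun i => ((μ ∘ φ) i : Measure E3) (cthickening (1 / ((m : ℝ) + 1)) K)ᶜ)
        atTop = 0 := by
      have h4 : (fun i => ((μ ∘ φ) i : Measure E3) (cthickening (1 / ((m : ℝ) + 1)) K)ᶜ) =ᶠ[atTop]
          fun _ => 0 := by
        filter_upwards [hφ.tendsto_atTop.eventually_ge_atTop m] with i hi
        exact hmono (φ i) m hi
      rw [liminf_congr h4]
      exact liminf_const 0
    rw [h3] at h2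
    exact le_antisymm h2 bot_le
  have hE : nEnergy (ν : Measure E3) ≤ c := by
    refine (energy_lsc hlim).trans ?_
    have h1 : liminf (fun k => nEnergy ((μ ∘ φ) k : Measure E3)) atTop ≤
        liminf (fun k => c + ENNReal.ofReal (1 / ((φ k : ℝ) + 1))) atTop :=
      liminf_le_liminf (Eventually.of_forall fun k => hμE (φ k))
    refine h1.trans (le_of_eq ?_)
    have h2 : Tendsto (fun k => c + ENNReal.ofReal (1 / ((φ k : ℝ) + 1))) atTop
        (𝓝 (c + ENNReal.ofReal 0)) := by
      refine tendsto_const_nhds.add ?_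
      exact (ENNReal.continuous_ofReal.tendsto 0).comp
        (tendsto_one_div_add_atTop_nhds_zero_nat.comp hφ.tendsto_atTop)
    rw [h2.liminf_eq, ENNReal.ofReal_zero, add_zero]
  exact (iInf_le_of_le (ν : Measure E3)
    (iInf_le_of_le (inferInstance : IsProbabilityMeasure (ν : Measure E3))
    (iInf_le_of_le hνK le_rfl))).trans hE

end Pool.Agent.Helper1.CK
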