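import Pool.Agent.Helper1.CK.Shell
import Pool.Agent.Helper1.CK.Weak

/-!
# Project CK (helper1), module V1Bound
The bound for V1.
-/

set_option autoImplicit false

open MeasureTheory Set Filter Topology Metric
open scoped RealInnerProductSpace ENNReal NNReal

namespace Pool.Agent.Helper1.CK

theorem V1_le {K : Set E3} (hK : Good K) {S : ℝ} (hS : 0 < S) (hC : Content K S) :
    V1 K ≤ ENNReal.ofReal (√(8 * Real.pi / S)) := by
  refine weak_limit hK.cpt fun η hη => ?_
  obtain ⟨ε, hε0, hεη, hv0, hvt, hE⟩ := exists_shell hK hS hC hη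
  set v := volume (Sh K ε) with hv
  refine ⟨v⁻¹ • volume.restrict (Sh K ε), ⟨?_⟩, ?_, ?_⟩
  · rw [Measure.smul_apply, Measure.restrict_apply_univ, smul_eq_mul, ← hv,
      ENNReal.inv_mul_cancel hv0 hvt]
  · rw [Measure.smul_apply, smul_eq_mul]
    have : volume.restrict (Sh K ε) (cthickening η K)ᶜ = 0 := by
      rw [Measure.restrict_apply isClosed_cthickening.measurableSet.compl]
      have hsub : (cthickening η K)ᶜ ∩ Sh K ε = ∅ := by
        ext w
        simp only [mem_inter_iff, mem_compl_iff, mem_empty_iff_false, iff_false, not_and, not_not]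
        intro h1 h2
        exact h1 (thickening_subset_cthickening η K
          ((mem_thickening_iff_infDist_lt hK.ne).2 (h2.2.trans hεη)))
      rw [hsub, measure_empty]
    rw [this, mul_zero]
  · have h1 : nEnergy (v⁻¹ • volume.restrict (Sh K ε)) = v⁻¹ * (v⁻¹ * En (Sh K ε)) := by
      unfold nEnergy En
      rw [lintegral_smul_measure, smul_eq_mul]
      congr 1
      simp_rw [lintegral_smul_measure, smul_eq_mul]
      rw [lintegral_const_mul']
      exact ENNReal.inv_ne_top.2 hv0
    rw [h1, ← ENNReal.ofReal_add (Real.sqrt_nonneg _) hη.le]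
    calc v⁻¹ * (v⁻¹ * En (Sh K ε))
        ≤ v⁻¹ * (v⁻¹ * (ENNReal.ofReal (√(8 * Real.pi / S) + η) * v ^ 2)) := by gcongr
      _ = (v⁻¹ * v) * (v⁻¹ * v) * ENNReal.ofReal (√(8 * Real.pi / S) + η) := by ring
      _ = ENNReal.ofReal (√(8 * Real.pi / S) + η) := by
        rw [ENNReal.inv_mul_cancel hv0 hvt]; simp

end Pool.Agent.Helper1.CK
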